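import Mathlib

/-! # The zero estimate, abstract form -/

set_option linter.unusedSectionVars false

open scoped Pointwise

namespace MP3550b5.ZE

section loc

variable {A F : Type*} [CommRing A] [IsDomain A] [Field F] [Algebra A F] [IsFractionRing A F]

/-- The local ring at `p`. -/
def Loc (F : Type*) {A : Type*} [CommRing A] [Field F] [Algebra A F] (p : Ideal A) : Set F :=
  {x | ∃ a b : A, b ∉ p ∧ x * algebraMap A F b = algebraMap A F a}

/-- The maximal ideal of the local ring at `p`. -/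
def MLoc (F : Type*) {A : Type*} [CommRing A] [Field F] [Algebra A F] (p : Ideal A) : Set F :=
  {x | ∃ a b : A, a ∈ p ∧ b ∉ p ∧ x * algebraMap A F b = algebraMap A F a}

theorem alg_ne_zero {p : Ideal A} {b : A} (hb : b ∉ p) : algebraMap A F b ≠ 0 := by
  intro h
  rw [IsFractionRing.to_map_eq_zero_iff] at h
  exact hb (h ▸ p.zero_mem)

theorem MLoc_sub_Loc (p : Ideal A) : MLoc F p ⊆ Loc F p := by
  rintro x ⟨a, b, -, hb, h⟩
  exact ⟨a, b, hb, h⟩

variable (p : Ideal A) [hp : p.IsPrime]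

include hp

omit [IsDomain A] [IsFractionRing A F] in
theorem Loc_alg (a : A) : algebraMap A F a ∈ Loc F p :=
  ⟨a, 1, (Ideal.ne_top_iff_one p).1 hp.ne_top, by rw [map_one, mul_one]⟩

omit [IsDomain A] [IsFractionRing A F] in
theorem Loc_mul {x y : F} (hx : x ∈ Loc F p) (hy : y ∈ Loc F p) : x * y ∈ Loc F p := by
  obtain ⟨a, b, hb, h⟩ := hx
  obtain ⟨a', b', hb', h'⟩ := hy
  refine ⟨a * a', b * b', fun hbb => (hp.mem_or_mem hbb).elim hb hb', ?_⟩
  rw [map_mul, map_mul, ← h, ← h']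
  ring

omit [IsDomain A] [IsFractionRing A F] in
theorem MLoc_add {x y : F} (hx : x ∈ MLoc F p) (hy : y ∈ MLoc F p) : x + y ∈ MLoc F p := by
  obtain ⟨a, b, ha, hb, h⟩ := hx
  obtain ⟨a', b', ha', hb', h'⟩ := hy
  refine ⟨a * b' + a' * b, b * b', p.add_mem (p.mul_mem_right _ ha) (p.mul_mem_right _ ha'),
    fun hbb => (hp.mem_or_mem hbb).elim hb hb', ?_⟩
  rw [map_add, map_mul, map_mul, map_mul, ← h, ← h']
  ring

omit [IsDomain A] [IsFractionRing A F] in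
theorem MLoc_mul {x y : F} (hx : x ∈ MLoc F p) (hy : y ∈ Loc F p) : x * y ∈ MLoc F p := by
  obtain ⟨a, b, ha, hb, h⟩ := hx
  obtain ⟨a', b', hb', h'⟩ := hy
  refine ⟨a * a', b * b', p.mul_mem_right _ ha,
    fun hbb => (hp.mem_or_mem hbb).elim hb hb', ?_⟩
  rw [map_mul, map_mul, ← h, ← h']
  ring

theorem mem_MLoc_iff (a : A) : algebraMap A F a ∈ MLoc F p ↔ a ∈ p := by
  constructor
  · rintro ⟨a', b, ha', hb, h⟩
    rw [← map_mul] at h
    have h1 := IsFractionRing.injective A F h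
    exact (hp.mem_or_mem (h1 ▸ ha' : a * b ∈ p)).resolve_right hb
  · intro ha
    exact ⟨a, 1, ha, (Ideal.ne_top_iff_one p).1 hp.ne_top, by rw [map_one, mul_one]⟩

theorem one_notMem_MLoc : (1 : F) ∉ MLoc F p := by
  intro h
  have h1 : algebraMap A F 1 ∈ MLoc F p := by rwa [map_one]
  exact hp.ne_top ((Ideal.eq_top_iff_one p).2 ((mem_MLoc_iff p 1).1 h1))

/-- An element of the local ring is in the maximal ideal or a unit. -/
theorem unit_of_notMem {x : F} (hx : x ∈ Loc F p) (hx' : x ∉ MLoc F p) :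
    x ≠ 0 ∧ x⁻¹ ∈ Loc F p := by
  obtain ⟨a, b, hb, h⟩ := hx
  have ha : a ∉ p := fun ha => hx' ⟨a, b, ha, hb, h⟩
  have ha0 := alg_ne_zero (F := F) ha
  have hx0 : x ≠ 0 := by
    rintro rfl
    rw [zero_mul] at h
    exact ha0 h.symm
  refine ⟨hx0, b, a, ha, ?_⟩
  rw [← h]
  field_simp

theorem notMem_of_unit {x : F} (hx0 : x ≠ 0) (hx : x⁻¹ ∈ Loc F p) : x ∉ MLoc F p := by
  intro h
  have h1 := MLoc_mul p h hx
  rw [mul_inv_cancel₀ hx0] at h1
  exact one_notMem_MLoc p h1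

omit [IsDomain A] [IsFractionRing A F] hp in
theorem Loc_mono {q : Ideal A} (h : q ≤ p) : Loc F p ⊆ Loc F q := by
  rintro x ⟨a, b, hb, h'⟩
  exact ⟨a, b, fun hbq => hb (h hbq), h'⟩

theorem prime_MLoc {x y : F} (hx : x ∈ Loc F p) (hy : y ∈ Loc F p) (h : x * y ∈ MLoc F p) :
    x ∈ MLoc F p ∨ y ∈ MLoc F p := by
  by_contra hcon
  push Not at hcon
  obtain ⟨hx0, hx1⟩ := unit_of_notMem p hx hcon.1
  obtain ⟨hy0, hy1⟩ := unit_of_notMem p hy hcon.2
  refine notMem_of_unit p (mul_ne_zero hx0 hy0) ?_ h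
  rw [mul_inv]
  exact Loc_mul p hx1 hy1

end loc

section trans

variable {A F Γ : Type*} [CommRing A] [IsDomain A] [Field F] [Algebra A F] [IsFractionRing A F]
  [AddCommGroup Γ]

/-- The data of a commutative group of automorphisms with good points. -/
structure Dat (A F Γ : Type*) [CommRing A] [Field F] [Algebra A F] [AddCommGroup Γ] where
  /-- the automorphisms -/
  τ : Γ → (F ≃+* F)
  τ_zero : ∀ x, τ 0 x = x
  τ_add : ∀ u v x, τ (u + v) x = τ u (τ v x)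
  /-- the points -/
  m : Γ → Ideal A
  /-- the good pairs: the translation by `u` is regular at the point `v` -/
  G : Γ → Γ → Prop
  symm : ∀ v u, G v u → G (v + u) (-u)
  prime : ∀ v u, G v u → (m v).IsPrime
  reg : ∀ v u, G v u → ∀ a : A, τ u (algebraMap A F a) ∈ Loc F (m v)
  ev : ∀ v u, G v u → ∀ a : A, τ u (algebraMap A F a) ∈ MLoc F (m v) ↔ a ∈ m (v + u)

variable (𝒟 : Dat A F Γ)

/-- The translate of a prime ideal (as a set). -/
def trS (q : Ideal A) (w : Γ) : Set A := {a | 𝒟.τ w (algebraMap A F a) ∈ MLoc F q}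

variable {𝒟} {v w : Γ} (hG : 𝒟.G v w)

include hG

theorem reg_q {q : Ideal A} (hq : q ≤ 𝒟.m v) (a : A) : 𝒟.τ w (algebraMap A F a) ∈ Loc F q :=
  Loc_mono _ hq (𝒟.reg v w hG a)

/-- The translate of a prime ideal. -/
def tr (q : Ideal A) [q.IsPrime] (hq : q ≤ 𝒟.m v) : Ideal A where
  carrier := trS 𝒟 q w
  zero_mem' := by
    show 𝒟.τ w (algebraMap A F 0) ∈ MLoc F q
    rw [map_zero, map_zero]
    have := (mem_MLoc_iff (F := F) q 0).2 q.zero_mem
    rwa [map_zero] at this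
  add_mem' := by
    intro a b ha hb
    show 𝒟.τ w (algebraMap A F (a + b)) ∈ MLoc F q
    rw [map_add, map_add]
    exact MLoc_add q ha hb
  smul_mem' := by
    intro c a ha
    show 𝒟.τ w (algebraMap A F (c * a)) ∈ MLoc F q
    rw [map_mul, map_mul, mul_comm]
    exact MLoc_mul q ha (reg_q hG hq c)

theorem mem_tr {q : Ideal A} [q.IsPrime] (hq : q ≤ 𝒟.m v) {a : A} :
    a ∈ tr hG q hq ↔ 𝒟.τ w (algebraMap A F a) ∈ MLoc F q := Iff.rfl

theorem tr_prime {q : Ideal A} [q.IsPrime] (hq : q ≤ 𝒟.m v) : (tr hG q hq).IsPrime := by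
  rw [Ideal.isPrime_iff]
  constructor
  · rw [Ideal.ne_top_iff_one]
    intro h
    have h1 : 𝒟.τ w (algebraMap A F 1) ∈ MLoc F q := h
    rw [map_one, map_one] at h1
    exact one_notMem_MLoc q h1
  · intro a b hab
    have h1 : 𝒟.τ w (algebraMap A F (a * b)) ∈ MLoc F q := hab
    rw [map_mul, map_mul] at h1
    exact prime_MLoc q (reg_q hG hq a) (reg_q hG hq b) h1

/-- An element of a bigger local ring which is in a smaller maximal ideal. -/
theorem MLoc_up {q q' : Ideal A} [q.IsPrime] [q'.IsPrime] (h : q ≤ q') {x : F}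
    (hx : x ∈ Loc F q') (hxq : x ∈ MLoc F q) : x ∈ MLoc F q' := by
  clear hG
  by_contra hcon
  obtain ⟨hx0, hx1⟩ := unit_of_notMem q' hx hcon
  exact notMem_of_unit q hx0 (Loc_mono _ h hx1) hxq

theorem tr_le {q : Ideal A} [q.IsPrime] (hq : q ≤ 𝒟.m v) :
    tr hG q hq ≤ 𝒟.m (v + w) := by
  intro a ha
  have := 𝒟.prime v w hG
  rw [← 𝒟.ev v w hG]
  exact MLoc_up hG hq (𝒟.reg v w hG a) ha

theorem tr_mono {q q' : Ideal A} [q.IsPrime] [q'.IsPrime] (h : q ≤ q') (hq' : q' ≤ 𝒟.m v) :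
    tr hG q (h.trans hq') ≤ tr hG q' hq' := by
  intro a ha
  exact MLoc_up hG h (reg_q hG hq' a) ha

/-- The translation maps the local ring at the translate to the local ring. -/
theorem τ_Loc {q : Ideal A} [q.IsPrime] (hq : q ≤ 𝒟.m v) {x : F}
    (hx : x ∈ Loc F (tr hG q hq)) : 𝒟.τ w x ∈ Loc F q := by
  obtain ⟨a, b, hb, h⟩ := hx
  obtain ⟨hb0, hb1⟩ := unit_of_notMem q (reg_q hG hq b) hb
  have h1 : 𝒟.τ w x = 𝒟.τ w (algebraMap A F a) * (𝒟.τ w (algebraMap A F b))⁻¹ := by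
    rw [← h, map_mul, mul_assoc, mul_inv_cancel₀ hb0, mul_one]
  rw [h1]
  exact Loc_mul q (reg_q hG hq a) hb1

theorem τ_MLoc {q : Ideal A} [q.IsPrime] (hq : q ≤ 𝒟.m v) {x : F}
    (hx : x ∈ MLoc F (tr hG q hq)) : 𝒟.τ w x ∈ MLoc F q := by
  obtain ⟨a, b, ha, hb, h⟩ := hx
  obtain ⟨hb0, hb1⟩ := unit_of_notMem q (reg_q hG hq b) hb
  have h1 : 𝒟.τ w x = 𝒟.τ w (algebraMap A F a) * (𝒟.τ w (algebraMap A F b))⁻¹ := by
    rw [← h, map_mul, mul_assoc, mul_inv_cancel₀ hb0, mul_one]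
  rw [h1]
  exact MLoc_mul q ha hb1

theorem τ_MLoc_iff {q : Ideal A} [q.IsPrime] (hq : q ≤ 𝒟.m v) {x : F}
    (hx : x ∈ Loc F (tr hG q hq)) :
    𝒟.τ w x ∈ MLoc F q ↔ x ∈ MLoc F (tr hG q hq) := by
  refine ⟨fun h => ?_, τ_MLoc hG hq⟩
  by_contra hcon
  have := tr_prime hG hq
  obtain ⟨hx0, hx1⟩ := unit_of_notMem (tr hG q hq) hx hcon
  refine notMem_of_unit q ?_ ?_ h
  · intro h0
    exact hx0 ((map_eq_zero (𝒟.τ w)).1 h0)
  · rw [← map_inv₀]
    exact τ_Loc hG hq hx1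

omit [IsDomain A] [IsFractionRing A F] hG in
theorem τ_neg (x : F) : 𝒟.τ (-w) (𝒟.τ w x) = x := by
  rw [← 𝒟.τ_add, neg_add_cancel, 𝒟.τ_zero]

omit [IsDomain A] [IsFractionRing A F] hG in
theorem τ_neg' (x : F) : 𝒟.τ w (𝒟.τ (-w) x) = x := by
  rw [← 𝒟.τ_add, add_neg_cancel, 𝒟.τ_zero]

omit [IsDomain A] [IsFractionRing A F] in
theorem back_mem : 𝒟.G (v + w) (-w) := 𝒟.symm v w hG

omit [IsDomain A] [IsFractionRing A F] hG in
theorem m_back : 𝒟.m (v + w + -w) = 𝒟.m v := by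
  rw [add_neg_cancel_right]

/-- The local ring at the translate. -/
theorem τ_back {q : Ideal A} [q.IsPrime] (hq : q ≤ 𝒟.m v) (a : A) :
    𝒟.τ (-w) (algebraMap A F a) ∈ Loc F (tr hG q hq) := by
  exact Loc_mono _ (tr_le hG hq) (𝒟.reg (v + w) (-w) (𝒟.symm v w hG) a)

theorem mem_iff_back {q : Ideal A} [q.IsPrime] (hq : q ≤ 𝒟.m v) (a : A) :
    𝒟.τ (-w) (algebraMap A F a) ∈ MLoc F (tr hG q hq) ↔ a ∈ q := by
  rw [← τ_MLoc_iff hG hq (τ_back hG hq a), τ_neg', mem_MLoc_iff]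

theorem Loc_back {q : Ideal A} [q.IsPrime] (hq : q ≤ 𝒟.m v) {x : F} (hx : x ∈ Loc F q) :
    𝒟.τ (-w) x ∈ Loc F (tr hG q hq) := by
  obtain ⟨a, b, hb, h⟩ := hx
  have := tr_prime hG hq
  have h2 : 𝒟.τ (-w) (algebraMap A F b) ∉ MLoc F (tr hG q hq) := by
    rw [mem_iff_back hG hq]
    exact hb
  obtain ⟨hb0, hb1⟩ := unit_of_notMem (tr hG q hq) (τ_back hG hq b) h2
  have h1 : 𝒟.τ (-w) x = 𝒟.τ (-w) (algebraMap A F a) * (𝒟.τ (-w) (algebraMap A F b))⁻¹ := by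
    rw [← h, map_mul, mul_assoc, mul_inv_cancel₀ hb0, mul_one]
  rw [h1]
  exact Loc_mul _ (τ_back hG hq a) hb1

theorem τ_Loc_iff {q : Ideal A} [q.IsPrime] (hq : q ≤ 𝒟.m v) {x : F} :
    𝒟.τ w x ∈ Loc F q ↔ x ∈ Loc F (tr hG q hq) := by
  refine ⟨fun h => ?_, τ_Loc hG hq⟩
  have h1 := Loc_back hG hq h
  rwa [τ_neg] at h1

omit hG in
theorem tr_back {q : Ideal A} [q.IsPrime] (hG : 𝒟.G v w) (hq : q ≤ 𝒟.m v)
    (h1 : 𝒟.G (v + w) (-w)) (h2 : (tr hG q hq).IsPrime) (h3 : tr hG q hq ≤ 𝒟.m (v + w)) :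
    tr h1 (tr hG q hq) h3 = q := by
  ext a
  exact mem_iff_back hG hq a

omit hG in
theorem height_tr_le : ∀ (n : ℕ) {v w : Γ} (hG : 𝒟.G v w) (q : Ideal A)
    [q.IsPrime] (hq : q ≤ 𝒟.m v), q.height ≤ n → (tr hG q hq).height ≤ n := by
  intro n
  induction n with
  | zero =>
    intro v w hG q _ hq hn
    have := tr_prime hG hq
    rw [Ideal.height_le_iff] at hn ⊢
    intro q' hq' hlt
    exfalso
    have h1 : 𝒟.G (v + w) (-w) := 𝒟.symm v w hG
    have h3 : q' ≤ 𝒟.m (v + w) := hlt.le.trans (tr_le hG hq)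
    have h4 := tr_prime h1 h3
    have h5 : tr h1 q' h3 < q := by
      refine lt_of_le_of_ne ?_ ?_
      · have h6 := tr_mono h1 hlt.le (tr_le hG hq)
        rwa [tr_back hG hq h1 this] at h6
      · intro h6
        apply hlt.ne
        ext a
        have h7 := mem_iff_back h1 h3 a
        rw [neg_neg] at h7
        rw [← h7, mem_tr hG hq]
        rw [h6]
    have h8 := hn _ h4 h5
    simp at h8
  | succ n ih =>
    intro v w hG q _ hq hn
    have := tr_prime hG hq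
    rw [Ideal.height_le_iff] at hn ⊢
    intro q' hq' hlt
    have h1 : 𝒟.G (v + w) (-w) := 𝒟.symm v w hG
    have h3 : q' ≤ 𝒟.m (v + w) := hlt.le.trans (tr_le hG hq)
    have h4 := tr_prime h1 h3
    have h7 : ∀ a, 𝒟.τ w (algebraMap A F a) ∈ MLoc F (tr h1 q' h3) ↔ a ∈ q' := by
      intro a
      have h7 := mem_iff_back h1 h3 a
      rwa [neg_neg] at h7
    have h5 : tr h1 q' h3 < q := by
      refine lt_of_le_of_ne ?_ ?_
      · have h6 := tr_mono h1 hlt.le (tr_le hG hq)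
        rwa [tr_back hG hq h1 this] at h6
      · intro h6
        apply hlt.ne
        ext a
        rw [← h7, mem_tr hG hq]
        rw [h6]
    have h8 := hn _ h4 h5
    have h9 : (tr h1 q' h3).height ≤ n := by
      have : (tr h1 q' h3).height < (n : ℕ∞) + 1 := by exact_mod_cast h8
      exact ENat.lt_add_one_iff (ENat.natCast_ne_top n) |>.1 this
    have h10 : tr h1 q' h3 ≤ 𝒟.m v := h5.le.trans hq
    have h11 := ih hG (tr h1 q' h3) h10 h9
    have h12 : tr hG (tr h1 q' h3) h10 = q' := by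
      ext a
      rw [mem_tr]
      exact h7 a
    rw [h12] at h11
    calc q'.height ≤ (n : ℕ∞) := h11
      _ < ((n + 1 : ℕ) : ℕ∞) := by exact_mod_cast Nat.lt_succ_self n

omit hG in
theorem height_tr (hG : 𝒟.G v w) {q : Ideal A} [q.IsPrime]
    (hq : q ≤ 𝒟.m v) : (tr hG q hq).height = q.height := by
  apply le_antisymm
  · rcases eq_or_ne q.height ⊤ with h | h
    · rw [h]
      exact le_top
    · obtain ⟨n, hn⟩ := ENat.ne_top_iff_exists.1 h
      rw [← hn]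
      exact height_tr_le n hG q hq hn.ge
  · rcases eq_or_ne (tr hG q hq).height ⊤ with h | h
    · rw [h]
      exact le_top
    · obtain ⟨n, hn⟩ := ENat.ne_top_iff_exists.1 h
      rw [← hn]
      have := tr_prime hG hq
      have h1 : 𝒟.G (v + w) (-w) := 𝒟.symm v w hG
      have h2 := height_tr_le n h1 (tr hG q hq) (tr_le hG hq) hn.ge
      rwa [tr_back hG hq h1 this] at h2

end trans

section main

variable {A F Γ : Type*} [CommRing A] [IsDomain A] [Field F] [Algebra A F] [IsFractionRing A F]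
  [AddCommGroup Γ]

/-- The stabiliser of a prime ideal. -/
def Stab (𝒟 : Dat A F Γ) (p : Ideal A) : AddSubgroup Γ where
  carrier := {x | ∀ y, 𝒟.τ x y ∈ Loc F p ↔ y ∈ Loc F p}
  zero_mem' := by
    intro y
    rw [𝒟.τ_zero]
  add_mem' := by
    intro a b ha hb y
    rw [𝒟.τ_add, ha, hb]
  neg_mem' := by
    intro a ha y
    rw [← ha, τ_neg']

omit [IsDomain A] [IsFractionRing A F] in
theorem mem_Stab {𝒟 : Dat A F Γ} {p : Ideal A} {x : Γ} :
    x ∈ Stab 𝒟 p ↔ ∀ y, 𝒟.τ x y ∈ Loc F p ↔ y ∈ Loc F p := Iff.rfl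

/-- Two translates of a prime ideal which agree differ by an element of the stabiliser. -/
theorem sub_mem_Stab {𝒟 : Dat A F Γ} {v w w' : Γ} (hG : 𝒟.G v w)
    (hG' : 𝒟.G v w') {p : Ideal A} [p.IsPrime] (hp : p ≤ 𝒟.m v)
    (h : tr hG p hp = tr hG' p hp) : w' - w ∈ Stab 𝒟 p := by
  rw [mem_Stab]
  intro y
  have h1 := τ_Loc_iff hG hp (x := 𝒟.τ (-w) y)
  rw [τ_neg', h, ← τ_Loc_iff hG' hp, ← 𝒟.τ_add, ← sub_eq_add_neg] at h1
  exact h1.symm

/-- Admissible prime ideals of a level. -/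
structure Adm (𝒟 : Dat A F Γ) (S U : ℕ → Set Γ) (f : A) (r : ℕ) (p : Ideal A) : Prop where
  prime : p.IsPrime
  ex : ∃ v ∈ S r, p ≤ 𝒟.m v
  mem : ∀ u ∈ U r, 𝒟.τ u (algebraMap A F f) ∈ MLoc F p

/-- The abstract zero estimate. -/
theorem zero_estimate [IsNoetherianRing A] (𝒟 : Dat A F Γ) (d : ℕ) (V : Set Γ) (hV0 : 0 ∈ V)
    (S : ℕ → Set Γ) (hSV : ∀ r, ∀ v ∈ S (r + 1), ∀ w ∈ V, v + w ∈ S r ∧ 𝒟.G v w)
    (hne : (S d).Nonempty) (f : A) (hf0 : f ≠ 0) (hf : ∀ v ∈ S 0, f ∈ 𝒟.m v)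
    (hht : ∀ v ∈ S d, (𝒟.m v).height ≤ d)
    (U : ℕ → Set Γ) (hU0 : U 0 = {0}) (hU : ∀ r, U (r + 1) = U r + V)
    (hSU : ∀ r, ∀ v ∈ S r, ∀ u ∈ U r, 𝒟.G v u)
    (num den : Γ → A)
    (hnum : ∀ u, 𝒟.τ u (algebraMap A F f) * algebraMap A F (den u) = algebraMap A F (num u))
    (hden : ∀ r, ∀ v ∈ S r, ∀ u ∈ U r, den u ∉ 𝒟.m v) :
    ∃ r < d, ∃ v ∈ S (r + 1), ∃ (p : Ideal A) (_ : p.IsPrime)
      (hpv : p ≤ 𝒟.m v), f ∈ p ∧ (∀ u ∈ U (r + 1), 𝒟.τ u (algebraMap A F f) ∈ MLoc F p) ∧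
      ∃ hV : ∀ w ∈ V, 𝒟.G v w, ∀ w (hw : w ∈ V),
        tr (hV w hw) p hpv ∈ (Ideal.span (num '' U r)).minimalPrimes := by
  classical
  have hSs : ∀ r, S (r + 1) ⊆ S r := by
    intro r v hv
    have := (hSV r v hv 0 hV0).1
    rwa [add_zero] at this
  have hUs : ∀ r, U r ⊆ U (r + 1) := by
    intro r u hu
    rw [hU]
    exact Set.mem_add.2 ⟨u, hu, 0, hV0, add_zero u⟩
  have hU00 : ∀ r, (0 : Γ) ∈ U r := by
    intro r
    induction r with
    | zero =>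
      rw [hU0]
      exact Set.mem_singleton 0
    | succ r ih => exact hUs r ih
  have hS0 : ∀ r, ∀ v ∈ S r, ∀ u ∈ U r, v + u ∈ S 0 := by
    intro r
    induction r with
    | zero =>
      intro v hv u hu
      rw [hU0, Set.mem_singleton_iff] at hu
      rwa [hu, add_zero]
    | succ r ih =>
      intro v hv u hu
      rw [hU] at hu
      obtain ⟨u', hu', w, hw, rfl⟩ := Set.mem_add.1 hu
      have h1 := ih (v + w) (hSV r v hv w hw).1 u' hu'
      rwa [add_assoc, add_comm w u'] at h1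
  have hSd : ∀ k r, S (r + k) ⊆ S r := by
    intro k
    induction k with
    | zero =>
      intro r
      exact subset_rfl
    | succ k ih =>
      intro r v hv
      exact ih r (hSs _ hv)
  -- the heights
  set H : ℕ → Set ℕ := fun r => {n | ∃ p : Ideal A, Adm 𝒟 S U f r p ∧ p.height = n} with hH
  have hHne : ∀ r ≤ d, ∃ n ∈ H r, n ≤ d := by
    intro r hr
    obtain ⟨v, hv⟩ := hne
    have h1 := hht v hv
    obtain ⟨n, hn⟩ := ENat.ne_top_iff_exists.1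
      (ne_top_of_le_ne_top (ENat.natCast_ne_top d) h1)
    have hvr : v ∈ S r := by
      obtain ⟨k, rfl⟩ := Nat.exists_eq_add_of_le hr
      exact hSd k r hv
    refine ⟨n, ⟨𝒟.m v, ⟨𝒟.prime v 0 (hSU r v hvr 0 (hU00 r)), ⟨v, hvr, le_refl _⟩, ?_⟩,
      hn.symm⟩, ?_⟩
    · intro u hu
      rw [𝒟.ev v u (hSU r v hvr u hu)]
      exact hf _ (hS0 r v hvr u hu)
    · rw [← hn] at h1
      exact_mod_cast h1
  have hmono : ∀ r, H (r + 1) ⊆ H r := by
    rintro r n ⟨p, ⟨h1, ⟨v, hv, h2⟩, h3⟩, h4⟩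
    exact ⟨p, ⟨h1, ⟨v, hSs r hv, h2⟩, fun u hu => h3 u (hUs r hu)⟩, h4⟩
  have hmin : ∀ r ≤ d, sInf (H r) ∈ H r := by
    intro r hr
    obtain ⟨n, hn, -⟩ := hHne r hr
    exact Nat.sInf_mem ⟨n, hn⟩
  have hle : ∀ r ≤ d, sInf (H r) ≤ d := by
    intro r hr
    obtain ⟨n, hn, hnd⟩ := hHne r hr
    exact (Nat.sInf_le hn).trans hnd
  have hpos : 1 ≤ sInf (H 0) := by
    obtain ⟨p, ⟨h1, ⟨v, hv, h2⟩, h3⟩, h4⟩ := hmin 0 (Nat.zero_le d)
    rw [Nat.one_le_iff_ne_zero]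
    intro h0
    rw [h0] at h4
    have h5 := h3 0 (hU00 0)
    rw [𝒟.τ_zero, mem_MLoc_iff] at h5
    have h6 : (⊥ : Ideal A) < p := by
      refine lt_of_le_of_ne bot_le ?_
      rintro rfl
      exact hf0 ((Submodule.mem_bot A).1 h5)
    have h7 := (Ideal.height_le_iff (p := p) (n := 0)).1 h4.le ⊥ Ideal.isPrime_bot h6
    simp at h7
  obtain ⟨r, hr, heq⟩ : ∃ r < d, sInf (H (r + 1)) ≤ sInf (H r) := by
    by_contra hcon
    push Not at hcon
    have h1 : ∀ r ≤ d, r + 1 ≤ sInf (H r) := by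
      intro r
      induction r with
      | zero =>
        intro _
        exact hpos
      | succ r ih =>
        intro hr
        have h2 := hcon r (by omega)
        have h3 := ih (by omega)
        omega
    have h2 := h1 d le_rfl
    have h3 := hle d le_rfl
    omega
  obtain ⟨p, ⟨h1, ⟨v, hv, h2⟩, h3⟩, h4⟩ := hmin (r + 1) (by omega)
  have hV : ∀ w ∈ V, 𝒟.G v w := fun w hw => (hSV r v hv w hw).2
  refine ⟨r, hr, v, hv, p, h1, h2, ?_, h3, hV, ?_⟩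
  · have h5 := h3 0 (hU00 _)
    rwa [𝒟.τ_zero, mem_MLoc_iff] at h5
  · intro w hw
    have hG := hV w hw
    have hpr := tr_prime hG h2
    refine ⟨⟨hpr, ?_⟩, ?_⟩
    · rw [Ideal.span_le]
      rintro _ ⟨u, hu, rfl⟩
      show 𝒟.τ w (algebraMap A F (num u)) ∈ MLoc F p
      rw [← hnum, map_mul, ← 𝒟.τ_add]
      refine MLoc_mul p (h3 (w + u) ?_) (reg_q hG h2 _)
      rw [hU]
      exact Set.mem_add.2 ⟨u, hu, w, hw, add_comm u w⟩
    · rintro q ⟨hq, hq1⟩ hq2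
      have hvw' : v + w ∈ S r := (hSV r v hv w hw).1
      have hqm : q ≤ 𝒟.m (v + w) := hq2.trans (tr_le hG h2)
      have hadm : Adm 𝒟 S U f r q := by
        refine ⟨hq, ⟨v + w, hvw', hqm⟩, ?_⟩
        intro u hu
        exact ⟨num u, den u, hq1 (Ideal.subset_span ⟨u, hu, rfl⟩),
          fun h => hden r (v + w) hvw' u hu (hqm h), hnum u⟩
      have hqfin : q.height ≠ ⊤ := Ideal.height_ne_top hq.ne_top
      obtain ⟨n, hn⟩ := ENat.ne_top_iff_exists.1 hqfin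
      have h5 : sInf (H r) ≤ n := Nat.sInf_le ⟨q, hadm, hn.symm⟩
      have h6 : (tr hG p h2).height ≤ q.height := by
        rw [height_tr hG h2, h4, ← hn]
        exact_mod_cast heq.trans h5
      exact (Ideal.eq_of_le_of_height_le q hq2 h6).ge

/-- The counting form: if `M` bounds the number of minimal primes, then the box has at most
`M` classes modulo the stabiliser. -/
theorem zero_count [IsNoetherianRing A] (𝒟 : Dat A F Γ) (d : ℕ) (V : Finset Γ) (hV0 : 0 ∈ V)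
    (S : ℕ → Set Γ) (hSV : ∀ r, ∀ v ∈ S (r + 1), ∀ w ∈ V, v + w ∈ S r ∧ 𝒟.G v w)
    (hne : (S d).Nonempty) (f : A) (hf0 : f ≠ 0) (hf : ∀ v ∈ S 0, f ∈ 𝒟.m v)
    (hht : ∀ v ∈ S d, (𝒟.m v).height ≤ d)
    (U : ℕ → Set Γ) (hU0 : U 0 = {0}) (hU : ∀ r, U (r + 1) = U r + (V : Set Γ))
    (hSU : ∀ r, ∀ v ∈ S r, ∀ u ∈ U r, 𝒟.G v u)
    (num den : Γ → A)
    (hnum : ∀ u, 𝒟.τ u (algebraMap A F f) * algebraMap A F (den u) = algebraMap A F (num u))
    (hden : ∀ r, ∀ v ∈ S r, ∀ u ∈ U r, den u ∉ 𝒟.m v)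
    (M : ℕ) (hM : ∀ r < d, ∀ P : Finset (Ideal A),
      (∀ q ∈ P, q ∈ (Ideal.span (num '' U r)).minimalPrimes) → P.card ≤ M) :
    ∃ r < d, ∃ v ∈ S (r + 1), ∃ p : Ideal A, p.IsPrime ∧ p ≤ 𝒟.m v ∧ f ∈ p ∧
      (∀ u ∈ U (r + 1), 𝒟.τ u (algebraMap A F f) ∈ MLoc F p) ∧
      (Stab 𝒟 p = ⊥ → V.card ≤ M) ∧
      ∃ w ∈ V, ∃ W ⊆ V, (∀ w' ∈ W, w' - w ∈ Stab 𝒟 p) ∧ V.card ≤ M * W.card := by
  classical
  obtain ⟨r, hr, v, hv, p, hp, hpv, hfp, hUp, hV, hmin⟩ :=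
    zero_estimate 𝒟 d (V : Set Γ) (Finset.mem_coe.2 hV0) S
      (fun r v hv w hw => hSV r v hv w (Finset.mem_coe.1 hw)) hne f hf0 hf hht U hU0 hU hSU
      num den hnum hden
  -- the class map
  set g : {w // w ∈ V} → Ideal A := fun w => tr (hV w.1 (Finset.mem_coe.2 w.2)) p hpv with hg
  set P : Finset (Ideal A) := V.attach.image g with hP
  have hPc : P.card ≤ M := by
    refine hM r hr P ?_
    intro q hq
    rw [hP, Finset.mem_image] at hq
    obtain ⟨w, -, rfl⟩ := hq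
    exact hmin w.1 (Finset.mem_coe.2 w.2)
  have hex : ∃ w ∈ V, ∃ W ⊆ V, (∀ w' ∈ W, w' - w ∈ Stab 𝒟 p) ∧ V.card ≤ M * W.card := by
    have hmaps : ∀ w ∈ V.attach, g w ∈ P := fun w hw => Finset.mem_image_of_mem g hw
    have hPne : P.Nonempty := ⟨g ⟨0, hV0⟩, hmaps _ (Finset.mem_attach _ _)⟩
    obtain ⟨q, hq, hqmax⟩ := P.exists_max_image
      (fun q => (V.attach.filter (fun w => g w = q)).card) hPne
    have hsum : V.card ≤ M * (V.attach.filter (fun w => g w = q)).card := by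
      calc V.card = V.attach.card := V.card_attach.symm
        _ = ∑ q' ∈ P, (V.attach.filter (fun w => g w = q')).card :=
            Finset.card_eq_sum_card_fiberwise hmaps
        _ ≤ ∑ q' ∈ P, (V.attach.filter (fun w => g w = q)).card :=
            Finset.sum_le_sum fun q' hq' => hqmax q' hq'
        _ = P.card * (V.attach.filter (fun w => g w = q)).card := by
            rw [Finset.sum_const, smul_eq_mul]
        _ ≤ M * (V.attach.filter (fun w => g w = q)).card := Nat.mul_le_mul_right _ hPc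
    rw [hP, Finset.mem_image] at hq
    obtain ⟨w, -, hw⟩ := hq
    refine ⟨w.1, w.2, (V.attach.filter (fun w => g w = q)).image Subtype.val, ?_, ?_, ?_⟩
    · intro x hx
      rw [Finset.mem_image] at hx
      obtain ⟨y, -, rfl⟩ := hx
      exact y.2
    · intro x hx
      rw [Finset.mem_image] at hx
      obtain ⟨y, hy, rfl⟩ := hx
      rw [Finset.mem_filter] at hy
      refine sub_mem_Stab (hV w.1 (Finset.mem_coe.2 w.2)) (hV y.1 (Finset.mem_coe.2 y.2)) hpv ?_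
      exact hw.trans hy.2.symm
    · rwa [Finset.card_image_of_injective _ Subtype.val_injective]
  refine ⟨r, hr, v, hv, p, hp, hpv, hfp, hUp, ?_, hex⟩
  intro hst
  obtain ⟨w, hw, W, hWV, hW, hc⟩ := hex
  have h1 : W ⊆ {w} := by
    intro x hx
    have := hW x hx
    rw [hst, AddSubgroup.mem_bot, sub_eq_zero] at this
    rw [Finset.mem_singleton]
    exact this
  have h2 : W.card ≤ 1 := by
    have := Finset.card_le_card h1
    rwa [Finset.card_singleton] at this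
  calc V.card ≤ M * W.card := hc
    _ ≤ M * 1 := Nat.mul_le_mul_left M h2
    _ = M := mul_one M

end main

end MP3550b5.ZE
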