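import Mathlib
import Pool.Agent.Lib.MP_3550b5_nt.NNear

/-!
The denominators of sums of three points.
-/

namespace Pool.Agent.Lib.MP_3550b5_nt

open WeierstrassCurve.Affine

/-- The determinant of three points. -/
def det3 (x₁ y₁ x₂ y₂ x₃ y₃ : ℚ) : ℚ := x₁ * (y₂ - y₃) + x₂ * (y₃ - y₁) + x₃ * (y₁ - y₂)

lemma det3_mul {a b x₁ y₁ x₂ y₂ x₃ y₃ : ℚ} (E₁ : y₁ ^ 2 = x₁ ^ 3 + a * x₁ + b)
    (E₂ : y₂ ^ 2 = x₂ ^ 3 + a * x₂ + b) (E₃ : y₃ ^ 2 = x₃ ^ 3 + a * x₃ + b) (h : x₁ ≠ x₂) :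
    det3 x₁ y₁ x₂ y₂ x₃ y₃ * det3 x₁ y₁ x₂ y₂ x₃ (-y₃) =
      (x₃ - x₁) * (x₃ - x₂) * ((((y₁ - y₂) / (x₁ - x₂)) ^ 2 - x₁ - x₂) - x₃) *
        (x₁ - x₂) ^ 2 := by
  have h12 : x₁ - x₂ ≠ 0 := sub_ne_zero.mpr h
  have e : (((y₁ - y₂) / (x₁ - x₂)) ^ 2 - x₁ - x₂ - x₃) * (x₁ - x₂) ^ 2 =
      (y₁ - y₂) ^ 2 - (x₁ + x₂ + x₃) * (x₁ - x₂) ^ 2 := by
    field_simp
    ring
  rw [mul_assoc ((x₃ - x₁) * (x₃ - x₂)), e]
  unfold det3
  linear_combination (x₁ - x₂) * (x₃ - x₂) * E₁ + (x₁ - x₂) * (x₁ - x₃) * E₂ -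
    (x₁ - x₂) ^ 2 * E₃

variable {p : ℕ} [hp : Fact p.Prime] {a b : ℤ}

/-- The two term identity for denominators. -/
def TwoTerm (p : ℕ) [Fact p.Prime] (a b : ℤ) : Prop :=
  ∀ P ∈ goodGroup p a b, ∀ Q ∈ goodGroup p a b, P ≠ 0 → Q ≠ 0 →
    (dn (P + Q) : ℚ) * dn (P - Q) = (dn P : ℚ) ^ 2 * (dn Q : ℚ) ^ 2 * |ptX P - ptX Q|

lemma dn_neg (P : (curve a b).Point) : dn (-P) = dn P := by
  unfold dn
  rw [ptX_neg]
  simp

lemma dn_pos {P : (curve a b).Point} (h : P ≠ 0) : 0 < dn P := by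
  obtain ⟨A, B, D, hrep, hD, hcop⟩ := exists_rep h
  have := dn_of_rep hrep hD hcop
  omega

/-- The second divided difference of the ordinate. -/
def ell (P Q R : (curve a b).Point) : ℚ :=
  det3 (ptX P) (ptY P) (ptX Q) (ptY Q) (ptX R) (ptY R) /
    ((ptX P - ptX Q) * (ptX Q - ptX R) * (ptX R - ptX P))

lemma ell_rot (P Q R : (curve a b).Point) : ell Q R P = ell P Q R := by
  unfold ell det3
  congr 1 <;> ring

lemma ell_swap (P Q R : (curve a b).Point) : ell Q P R = ell P Q R := by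
  unfold ell det3
  rw [← neg_div_neg_eq]
  congr 1 <;> ring

lemma ell_neg (P Q R : (curve a b).Point) : ell (-P) (-Q) (-R) = -ell P Q R := by
  unfold ell det3
  simp only [ptX_neg, ptY_neg]
  rw [← neg_div]
  congr 1
  ring

lemma ell_mul {P Q R : (curve a b).Point} (hP : P ≠ 0) (hQ : Q ≠ 0) (hR : R ≠ 0)
    (hPQ : ptX P ≠ ptX Q) (hQR : ptX Q ≠ ptX R) (hRP : ptX R ≠ ptX P) :
    ell P Q R * ell P Q (-R) * ((ptX P - ptX R) * (ptX Q - ptX R)) =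
      ptX (P + Q) - ptX R := by
  have h1 : ptX P - ptX Q ≠ 0 := sub_ne_zero.mpr hPQ
  have h2 : ptX Q - ptX R ≠ 0 := sub_ne_zero.mpr hQR
  have h3 : ptX R - ptX P ≠ 0 := sub_ne_zero.mpr hRP
  obtain ⟨k1, -⟩ := exists_eq_some P hP
  obtain ⟨k2, -⟩ := exists_eq_some Q hQ
  obtain ⟨k3, -⟩ := exists_eq_some R hR
  have h4 := det3_mul (curve_eq k1) (curve_eq k2) (curve_eq k3) hPQ
  rw [← (ptX_add hP hQ hPQ).2] at h4
  unfold ell
  rw [ptX_neg, ptY_neg, div_mul_div_comm, h4]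
  field_simp
  ring

/-- The quotient of denominators. -/
noncomputable def eQ (P Q R : (curve a b).Point) : ℚ :=
  dn (P + Q + R) * dn P * dn Q * dn R / (dn (P + Q) * dn (Q + R) * dn (R + P))

lemma eQ_neg (P Q R : (curve a b).Point) : eQ (-P) (-Q) (-R) = eQ P Q R := by
  unfold eQ
  have e1 : -P + -Q + -R = -(P + Q + R) := by abel
  have e2 : -P + -Q = -(P + Q) := by abel
  have e3 : -Q + -R = -(Q + R) := by abel
  have e4 : -R + -P = -(R + P) := by abel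
  rw [e1, e2, e3, e4]
  simp only [dn_neg]

lemma eQ_rot (P Q R : (curve a b).Point) : eQ Q R P = eQ P Q R := by
  unfold eQ
  rw [show Q + R + P = P + Q + R by abel]
  congr 1 <;> ring

lemma add_ne_of_X {P Q : (curve a b).Point} (_hQ : Q ≠ 0) (h : ptX P ≠ ptX Q) : P + Q ≠ 0 := by
  intro h0
  apply h
  rw [eq_neg_of_add_eq_zero_left h0, ptX_neg]

lemma eQ_mul (H : TwoTerm p a b) {P Q R : (curve a b).Point} (gP : P ∈ goodGroup p a b)
    (gQ : Q ∈ goodGroup p a b) (gR : R ∈ goodGroup p a b) (hP : P ≠ 0) (hQ : Q ≠ 0) (hR : R ≠ 0)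
    (hPQ : ptX P ≠ ptX Q) (hQR : ptX Q ≠ ptX R) (hRP : ptX R ≠ ptX P) :
    eQ P Q R * eQ P Q (-R) = |ell P Q R| * |ell P Q (-R)| := by
  have h1 := H (P + Q) (add_mem gP gQ) R gR (add_ne_of_X hQ hPQ) hR
  have h2 := H Q gQ R gR hQ hR
  have h3 := H R gR P gP hR hP
  have e1 := congrArg abs (ell_mul hP hQ hR hPQ hQR hRP)
  rw [abs_mul, abs_mul, abs_mul] at e1
  have p1 : (0 : ℚ) < dn P := by exact_mod_cast dn_pos hP
  have p2 : (0 : ℚ) < dn Q := by exact_mod_cast dn_pos hQ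
  have p3 : (0 : ℚ) < dn R := by exact_mod_cast dn_pos hR
  have p4 : (0 : ℚ) < dn (P + Q) := by exact_mod_cast dn_pos (add_ne_of_X hQ hPQ)
  have q1 : (0 : ℚ) < |ptX P - ptX R| := abs_pos.mpr (sub_ne_zero.mpr (Ne.symm hRP))
  have q2 : (0 : ℚ) < |ptX Q - ptX R| := abs_pos.mpr (sub_ne_zero.mpr hQR)
  have d1 : (dn (R - P) : ℚ) = dn (-R + P) := by
    rw [show -R + P = -(R - P) by abel, dn_neg]
  have d2 : Q - R = Q + -R := sub_eq_add_neg _ _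
  rw [abs_sub_comm (ptX R) (ptX P)] at h3
  rw [d1] at h3
  rw [d2] at h2
  rw [sub_eq_add_neg] at h1
  have hden : (dn (P + Q) * dn (Q + R) * dn (R + P) : ℚ) * (dn (P + Q) * dn (Q + -R) *
      dn (-R + P)) = (dn (P + Q) : ℚ) ^ 2 * ((dn Q : ℚ) ^ 2 * (dn R : ℚ) ^ 2 *
        |ptX Q - ptX R|) * ((dn R : ℚ) ^ 2 * (dn P : ℚ) ^ 2 * |ptX P - ptX R|) := by
    rw [← h2, ← h3]; ring
  have hnum : (dn (P + Q + R) * dn P * dn Q * dn R : ℚ) * (dn (P + Q + -R) * dn P * dn Q *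
      dn (-R)) = ((dn (P + Q) : ℚ) ^ 2 * (dn R : ℚ) ^ 2 * |ptX (P + Q) - ptX R|) *
        ((dn P : ℚ) ^ 2 * (dn Q : ℚ) ^ 2 * (dn R : ℚ) ^ 2) := by
    rw [← h1, dn_neg]; ring
  unfold eQ
  rw [div_mul_div_comm, hden, hnum, ← e1]
  field_simp

/-- The three term identity for denominators. -/
theorem three_term (H : TwoTerm p a b) {P Q R : (curve a b).Point} (gP : P ∈ goodGroup p a b)
    (gQ : Q ∈ goodGroup p a b) (gR : R ∈ goodGroup p a b) (hP : P ≠ 0) (hQ : Q ≠ 0) (hR : R ≠ 0)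
    (hPQ : ptX P ≠ ptX Q) (hQR : ptX Q ≠ ptX R) (hRP : ptX R ≠ ptX P)
    (h1 : P + Q - R ≠ 0) (h2 : P - Q - R ≠ 0) :
    (dn (P + Q + R) * dn P * dn Q * dn R : ℚ) =
      |ell P Q R| * (dn (P + Q) * dn (Q + R) * dn (R + P)) := by
  -- three products
  have m1 := eQ_mul H gP gQ gR hP hQ hR hPQ hQR hRP
  have nQ : -Q ≠ 0 := neg_ne_zero.mpr hQ
  have nR : -R ≠ 0 := neg_ne_zero.mpr hR
  have gnQ : -Q ∈ goodGroup p a b := neg_mem gQ
  have gnR : -R ∈ goodGroup p a b := neg_mem gR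
  -- flip `Q` in `(P, Q, -R)`
  have m2 := eQ_mul H gnR gP gQ nR hP hQ (by rw [ptX_neg]; exact hRP) hPQ
    (by rw [ptX_neg]; exact hQR)
  have m3 := eQ_mul H gnQ gnR gP nQ nR hP (by rw [ptX_neg, ptX_neg]; exact hQR)
    (by rw [ptX_neg]; exact hRP) (by rw [ptX_neg]; exact hPQ)
  have r1 : eQ (-R) P Q = eQ P Q (-R) := (eQ_rot (-R) P Q).symm
  have r2 : ell (-R) P Q = ell P Q (-R) := (ell_rot (-R) P Q).symm
  have r3 : eQ (-R) P (-Q) = eQ P (-Q) (-R) := (eQ_rot (-R) P (-Q)).symm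
  have r4 : ell (-R) P (-Q) = ell P (-Q) (-R) := (ell_rot (-R) P (-Q)).symm
  have r5 : eQ (-Q) (-R) P = eQ P (-Q) (-R) := eQ_rot P (-Q) (-R)
  have r6 : ell (-Q) (-R) P = ell P (-Q) (-R) := ell_rot P (-Q) (-R)
  have r7 : eQ (-Q) (-R) (-P) = eQ P Q R := by
    rw [eQ_neg, eQ_rot]
  have r8 : |ell (-Q) (-R) (-P)| = |ell P Q R| := by
    rw [ell_neg, abs_neg, ell_rot]
  rw [r1, r2, r3, r4] at m2
  rw [r5, r6, r7, r8] at m3
  have p1 : (0 : ℚ) < dn P := by exact_mod_cast dn_pos hP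
  have p2 : (0 : ℚ) < dn Q := by exact_mod_cast dn_pos hQ
  have p3 : (0 : ℚ) < dn R := by exact_mod_cast dn_pos hR
  have hPQ0 : P + Q ≠ 0 := add_ne_of_X hQ hPQ
  have hQR0 : Q + R ≠ 0 := add_ne_of_X hR hQR
  have hRP0 : R + P ≠ 0 := add_ne_of_X hP hRP
  have p4 : (0 : ℚ) < dn (P + Q) := by exact_mod_cast dn_pos hPQ0
  have p5 : (0 : ℚ) < dn (Q + R) := by exact_mod_cast dn_pos hQR0
  have p6 : (0 : ℚ) < dn (R + P) := by exact_mod_cast dn_pos hRP0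
  -- positivity of the two auxiliary quotients
  have s1 : (0 : ℚ) < eQ P Q (-R) := by
    unfold eQ
    have t1 : (0 : ℚ) < dn (P + Q + -R) := by
      exact_mod_cast dn_pos (by rwa [← sub_eq_add_neg])
    have t2 : (0 : ℚ) < dn (-R) := by rw [dn_neg]; exact p3
    have t3 : (0 : ℚ) < dn (Q + -R) := by
      exact_mod_cast dn_pos (add_ne_of_X nR (by rw [ptX_neg]; exact hQR))
    have t4 : (0 : ℚ) < dn (-R + P) := by
      exact_mod_cast dn_pos (add_ne_of_X hP (by rw [ptX_neg]; exact hRP))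
    positivity
  have s2 : (0 : ℚ) < eQ P (-Q) (-R) := by
    unfold eQ
    have t1 : (0 : ℚ) < dn (P + -Q + -R) := by
      exact_mod_cast dn_pos (by rwa [← sub_eq_add_neg, ← sub_eq_add_neg])
    have t2 : (0 : ℚ) < dn (-R) := by rw [dn_neg]; exact p3
    have t5 : (0 : ℚ) < dn (-Q) := by rw [dn_neg]; exact p2
    have t3 : (0 : ℚ) < dn (-Q + -R) := by
      exact_mod_cast dn_pos (add_ne_of_X nR (by rw [ptX_neg, ptX_neg]; exact hQR))
    have t4 : (0 : ℚ) < dn (-R + P) := by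
      exact_mod_cast dn_pos (add_ne_of_X hP (by rw [ptX_neg]; exact hRP))
    have t6 : (0 : ℚ) < dn (P + -Q) := by
      exact_mod_cast dn_pos (add_ne_of_X nQ (by rw [ptX_neg]; exact hPQ))
    positivity
  have s3 : (0 : ℚ) ≤ eQ P Q R := by
    unfold eQ
    positivity
  have key : eQ P Q R = |ell P Q R| := by
    have hpos : 0 < |ell P Q (-R)| * |ell P (-Q) (-R)| := by
      rw [← m2]; exact mul_pos s1 s2
    have h3 : eQ P Q R ^ 2 * (|ell P Q (-R)| * |ell P (-Q) (-R)|) =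
        |ell P Q R| ^ 2 * (|ell P Q (-R)| * |ell P (-Q) (-R)|) := by
      calc eQ P Q R ^ 2 * (|ell P Q (-R)| * |ell P (-Q) (-R)|) =
            (eQ P Q R * eQ P Q (-R)) * (eQ P (-Q) (-R) * eQ P Q R) := by
            rw [← m2]; ring
        _ = _ := by rw [m1, m3]; ring
    have h4 := mul_right_cancel₀ hpos.ne' h3
    exact (pow_left_inj₀ s3 (abs_nonneg _) (by norm_num)).mp h4
  rw [← key]
  unfold eQ
  field_simp

end Pool.Agent.Lib.MP_3550b5_nt
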