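import Mathlib
import Pool.Agent.Lib.MP_3550b5_nt.ZE.Three
import Pool.Agent.Lib.MP_3550b5_nt.RCore

/-!
Products of denominators as polynomials: the functions `N_v`.
-/

namespace Pool.Agent.Lib.MP_3550b5_nt

open WeierstrassCurve.Affine Polynomial

variable {p : ℕ} [hp : Fact p.Prime] {a b : ℤ}

/-- The value of `A + B y` at a point. -/
noncomputable def pv (N : ℚ[X] × ℚ[X]) (R : (curve a b).Point) : ℚ :=
  N.1.eval (ptX R) + N.2.eval (ptX R) * ptY R

/-- The polynomial `x ^ 3 + a x + b`. -/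
noncomputable def cub (a b : ℤ) : ℚ[X] := X ^ 3 + C (a : ℚ) * X + C (b : ℚ)

lemma cub_eval (x : ℚ) : (cub a b).eval x = x ^ 3 + a * x + b := by
  simp [cub]

/-- The chord through `V` and `Q`: slope. -/
def slp (V Q : (curve a b).Point) : ℚ := (ptY V - ptY Q) / (ptX V - ptX Q)

/-- The chord through `V` and `Q`, value at `R`. -/
def ln (V Q R : (curve a b).Point) : ℚ := ptY R - ptY V - slp V Q * (ptX R - ptX V)

lemma ln_ell {V Q R : (curve a b).Point} (h1 : ptX V ≠ ptX Q) (h2 : ptX R ≠ ptX V)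
    (h3 : ptX R ≠ ptX Q) :
    |ln V Q R| = |ell R V Q| * |ptX R - ptX V| * |ptX R - ptX Q| := by
  have e1 : ptX V - ptX Q ≠ 0 := sub_ne_zero.mpr h1
  have e2 : ptX R - ptX V ≠ 0 := sub_ne_zero.mpr h2
  have e3 : ptX Q - ptX R ≠ 0 := sub_ne_zero.mpr (Ne.symm h3)
  rw [← abs_mul, ← abs_mul]
  have : ell R V Q * (ptX R - ptX V) * (ptX R - ptX Q) = -ln V Q R ∨
      ell R V Q * (ptX R - ptX V) * (ptX R - ptX Q) = ln V Q R := by
    right
    unfold ln ell slp det3
    field_simp
    ring
  rcases this with h | h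
  · rw [h, abs_neg]
  · rw [h]

/-- Multiplication by the chord and division by `x - x_V`. -/
theorem exists_step {V Q : (curve a b).Point} (hV : V ≠ 0) {N : ℚ[X] × ℚ[X]} {m : ℕ}
    (_hm : 1 ≤ m) (h1 : N.1.natDegree ≤ m) (h2 : N.2.natDegree + 1 ≤ m) (h0 : pv N (-V) = 0) :
    ∃ N' : ℚ[X] × ℚ[X], N'.1.natDegree ≤ m + 1 ∧ N'.2.natDegree + 1 ≤ m + 1 ∧
      ∀ R : (curve a b).Point, R ≠ 0 → (ptX R - ptX V) * pv N' R = pv N R * ln V Q R := by
  obtain ⟨lam, hlam⟩ : ∃ lam, lam = slp V Q := ⟨_, rfl⟩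
  obtain ⟨α, hα⟩ : ∃ α : ℚ[X], α = -C (ptY V) - C lam * (X - C (ptX V)) := ⟨_, rfl⟩
  obtain ⟨kV, -⟩ := exists_eq_some V hV
  have eV := curve_eq kV
  have hN0 : N.1.eval (ptX V) = N.2.eval (ptX V) * ptY V := by
    unfold pv at h0
    rw [ptX_neg, ptY_neg] at h0
    linarith
  have hαV : α.eval (ptX V) = -ptY V := by rw [hα]; simp
  have d1 : (X - C (ptX V)) ∣ N.1 * α + N.2 * cub a b := by
    rw [dvd_iff_isRoot, IsRoot.def, eval_add, eval_mul, eval_mul, hαV, cub_eval, ← eV, hN0]
    ring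
  have d2 : (X - C (ptX V)) ∣ N.1 + N.2 * α := by
    rw [dvd_iff_isRoot, IsRoot.def, eval_add, eval_mul, hαV, hN0]
    ring
  obtain ⟨A, hA⟩ := d1
  obtain ⟨B, hB⟩ := d2
  have hαd : α.natDegree ≤ 1 := by
    rw [hα]
    refine (natDegree_sub_le _ _).trans (max_le ?_ ?_)
    · rw [natDegree_neg, natDegree_C]; omega
    · refine (natDegree_C_mul_le _ _).trans ?_
      rw [natDegree_X_sub_C]
  have hcd : (cub a b).natDegree ≤ 3 := by
    unfold cub
    refine (natDegree_add_le _ _).trans (max_le ((natDegree_add_le _ _).trans (max_le ?_ ?_)) ?_)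
    · rw [natDegree_X_pow]
    · refine (natDegree_C_mul_le _ _).trans ?_
      rw [natDegree_X]; omega
    · rw [natDegree_C]; omega
  have hdiv : ∀ (f g : ℚ[X]) (n : ℕ), f.natDegree ≤ n + 1 → f = (X - C (ptX V)) * g →
      g.natDegree ≤ n := by
    intro f g n hf hfg
    rcases eq_or_ne g 0 with h | h
    · rw [h, natDegree_zero]; omega
    rw [hfg, natDegree_mul (X_sub_C_ne_zero _) h, natDegree_X_sub_C] at hf
    omega
  refine ⟨(A, B), ?_, ?_, ?_⟩
  · refine hdiv _ _ _ ?_ hA
    refine (natDegree_add_le _ _).trans (max_le ?_ ?_)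
    · refine natDegree_mul_le.trans ?_
      omega
    · refine natDegree_mul_le.trans ?_
      omega
  · have h3 : B.natDegree ≤ m := by
      refine hdiv _ _ _ ?_ hB
      refine (natDegree_add_le _ _).trans (max_le ?_ ?_)
      · omega
      · refine natDegree_mul_le.trans ?_
        omega
    show B.natDegree + 1 ≤ m + 1
    omega
  · intro R hR
    obtain ⟨kR, -⟩ := exists_eq_some R hR
    have eR := curve_eq kR
    have hA' := congrArg (eval (ptX R)) hA
    have hB' := congrArg (eval (ptX R)) hB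
    rw [eval_add, eval_mul, eval_mul, eval_mul, cub_eval, ← eR, eval_sub, eval_X, eval_C] at hA'
    rw [eval_add, eval_mul, eval_mul, eval_sub, eval_X, eval_C] at hB'
    have hαR : α.eval (ptX R) = -ptY V - lam * (ptX R - ptX V) := by rw [hα]; simp
    rw [hαR] at hA' hB'
    unfold pv ln
    rw [← hlam]
    linear_combination -hA' - ptY R * hB'

/-- General position with respect to small combinations of the `Q j`. -/
def FarQ {s : ℕ} (Q : Fin s → (curve a b).Point) (M : ℕ) (R : (curve a b).Point) : Prop :=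
  ∀ w : Fin s → ℤ, (∀ j, |w j| ≤ M) → R ≠ lin Q w

/-- The function `N_v` and its values. -/
def IsNv (p : ℕ) [Fact p.Prime] {s : ℕ} (Q : Fin s → (curve a b).Point) (v : Fin s → ℕ)
    (N : ℚ[X] × ℚ[X]) (c : ℚ) : Prop :=
  0 < c ∧ N.1.natDegree ≤ 1 + ∑ j, v j ∧ N.2.natDegree + 1 ≤ 1 + ∑ j, v j ∧
    pv N (-lin Q fun j => (v j : ℤ)) = 0 ∧
    ∀ R ∈ goodGroup p a b, ∀ M : ℕ, (∀ j, v j ≤ M) → FarQ Q (M + 1) R →
      |pv N R| * (dn R : ℚ) ^ (1 + ∑ j, v j) =
        c * dn (R + lin Q fun j => (v j : ℤ)) * ∏ j, (dn (R - Q j) : ℚ) ^ v j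

section steps

variable {s : ℕ} {Q : Fin s → (curve a b).Point}

lemma lin_single (k : Fin s) : lin Q (Pi.single k 1) = Q k := by
  classical
  rw [lin_apply, Finset.sum_eq_single k]
  · simp
  · intro j _ hj
    simp [hj]
  · intro h
    exact absurd (Finset.mem_univ _) h

lemma FarQ.ne_zero {M : ℕ} {R : (curve a b).Point} (h : FarQ Q M R) : R ≠ 0 := by
  have := h 0 (fun j => by simp)
  rwa [map_zero] at this

lemma FarQ.ne {M : ℕ} {R : (curve a b).Point} (h : FarQ Q M R) {w : Fin s → ℤ}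
    (hw : ∀ j, |w j| ≤ M) : R ≠ lin Q w := h w hw

lemma X_ne_of {R V : (curve a b).Point} (hR : R ≠ 0) (hV : V ≠ 0) (h1 : R ≠ V) (h2 : R ≠ -V) :
    ptX R ≠ ptX V := by
  intro h
  obtain ⟨k1, e1⟩ := exists_eq_some R hR
  obtain ⟨k2, e2⟩ := exists_eq_some V hV
  have := (Point.X_eq_iff (h₁ := k1) (h₂ := k2)).mp h
  rw [← e1, ← e2] at this
  rcases this with h | h
  · exact h1 h
  · exact h2 h

/-- The first function. -/
theorem isNv_single (H : TwoTerm p a b) (hQ : ∀ j, Q j ∈ goodGroup p a b)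
    (hind : ∀ n : Fin s → ℤ, lin Q n = 0 → n = 0) (k : Fin s) :
    IsNv p Q (Pi.single k 1) (X - C (ptX (Q k)), 0) (1 / (dn (Q k) : ℚ) ^ 2) := by
  classical
  have hQ0 : Q k ≠ 0 := by
    intro h
    have h1 := hind (Pi.single k 1) (by rw [lin_single, h])
    have := congrFun h1 k
    simp at this
  have hpos : (0 : ℚ) < dn (Q k) := by exact_mod_cast dn_pos hQ0
  have hsum : ∑ j, (Pi.single k 1 : Fin s → ℕ) j = 1 := by
    rw [Finset.sum_pi_single']
    simp
  have hlin : (lin Q fun j => ((Pi.single k 1 : Fin s → ℕ) j : ℤ)) = Q k := by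
    have : (fun j => ((Pi.single k 1 : Fin s → ℕ) j : ℤ)) = Pi.single k 1 := by
      funext j
      rcases eq_or_ne j k with h | h
      · rw [h]; simp
      · simp [h]
    rw [this, lin_single]
  refine ⟨by positivity, ?_, ?_, ?_, ?_⟩
  · rw [hsum]
    show (X - C (ptX (Q k))).natDegree ≤ 1 + 1
    rw [natDegree_X_sub_C]
    omega
  · rw [hsum]
    show (0 : ℚ[X]).natDegree + 1 ≤ 1 + 1
    rw [natDegree_zero]
    omega
  · rw [hlin]
    unfold pv
    rw [ptX_neg]
    simp
  · intro R gR M hM hfar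
    rw [hlin, hsum]
    have hprod : ∏ j, (dn (R - Q j) : ℚ) ^ (Pi.single k 1 : Fin s → ℕ) j = dn (R - Q k) := by
      rw [Finset.prod_eq_single k]
      · simp
      · intro j _ hj
        simp [hj]
      · intro h
        exact absurd (Finset.mem_univ _) h
    rw [hprod]
    have h1 := H R gR (Q k) (hQ k) hfar.ne_zero hQ0
    unfold pv
    simp only [eval_sub, eval_X, eval_C, eval_zero, zero_mul, add_zero]
    have h2 : (1 / (dn (Q k) : ℚ) ^ 2 * dn (R + Q k)) * dn (R - Q k) =
        1 / (dn (Q k) : ℚ) ^ 2 * (dn (R + Q k) * dn (R - Q k)) := by ring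
    rw [h2, h1]
    field_simp

/-- The induction step. -/
theorem isNv_step (H : TwoTerm p a b) (hQ : ∀ j, Q j ∈ goodGroup p a b)
    (hind : ∀ n : Fin s → ℤ, lin Q n = 0 → n = 0) {v : Fin s → ℕ} (k : Fin s)
    (hv0 : ∃ j, v j ≠ 0) (hvk : v ≠ Pi.single k 1) {N : ℚ[X] × ℚ[X]} {c : ℚ}
    (hN : IsNv p Q v N c) :
    ∃ (N' : ℚ[X] × ℚ[X]) (c' : ℚ), IsNv p Q (v + Pi.single k 1) N' c' := by
  classical
  obtain ⟨hc, hd1, hd2, h0, hval⟩ := hN
  obtain ⟨V, hV⟩ : ∃ V, V = lin Q fun j => (v j : ℤ) := ⟨_, rfl⟩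
  rw [← hV] at h0 hval
  have gV : V ∈ goodGroup p a b := by
    rw [hV, lin_apply]
    exact sum_mem fun i _ => zsmul_mem (hQ i) _
  have hlin : (lin Q fun j => (((v + Pi.single k 1 : Fin s → ℕ) j : ℕ) : ℤ)) = V + Q k := by
    have : (fun j => (((v + Pi.single k 1 : Fin s → ℕ) j : ℕ) : ℤ)) =
        (fun j => (v j : ℤ)) + Pi.single k 1 := by
      funext j
      rcases eq_or_ne j k with h | h
      · rw [h]; simp
      · simp [h]
    rw [this, map_add, lin_single, hV]
  have hV0 : V ≠ 0 := by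
    intro h
    obtain ⟨j, hj⟩ := hv0
    apply hj
    have := congrFun (hind _ (hV ▸ h)) j
    simpa using this
  have hQ0 : Q k ≠ 0 := by
    intro h
    have h1 := hind (Pi.single k 1) (by rw [lin_single, h])
    have := congrFun h1 k
    simp at this
  have hVQ : V ≠ Q k := by
    intro h
    apply hvk
    have h1 : lin Q ((fun j => (v j : ℤ)) - Pi.single k 1) = 0 := by
      rw [map_sub, lin_single, ← hV, h, sub_self]
    have h2 := hind _ h1
    funext j
    have h3 := congrFun h2 j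
    rcases eq_or_ne j k with h | h
    · subst h
      simp only [Pi.sub_apply, Pi.single_eq_same, Pi.zero_apply] at h3 ⊢
      omega
    · simp only [Pi.sub_apply, Pi.single_eq_of_ne h, Pi.zero_apply, sub_zero] at h3 ⊢
      omega
  have hVQ' : V + Q k ≠ 0 := by
    intro h
    have h1 : lin Q ((fun j => (v j : ℤ)) + Pi.single k 1) = 0 := by
      rw [map_add, lin_single, ← hV, h]
    have h3 := congrFun (hind _ h1) k
    simp only [Pi.add_apply, Pi.single_eq_same, Pi.zero_apply] at h3
    omega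
  have hX : ptX V ≠ ptX (Q k) := X_ne_of hV0 hQ0 hVQ fun h => hVQ' (by rw [h, neg_add_cancel])
  have hXV' : ptX (V + Q k) ≠ ptX V := by
    apply X_ne_of hVQ' hV0
    · intro h
      exact hQ0 (by simpa using h)
    · intro h
      have h1 : lin Q ((fun j => (v j : ℤ)) + (fun j => (v j : ℤ)) + Pi.single k 1) = 0 := by
        rw [map_add, map_add, lin_single, ← hV]
        have : V + V + Q k = (V + Q k) + V := by abel
        rw [this, h, neg_add_cancel]
      have h3 := congrFun (hind _ h1) k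
      simp only [Pi.add_apply, Pi.single_eq_same, Pi.zero_apply] at h3
      omega
  obtain ⟨N', e1, e2, e3⟩ := exists_step (Q := Q k) hV0 (m := 1 + ∑ j, v j) (by omega) hd1 hd2 h0
  have hsum : ∑ j, (v + Pi.single k 1 : Fin s → ℕ) j = (∑ j, v j) + 1 := by
    simp only [Pi.add_apply]
    rw [Finset.sum_add_distrib, Finset.sum_pi_single']
    simp
  have pV : (0 : ℚ) < dn V := by exact_mod_cast dn_pos hV0
  have pQ : (0 : ℚ) < dn (Q k) := by exact_mod_cast dn_pos hQ0
  have pVQ : (0 : ℚ) < dn (V + Q k) := by exact_mod_cast dn_pos hVQ'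
  refine ⟨N', c * (dn V / (dn (V + Q k) * dn (Q k))), by positivity, ?_, ?_, ?_, ?_⟩
  · rw [hsum]
    exact e1
  · rw [hsum]
    exact e2
  · rw [hlin]
    have h1 := e3 (-(V + Q k)) (neg_ne_zero.mpr hVQ')
    have h2 : ln V (Q k) (-(V + Q k)) = 0 := by
      obtain ⟨kV, eV⟩ := exists_eq_some V hV0
      obtain ⟨kQ, eQ'⟩ := exists_eq_some (Q k) hQ0
      have hsum' : V + Q k = Point.some _ _ kV + Point.some _ _ kQ := by rw [← eV, ← eQ']
      unfold ln
      rw [ptX_neg, ptY_neg]
      have hX' : ptX V - ptX (Q k) ≠ 0 := sub_ne_zero.mpr hX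
      have hy : ptY (V + Q k) = -(slp V (Q k) * (ptX (V + Q k) - ptX V) + ptY V) := by
        rw [hsum', Point.add_of_X_ne hX, ptY_some, ptX_some,
          WeierstrassCurve.Affine.slope_of_X_ne hX]
        simp [WeierstrassCurve.Affine.addY, WeierstrassCurve.Affine.negAddY,
          WeierstrassCurve.Affine.negY, curve, slp]
      rw [hy]
      ring
    rw [h2, mul_zero, ptX_neg] at h1
    exact (mul_eq_zero.mp h1).resolve_left (sub_ne_zero.mpr hXV')
  · intro R gR M hM hfar
    have hMk := hM k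
    have hMj : ∀ j, v j ≤ M := fun j => by
      have := hM j
      simp only [Pi.add_apply] at this
      omega
    have hR0 := hfar.ne_zero
    have hwne : ∀ w : Fin s → ℤ, (∀ j, |w j| ≤ (v j : ℤ) + (Pi.single k 1 : Fin s → ℤ) j) →
        R ≠ lin Q w := by
      intro w hw
      apply hfar.ne
      intro j
      refine (hw j).trans ?_
      have := hM j
      simp only [Pi.add_apply] at this
      rcases eq_or_ne j k with h | h
      · subst h
        simp only [Pi.single_eq_same] at this ⊢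
        push_cast
        omega
      · simp only [Pi.single_eq_of_ne h] at this ⊢
        push_cast
        omega
    have hsingle : ∀ j, (0 : ℤ) ≤ (Pi.single k 1 : Fin s → ℤ) j := by
      intro j
      rcases eq_or_ne j k with h | h
      · rw [h]; simp
      · simp [h]
    have n1 : R ≠ V := by
      rw [hV]
      apply hwne
      intro j
      have := hsingle j
      rw [abs_of_nonneg (by positivity)]
      omega
    have n2 : R ≠ -V := by
      rw [hV, ← map_neg]
      apply hwne
      intro j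
      have := hsingle j
      rw [Pi.neg_apply, abs_neg, abs_of_nonneg (by positivity)]
      omega
    have n3 : R ≠ Q k := by
      rw [← lin_single (Q := Q) k]
      apply hwne
      intro j
      rw [abs_of_nonneg (hsingle j)]
      have : (0 : ℤ) ≤ v j := by positivity
      omega
    have n4 : R ≠ -Q k := by
      rw [← lin_single (Q := Q) k, ← map_neg]
      apply hwne
      intro j
      rw [Pi.neg_apply, abs_neg, abs_of_nonneg (hsingle j)]
      have : (0 : ℤ) ≤ v j := by positivity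
      omega
    have n5 : R + V - Q k ≠ 0 := by
      intro h
      have h1 : R = lin Q (Pi.single k 1 - fun j => (v j : ℤ)) := by
        rw [map_sub, lin_single, ← hV, ← sub_eq_zero, ← h]
        abel
      refine hwne _ (fun j => ?_) h1
      have := hsingle j
      have h2 : (0 : ℤ) ≤ v j := by positivity
      rw [Pi.sub_apply, abs_le]
      constructor <;> omega
    have n6 : R - V - Q k ≠ 0 := by
      intro h
      have h1 : R = lin Q ((fun j => (v j : ℤ)) + Pi.single k 1) := by
        rw [map_add, lin_single, ← hV, ← sub_eq_zero, ← h]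
        abel
      refine hwne _ (fun j => ?_) h1
      have := hsingle j
      have h2 : (0 : ℤ) ≤ v j := by positivity
      rw [Pi.add_apply, abs_of_nonneg (by omega)]
    have x1 : ptX R ≠ ptX V := X_ne_of hR0 hV0 n1 n2
    have x2 : ptX R ≠ ptX (Q k) := X_ne_of hR0 hQ0 n3 n4
    have h3 := three_term H gR gV (hQ k) hR0 hV0 hQ0 x1 hX (Ne.symm x2) n5 n6
    have h4 := H R gR (Q k) (hQ k) hR0 hQ0
    have h5 := hval R gR M hMj hfar
    have h6 := congrArg abs (e3 R hR0)
    rw [abs_mul, abs_mul, ln_ell hX x1 x2] at h6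
    have p1 : (0 : ℚ) < |ptX R - ptX V| := abs_pos.mpr (sub_ne_zero.mpr x1)
    have h7 : |pv N' R| = |pv N R| * |ell R V (Q k)| * |ptX R - ptX (Q k)| := by
      apply mul_left_cancel₀ p1.ne'
      rw [h6]
      ring
    have pR : (0 : ℚ) < dn R := by exact_mod_cast dn_pos hR0
    have pRV : (0 : ℚ) < dn (R + V) := by
      exact_mod_cast dn_pos (add_ne_of_X hV0 x1)
    have pRQ : (0 : ℚ) < dn (R + Q k) := by
      exact_mod_cast dn_pos (add_ne_of_X hQ0 x2)
    have hprod : ∏ j, (dn (R - Q j) : ℚ) ^ (v + Pi.single k 1 : Fin s → ℕ) j =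
        (∏ j, (dn (R - Q j) : ℚ) ^ v j) * dn (R - Q k) := by
      have h8 : ∀ j, (dn (R - Q j) : ℚ) ^ (v + Pi.single k 1 : Fin s → ℕ) j =
          (dn (R - Q j) : ℚ) ^ v j * (dn (R - Q j) : ℚ) ^ (Pi.single k 1 : Fin s → ℕ) j := by
        intro j
        rw [Pi.add_apply, pow_add]
      rw [Finset.prod_congr rfl fun j _ => h8 j, Finset.prod_mul_distrib]
      congr 1
      rw [Finset.prod_eq_single k]
      · simp
      · intro j _ hj
        simp [hj]
      · intro h
        exact absurd (Finset.mem_univ _) h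
    rw [hlin, hsum, hprod, h7]
    obtain ⟨Z, hZ⟩ : ∃ Z, Z = ∏ j, (dn (R - Q j) : ℚ) ^ v j := ⟨_, rfl⟩
    rw [← hZ] at h5 ⊢
    obtain ⟨m, hm⟩ : ∃ m, m = 1 + ∑ j, v j := ⟨_, rfl⟩
    rw [← hm] at h5
    rw [show 1 + (∑ j, v j + 1) = m + 1 by omega]
    rw [add_comm (Q k) R] at h3
    rw [show R + (V + Q k) = R + V + Q k by abel]
    have hD : (0 : ℚ) < dn (R + V) * dn (V + Q k) * dn (R + Q k) * (dn R * dn (Q k) ^ 2) := by
      positivity
    apply mul_right_cancel₀ hD.ne'
    calc |pv N R| * |ell R V (Q k)| * |ptX R - ptX (Q k)| * (dn R : ℚ) ^ (m + 1) *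
          (dn (R + V) * dn (V + Q k) * dn (R + Q k) * (dn R * dn (Q k) ^ 2))
        = (|pv N R| * (dn R : ℚ) ^ m) * (|ell R V (Q k)| *
            (dn (R + V) * dn (V + Q k) * dn (R + Q k))) *
            ((dn R : ℚ) ^ 2 * (dn (Q k) : ℚ) ^ 2 * |ptX R - ptX (Q k)|) := by ring
      _ = (c * dn (R + V) * Z) * (dn (R + V + Q k) * dn R * dn V * dn (Q k)) *
            (dn (R + Q k) * dn (R - Q k)) := by rw [h5, ← h3, ← h4]
      _ = _ := by
        field_simp

/-- The functions `N_v`. -/
theorem exists_isNv (H : TwoTerm p a b) (hQ : ∀ j, Q j ∈ goodGroup p a b)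
    (hind : ∀ n : Fin s → ℤ, lin Q n = 0 → n = 0) {i₀ i₁ : Fin s} (hi : i₀ ≠ i₁)
    (v : Fin s → ℕ) (h₀ : 1 ≤ v i₀) (h₁ : 1 ≤ v i₁) :
    ∃ (N : ℚ[X] × ℚ[X]) (c : ℚ), IsNv p Q v N c := by
  classical
  obtain ⟨n, hn⟩ : ∃ n, n = ∑ j, v j := ⟨_, rfl⟩
  induction n using Nat.strong_induction_on generalizing v with
  | _ n ih =>
    by_cases hex : ∃ k, 1 ≤ v k ∧ 1 ≤ (v - Pi.single k 1 : Fin s → ℕ) i₀ ∧
        1 ≤ (v - Pi.single k 1 : Fin s → ℕ) i₁
    · obtain ⟨k, hk, hk0, hk1⟩ := hex
      obtain ⟨w, hw⟩ : ∃ w, w = (v - Pi.single k 1 : Fin s → ℕ) := ⟨_, rfl⟩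
      rw [← hw] at hk0 hk1
      have hvw : v = w + Pi.single k 1 := by
        funext j
        rw [hw]
        rcases eq_or_ne j k with h | h
        · subst h
          simp only [Pi.add_apply, Pi.sub_apply, Pi.single_eq_same]
          omega
        · simp [h]
      have hsum : ∑ j, v j = (∑ j, w j) + 1 := by
        rw [hvw]
        simp only [Pi.add_apply]
        rw [Finset.sum_add_distrib, Finset.sum_pi_single']
        simp
      obtain ⟨N, c, hN⟩ := ih (∑ j, w j) (by omega) w hk0 hk1 rfl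
      rw [hvw]
      refine isNv_step H hQ hind k ⟨i₀, by omega⟩ ?_ hN
      intro h
      rcases eq_or_ne i₀ k with h2 | h2
      · have h3 : i₁ ≠ k := fun h4 => hi (h2.trans h4.symm)
        rw [h, Pi.single_eq_of_ne h3] at hk1
        omega
      · rw [h, Pi.single_eq_of_ne h2] at hk0
        omega
    · -- `v = e_{i₀} + e_{i₁}`
      have hv : v = Pi.single i₀ 1 + Pi.single i₁ 1 := by
        push Not at hex
        funext j
        by_cases hj0 : j = i₀
        · subst hj0
          by_contra hne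
          have h2 : (Pi.single j 1 + Pi.single i₁ 1 : Fin s → ℕ) j = 1 := by
            rw [Pi.add_apply, Pi.single_eq_same, Pi.single_eq_of_ne hi, add_zero]
          rw [h2] at hne
          have h3 := hex j h₀ (by
            rw [Pi.sub_apply, Pi.single_eq_same]; omega)
          rw [Pi.sub_apply, Pi.single_eq_of_ne (Ne.symm hi)] at h3
          omega
        · by_cases hj1 : j = i₁
          · subst hj1
            by_contra hne
            have h2 : (Pi.single i₀ 1 + Pi.single j 1 : Fin s → ℕ) j = 1 := by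
              rw [Pi.add_apply, Pi.single_eq_same, Pi.single_eq_of_ne hj0]
            rw [h2] at hne
            have h3 := hex j h₁ (by
              rw [Pi.sub_apply, Pi.single_eq_of_ne (Ne.symm hj0)]; omega)
            rw [Pi.sub_apply, Pi.single_eq_same] at h3
            omega
          · by_contra hne
            have h2 : (Pi.single i₀ 1 + Pi.single i₁ 1 : Fin s → ℕ) j = 0 := by
              rw [Pi.add_apply, Pi.single_eq_of_ne hj0, Pi.single_eq_of_ne hj1, add_zero]
            rw [h2] at hne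
            have h3 := hex j (by omega) (by
              rw [Pi.sub_apply, Pi.single_eq_of_ne (Ne.symm hj0)]; omega)
            rw [Pi.sub_apply, Pi.single_eq_of_ne (Ne.symm hj1)] at h3
            omega
      rw [hv]
      refine isNv_step H hQ hind i₁ ⟨i₀, by simp⟩ ?_ (isNv_single H hQ hind i₀)
      intro h
      have h2 := congrFun h i₀
      rw [Pi.single_eq_same, Pi.single_eq_of_ne hi] at h2
      omega

end steps

end Pool.Agent.Lib.MP_3550b5_nt
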