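import Mathlib

/-!
Embeddings of domains into algebraically closed fields, given a transcendence basis.
-/

open MvPolynomial

namespace ZE

variable {k : Type*} [Field k] {D : Type*} [CommRing D] [IsDomain D] [Algebra k D]
  {ι : Type*} {x : ι → D}

omit [IsDomain D] in
theorem exists_rel (hx : IsTranscendenceBasis k x) (a : D) :
    ∃ g : Polynomial (MvPolynomial ι k), g ≠ 0 ∧
      g.eval₂ ((aeval x : MvPolynomial ι k →ₐ[k] D) : MvPolynomial ι k →+* D) a = 0 := by
  have halg := hx.isAlgebraic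
  obtain ⟨g, hg0, hg⟩ := halg.isAlgebraic a
  obtain ⟨e, he⟩ : ∃ e, e = hx.1.aevalEquiv := ⟨_, rfl⟩
  refine ⟨g.map ((e.symm : Algebra.adjoin k (Set.range x) ≃+* MvPolynomial ι k) :
    Algebra.adjoin k (Set.range x) →+* MvPolynomial ι k), ?_, ?_⟩
  · rwa [Ne, Polynomial.map_eq_zero_iff]
    exact e.symm.injective
  · rw [Polynomial.eval₂_map]
    have h1 : ((aeval x : MvPolynomial ι k →ₐ[k] D) : MvPolynomial ι k →+* D).comp
        ((e.symm : Algebra.adjoin k (Set.range x) ≃+* MvPolynomial ι k) :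
          Algebra.adjoin k (Set.range x) →+* MvPolynomial ι k) =
        algebraMap (Algebra.adjoin k (Set.range x)) D := by
      ext y
      obtain ⟨f, rfl⟩ := e.surjective y
      have h2 : algebraMap (Algebra.adjoin k (Set.range x)) D (e f) = aeval x f := by
        rw [he]
        exact AlgebraicIndependent.algebraMap_aevalEquiv hx.1 f
      rw [h2]
      simp
    rw [h1]
    exact hg

theorem exists_emb (hx : IsTranscendenceBasis k x) {K : Type*} [Field K] [IsAlgClosed K]
    (θ : MvPolynomial ι k →+* K) (hθ : Function.Injective θ) :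
    ∃ ψ : D →+* K, Function.Injective ψ ∧ ∀ f, ψ (aeval x f) = θ f := by
  have hinj : Function.Injective ((aeval x : MvPolynomial ι k →ₐ[k] D) :
    MvPolynomial ι k →+* D) := hx.1
  let _ : Algebra (MvPolynomial ι k) D :=
    ((aeval x : MvPolynomial ι k →ₐ[k] D) : MvPolynomial ι k →+* D).toAlgebra
  let _ : Algebra (MvPolynomial ι k) K := θ.toAlgebra
  have i1 : Algebra.IsAlgebraic (MvPolynomial ι k) D := ⟨fun a => by
    obtain ⟨g, h0, h⟩ := exists_rel hx a
    exact ⟨g, h0, h⟩⟩
  have i2 : FaithfulSMul (MvPolynomial ι k) D :=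
    (faithfulSMul_iff_algebraMap_injective _ _).mpr hinj
  have i3 : FaithfulSMul (MvPolynomial ι k) K :=
    (faithfulSMul_iff_algebraMap_injective _ _).mpr hθ
  let ψ : D →ₐ[MvPolynomial ι k] K := IsAlgClosed.lift
  refine ⟨ψ, ?_, fun f => ψ.commutes f⟩
  rw [injective_iff_map_eq_zero]
  intro a ha
  by_contra h0
  have h1 := Ideal.comap_ne_bot_of_algebraic_mem (I := RingHom.ker (ψ : D →+* K)) h0 ha
    (Algebra.IsAlgebraic.isAlgebraic (R := MvPolynomial ι k) a)
  apply h1
  rw [eq_bot_iff]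
  intro f hf
  rw [Ideal.mem_comap, RingHom.mem_ker] at hf
  have h2 : θ f = 0 := by
    rw [← hf]
    exact (ψ.commutes f).symm
  rw [Submodule.mem_bot]
  exact (map_eq_zero_iff θ hθ).mp h2

end ZE
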