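import Mathlib
import Pool.Agent.Lib.MP_60829e_nt.BezIsol

/-!
Bezout's inequality for isolated zeros, with the degrees in the single variables.
-/

open MvPolynomial

namespace ZE

variable {k : Type*} [Field k]

/-- A prime ideal containing a nonzero polynomial in one variable contains a linear one. -/
theorem exists_linear_mem [IsAlgClosed k] {σ : Type*} {q : Ideal (MvPolynomial σ k)}
    (hq : q.IsPrime) {g : Polynomial k} (hg : g ≠ 0) {i : σ}
    (h : Polynomial.aeval (X i : MvPolynomial σ k) g ∈ q) :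
    ∃ α ∈ g.roots, (X i - C α : MvPolynomial σ k) ∈ q := by
  have hs := IsAlgClosed.splits g
  have h1 : g = Polynomial.C g.leadingCoeff * (g.roots.map fun a => Polynomial.X - Polynomial.C a).prod :=
    hs.eq_prod_roots
  rw [h1, map_mul, Polynomial.aeval_C, map_multiset_prod, Multiset.map_map] at h
  rcases hq.mem_or_mem h with h2 | h2
  · exfalso
    have h3 : IsUnit (algebraMap k (MvPolynomial σ k) g.leadingCoeff) :=
      (IsUnit.mk0 _ (Polynomial.leadingCoeff_ne_zero.mpr hg)).map _
    exact hq.ne_top (Ideal.eq_top_of_isUnit_mem _ h2 h3)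
  · rw [hq.multiset_prod_mem_iff_exists_mem] at h2
    obtain ⟨p, hp, hpq⟩ := h2
    obtain ⟨α, hα, rfl⟩ := Multiset.mem_map.mp hp
    refine ⟨α, hα, ?_⟩
    simpa [algebraMap_eq] using hpq

/-- A proper ideal containing all `X i - w i` is the ideal of the point `w`. -/
theorem mid_le_of_linear {σ : Type*} {q : Ideal (MvPolynomial σ k)} {w : σ → k}
    (h : ∀ i, (X i - C (w i) : MvPolynomial σ k) ∈ q) : Bez.mid w ≤ q := by
  intro p hp
  have h1 : (Ideal.Quotient.mk q : MvPolynomial σ k →+* _) =
      ((Ideal.Quotient.mk q).comp C).comp (eval w) := by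
    apply MvPolynomial.ringHom_ext
    · intro r
      simp
    · intro i
      simp only [RingHom.comp_apply, eval_X]
      exact (Ideal.Quotient.mk_eq_mk_iff_sub_mem _ _).mpr (h i)
  have h2 := congrArg (fun φ : MvPolynomial σ k →+* (MvPolynomial σ k ⧸ q) => φ p) h1
  simp only [RingHom.comp_apply] at h2
  rw [Bez.mem_mid.mp hp, map_zero, map_zero] at h2
  exact Ideal.Quotient.eq_zero_iff_mem.mp h2

/-- The substitution `X i ↦ X i ^ e i + c i`. -/
noncomputable def kum {σ : Type*} (e : σ → ℕ) (c : σ → k) : MvPolynomial σ k →ₐ[k] MvPolynomial σ k :=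
  aeval fun i => X i ^ e i + C (c i)

theorem eval_kum {σ : Type*} (e : σ → ℕ) (c w : σ → k) (f : MvPolynomial σ k) :
    eval w (kum e c f) = eval (fun i => w i ^ e i + c i) f := by
  have h : (aeval w : MvPolynomial σ k →ₐ[k] k).comp (kum e c) =
      aeval fun i => w i ^ e i + c i := by
    ext i
    simp [kum]
  have := congrArg (fun φ : MvPolynomial σ k →ₐ[k] k => φ f) h
  simpa [aeval_eq_eval] using this

theorem totalDegree_kum {σ : Type*} [Fintype σ] (e : σ → ℕ) (c : σ → k) {d : σ → ℕ}
    {f : MvPolynomial σ k} (hf : ∀ i, f.degreeOf i ≤ d i) :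
    (kum e c f).totalDegree ≤ ∑ i, d i * e i := by
  classical
  have h1 : kum e c f = ∑ a ∈ f.support, C (coeff a f) * ∏ i, (X i ^ e i + C (c i)) ^ a i := by
    conv_lhs => rw [f.as_sum]
    rw [map_sum]
    refine Finset.sum_congr rfl fun a _ => ?_
    rw [kum, aeval_monomial, algebraMap_eq, Finsupp.prod_fintype]
    intro i
    simp
  rw [h1]
  refine (totalDegree_finsetSum _ _).trans (Finset.sup_le fun a ha => ?_)
  refine (totalDegree_mul _ _).trans ?_
  rw [totalDegree_C, zero_add]
  refine (totalDegree_finsetProd _ _).trans (Finset.sum_le_sum fun i _ => ?_)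
  refine (totalDegree_pow _ _).trans ?_
  have h2 : (X i ^ e i + C (c i) : MvPolynomial σ k).totalDegree ≤ e i := by
    refine (totalDegree_add _ _).trans (max_le ?_ ?_)
    · refine (totalDegree_pow _ _).trans ?_
      rw [totalDegree_X, mul_one]
    · rw [totalDegree_C]
      exact Nat.zero_le _
  exact Nat.mul_le_mul ((monomial_le_degreeOf i ha).trans (hf i)) h2

/-- The roots of a nonzero number. -/
theorem exists_roots [IsAlgClosed k] [CharZero k] {e : ℕ} (he : 1 ≤ e) {a : k} (ha : a ≠ 0) :
    ∃ R : Finset k, R.card = e ∧ ∀ w ∈ R, w ^ e = a := by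
  classical
  have he0 : (e : k) ≠ 0 := by
    have : e ≠ 0 := by omega
    exact_mod_cast this
  have hsep : (Polynomial.X ^ e - Polynomial.C a).Separable :=
    Polynomial.separable_X_pow_sub_C a he0 ha
  refine ⟨(Polynomial.X ^ e - Polynomial.C a).roots.toFinset, ?_, ?_⟩
  · rw [Multiset.toFinset_card_of_nodup (Polynomial.nodup_roots hsep),
      ← (IsAlgClosed.splits (Polynomial.X ^ e - Polynomial.C a)).natDegree_eq_card_roots,
      Polynomial.natDegree_X_pow_sub_C]
  · intro w hw
    rw [Multiset.mem_toFinset, Polynomial.mem_roots'] at hw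
    have := hw.2
    simp only [Polynomial.IsRoot.def, Polynomial.eval_sub, Polynomial.eval_pow, Polynomial.eval_X,
      Polynomial.eval_C] at this
    exact sub_eq_zero.mp this

/-- Bezout's inequality for isolated zeros: the degrees in the single variables. -/
theorem isolated_multi [IsAlgClosed k] [CharZero k] {σ : Type*} [Fintype σ]
    (F : Set (MvPolynomial σ k)) (d : σ → ℕ) (hd : ∀ i, 1 ≤ d i)
    (hF : ∀ f ∈ F, ∀ i, f.degreeOf i ≤ d i) (S : Finset (σ → k))
    (hS : ∀ P ∈ S, ∀ f ∈ F, eval P f = 0)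
    (hiso : ∀ P ∈ S, ∀ q : Ideal (MvPolynomial σ k), q.IsPrime → F ⊆ q → q ≤ Bez.mid P →
      q = Bez.mid P) :
    S.card ≤ Fintype.card σ ^ Fintype.card σ * ∏ i, d i := by
  classical
  have hinf : Infinite k := IsAlgClosed.instInfinite
  -- a centre
  have hc : ∀ i, ∃ c : k, ∀ P ∈ S, P i - c ≠ 0 := by
    intro i
    obtain ⟨c, hc⟩ := Infinite.exists_notMem_finset (S.image fun P => P i)
    refine ⟨c, fun P hP h => hc ?_⟩
    rw [Finset.mem_image]
    exact ⟨P, hP, sub_eq_zero.mp h⟩
  choose c hc using hc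
  obtain ⟨N, hN⟩ : ∃ N : ℕ, N = ∏ i, d i := ⟨_, rfl⟩
  have hNpos : 0 < N := by rw [hN]; exact Finset.prod_pos fun i _ => hd i
  obtain ⟨e, he⟩ : ∃ e : σ → ℕ, e = fun i => N / d i := ⟨_, rfl⟩
  have hde : ∀ i, d i * e i = N := by
    intro i
    rw [he]
    exact Nat.mul_div_cancel' (by rw [hN]; exact Finset.dvd_prod_of_mem _ (Finset.mem_univ i))
  have he1 : ∀ i, 1 ≤ e i := by
    intro i
    by_contra h
    have h0 : e i = 0 := by omega
    have := hde i
    rw [h0, mul_zero] at this
    omega
  have hR : ∀ (P : σ → k) (i : σ), ∃ R : Finset k, P ∈ S → R.card = e i ∧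
      ∀ w ∈ R, w ^ e i = P i - c i := by
    intro P i
    by_cases hP : P ∈ S
    · obtain ⟨R, h1, h2⟩ := exists_roots (he1 i) (hc i P hP)
      exact ⟨R, fun _ => ⟨h1, h2⟩⟩
    · exact ⟨∅, fun h => absurd h hP⟩
  choose R hR using hR
  obtain ⟨S', hS'⟩ : ∃ S' : Finset (σ → k), S' = S.biUnion fun P => Fintype.piFinset (R P) :=
    ⟨_, rfl⟩
  have hmem : ∀ w ∈ S', (fun i => w i ^ e i + c i) ∈ S := by
    intro w hw
    rw [hS', Finset.mem_biUnion] at hw
    obtain ⟨P, hP, hw⟩ := hw
    rw [Fintype.mem_piFinset] at hw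
    have : (fun i => w i ^ e i + c i) = P := by
      funext i
      rw [(hR P i hP).2 _ (hw i)]
      ring
    rw [this]
    exact hP
  have hcard : S'.card = S.card * ∏ i, e i := by
    rw [hS', Finset.card_biUnion]
    · rw [Finset.sum_congr rfl fun P hP => by
        rw [Fintype.card_piFinset, Finset.prod_congr rfl fun i _ => (hR P i hP).1]]
      rw [Finset.sum_const, smul_eq_mul]
    · intro P hP Q hQ hPQ
      show Disjoint (Fintype.piFinset (R P)) (Fintype.piFinset (R Q))
      rw [Finset.disjoint_left]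
      intro w hw hw'
      rw [Fintype.mem_piFinset] at hw hw'
      apply hPQ
      funext i
      have h1 := (hR P i hP).2 _ (hw i)
      have h2 := (hR Q i hQ).2 _ (hw' i)
      rw [h1] at h2
      exact sub_left_injective h2
  have key : S'.card ≤ (Fintype.card σ * N) ^ Nat.card σ := by
    refine Bez.isolated_bound ((kum e c) '' F) (Fintype.card σ * N) ?_ S' ?_ ?_
    · rintro _ ⟨f, hf, rfl⟩
      refine (totalDegree_kum e c (hF f hf)).trans ?_
      rw [Finset.sum_congr rfl fun i _ => hde i]
      simp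
    · rintro w hw _ ⟨f, hf, rfl⟩
      rw [eval_kum]
      exact hS _ (hmem w hw) f hf
    · intro w hw q hq hFq hqw
      obtain ⟨P, hP⟩ : ∃ P, P = fun i => w i ^ e i + c i := ⟨_, rfl⟩
      have hPS : P ∈ S := by rw [hP]; exact hmem w hw
      have hprime : (q.comap (kum e c)).IsPrime := Ideal.comap_isPrime _ _
      have h1 : q.comap (kum e c) = Bez.mid P := by
        apply hiso P hPS _ hprime
        · intro f hf
          exact hFq ⟨f, hf, rfl⟩
        · intro f hf
          rw [Ideal.mem_comap] at hf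
          have := Bez.mem_mid.mp (hqw hf)
          rw [eval_kum] at this
          rw [Bez.mem_mid, hP]
          exact this
      refine le_antisymm hqw (mid_le_of_linear fun i => ?_)
      have h2 : (X i - C (P i) : MvPolynomial σ k) ∈ q.comap (kum e c) := by
        rw [h1, Bez.mem_mid]
        simp
      rw [Ideal.mem_comap] at h2
      have h3 : kum e c (X i - C (P i)) =
          Polynomial.aeval (X i : MvPolynomial σ k) (Polynomial.X ^ e i - Polynomial.C (w i ^ e i)) := by
        rw [kum, map_sub, aeval_X, hP]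
        simp only [algHom_C, algebraMap_eq, map_add, map_pow, map_sub, Polynomial.aeval_X,
          Polynomial.aeval_C]
        ring
      rw [h3] at h2
      have h4 : (Polynomial.X ^ e i - Polynomial.C (w i ^ e i) : Polynomial k) ≠ 0 :=
        Polynomial.X_pow_sub_C_ne_zero (he1 i) _
      obtain ⟨α, -, hα⟩ := exists_linear_mem hq h4 h2
      have h5 := Bez.mem_mid.mp (hqw hα)
      simp only [map_sub, eval_X, eval_C] at h5
      rw [sub_eq_zero.mp h5]
      exact hα
  rw [hcard, Nat.card_eq_fintype_card, mul_pow] at key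
  have hprod : (∏ i, e i) * (∏ i, d i) = N ^ Fintype.card σ := by
    rw [← Finset.prod_mul_distrib, Finset.prod_congr rfl fun i _ => by
      rw [mul_comm (e i) (d i), hde i]]
    simp
  have h6 : S.card * N ^ Fintype.card σ ≤
      (Fintype.card σ ^ Fintype.card σ * ∏ i, d i) * N ^ Fintype.card σ := by
    calc S.card * N ^ Fintype.card σ = (S.card * ∏ i, e i) * ∏ i, d i := by
          rw [← hprod]; ring
      _ ≤ (Fintype.card σ ^ Fintype.card σ * N ^ Fintype.card σ) * ∏ i, d i :=
          Nat.mul_le_mul_right _ key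
      _ = _ := by ring
  exact Nat.le_of_mul_le_mul_right h6 (Nat.pow_pos hNpos)

end ZE
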