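import Mathlib
import Pool.Agent.Lib.MP_3550b5_nt.ZE.Isol
import Pool.Agent.Lib.MP_3550b5_nt.ZE.Emb

/-!
The number of minimal primes of an ideal generated by polynomials of bounded degrees.
-/

open MvPolynomial

namespace ZE

variable {k : Type*} [Field k] {σ : Type*} [DecidableEq σ]

/-- Specialisation of the variables in `I`. -/
noncomputable def spec (I : Finset σ) {K : Type*} [Field K] (θ : MvPolynomial I k →+* K) :
    MvPolynomial σ k →+* MvPolynomial {j // j ∉ I} K :=
  eval₂Hom (C.comp (θ.comp C)) fun i => if h : i ∈ I then C (θ (X ⟨i, h⟩)) else X ⟨i, h⟩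

theorem spec_C (I : Finset σ) {K : Type*} [Field K] (θ : MvPolynomial I k →+* K) (c : k) :
    spec I θ (C c) = C (θ (C c)) := by
  simp [spec]

theorem spec_X_mem {I : Finset σ} {K : Type*} [Field K] (θ : MvPolynomial I k →+* K) {i : σ}
    (h : i ∈ I) : spec I θ (X i) = C (θ (X ⟨i, h⟩)) := by
  simp [spec, h]

theorem spec_X_notMem {I : Finset σ} {K : Type*} [Field K] (θ : MvPolynomial I k →+* K) {i : σ}
    (h : i ∉ I) : spec I θ (X i) = X ⟨i, h⟩ := by
  simp [spec, h]

theorem spec_rename (I : Finset σ) {K : Type*} [Field K] (θ : MvPolynomial I k →+* K)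
    (f : MvPolynomial I k) : spec I θ (rename (fun i : I => (i : σ)) f) = C (θ f) := by
  have h : (spec I θ).comp (rename (R := k) (fun i : I => (i : σ))).toRingHom = C.comp θ := by
    apply MvPolynomial.ringHom_ext
    · intro r
      simp [spec_C]
    · intro i
      simp only [RingHom.comp_apply, AlgHom.toRingHom_eq_coe, RingHom.coe_coe, rename_X]
      exact spec_X_mem θ i.2
  exact congrArg (fun φ : MvPolynomial I k →+* MvPolynomial {j // j ∉ I} K => φ f) h

theorem degreeOf_spec_le [Fintype σ] (I : Finset σ) {K : Type*} [Field K] (θ : MvPolynomial I k →+* K)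
    (f : MvPolynomial σ k) (j : {j // j ∉ I}) : (spec I θ f).degreeOf j ≤ f.degreeOf (j : σ) := by
  classical
  have h1 : spec I θ f = ∑ a ∈ f.support, C (θ (C (coeff a f))) *
      ∏ i, (if h : i ∈ I then C (θ (X ⟨i, h⟩)) else X ⟨i, h⟩) ^ a i := by
    conv_lhs => rw [f.as_sum]
    rw [map_sum]
    refine Finset.sum_congr rfl fun a _ => ?_
    rw [spec, coe_eval₂Hom, eval₂_monomial, Finsupp.prod_fintype]
    · rfl
    · intro i
      rw [pow_zero]
  rw [h1]
  refine (degreeOf_sum_le _ _ _).trans (Finset.sup_le fun a ha => ?_)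
  refine (degreeOf_mul_le _ _ _).trans ?_
  rw [degreeOf_C, zero_add]
  refine (degreeOf_prod_le _ _ _).trans ?_
  have h2 : ∀ i ∈ (Finset.univ : Finset σ), i ≠ (j : σ) → degreeOf j
      ((if h : i ∈ I then C (θ (X ⟨i, h⟩)) else X ⟨i, h⟩ : MvPolynomial {j // j ∉ I} K) ^ a i) = 0 := by
    intro i _ hij
    have h3 : degreeOf j
      (if h : i ∈ I then C (θ (X ⟨i, h⟩)) else X ⟨i, h⟩ : MvPolynomial {j // j ∉ I} K) = 0 := by
      split_ifs with h
      · exact degreeOf_C _ _
      · apply degreeOf_X_of_ne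
        intro h4
        apply hij
        rw [h4]
    have h5 := degreeOf_pow_le j
      (if h : i ∈ I then C (θ (X ⟨i, h⟩)) else X ⟨i, h⟩ : MvPolynomial {j // j ∉ I} K) (a i)
    rw [h3, mul_zero] at h5
    omega
  rw [Finset.sum_eq_single (j : σ) h2 (fun h => absurd (Finset.mem_univ _) h)]
  have h6 := degreeOf_pow_le j
      (if h : (j : σ) ∈ I then C (θ (X ⟨j, h⟩)) else X ⟨j, h⟩ : MvPolynomial {j // j ∉ I} K) (a j)
  rw [dif_neg j.2] at h6 ⊢
  refine h6.trans ?_
  rw [show (⟨(j : σ), j.2⟩ : {j // j ∉ I}) = j from rfl, degreeOf_X_self, mul_one]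
  exact monomial_le_degreeOf _ ha

/-- The minimal primes for which the variables in `I` are a transcendence basis. -/
theorem card_le_of_basis [Fintype σ] [CharZero k] (Φ : Set (MvPolynomial σ k)) (d : σ → ℕ)
    (hd : ∀ i, 1 ≤ d i) (hΦ : ∀ f ∈ Φ, ∀ i, f.degreeOf i ≤ d i) (I : Finset σ)
    (Ps : Finset (Ideal (MvPolynomial σ k)))
    (hPs : ∀ p ∈ Ps, p ∈ (Ideal.span Φ).minimalPrimes)
    (hI : ∀ p ∈ Ps, IsTranscendenceBasis k
      (fun i : I => (Ideal.Quotient.mk p (X (i : σ)) : MvPolynomial σ k ⧸ p))) :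
    Ps.card ≤ Fintype.card {j // j ∉ I} ^ Fintype.card {j // j ∉ I} *
      ∏ j : {j // j ∉ I}, d j := by
  classical
  obtain ⟨θ, hθd⟩ : ∃ θ : MvPolynomial I k →+* AlgebraicClosure (FractionRing (MvPolynomial I k)),
      θ = (algebraMap (FractionRing (MvPolynomial I k))
        (AlgebraicClosure (FractionRing (MvPolynomial I k)))).comp
        (algebraMap (MvPolynomial I k) (FractionRing (MvPolynomial I k))) := ⟨_, rfl⟩
  have hθ : Function.Injective θ := by
    rw [hθd, RingHom.coe_comp]
    exact (algebraMap (FractionRing (MvPolynomial I k))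
        (AlgebraicClosure (FractionRing (MvPolynomial I k)))).injective.comp
        (IsFractionRing.injective _ _)
  have hcz : CharZero (AlgebraicClosure (FractionRing (MvPolynomial I k))) := by
    refine ⟨fun m n hmn => ?_⟩
    have h1 : θ (C (m : k)) = θ (C (n : k)) := by
      simpa using hmn
    have h2 := C_injective _ _ (hθ h1)
    exact_mod_cast h2
  -- the points
  have hpt : ∀ p : Ideal (MvPolynomial σ k), ∃ z : {j // j ∉ I} →
      AlgebraicClosure (FractionRing (MvPolynomial I k)), p ∈ Ps →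
      (Bez.mid z).comap (spec I θ) = p := by
    intro p
    by_cases hp : p ∈ Ps
    swap
    · exact ⟨0, fun h => absurd h hp⟩
    have hprime : p.IsPrime := (hPs p hp).1.1
    obtain ⟨ψ, hψ, hψθ⟩ := exists_emb (hI p hp) θ hθ
    refine ⟨fun j => ψ (Ideal.Quotient.mk p (X (j : σ))), fun _ => ?_⟩
    have h1 : (eval fun j : {j // j ∉ I} => ψ (Ideal.Quotient.mk p (X (j : σ)))).comp
        (spec I θ) = ψ.comp (Ideal.Quotient.mk p) := by
      apply MvPolynomial.ringHom_ext
      · intro r
        simp only [RingHom.comp_apply, spec_C, eval_C]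
        rw [← hψθ, aeval_C]
        rfl
      · intro i
        simp only [RingHom.comp_apply]
        by_cases h : i ∈ I
        · rw [spec_X_mem θ h, eval_C, ← hψθ, aeval_X]
        · rw [spec_X_notMem θ h, eval_X]
    ext f
    rw [Ideal.mem_comap, Bez.mem_mid]
    have h2 := congrArg (fun φ : MvPolynomial σ k →+* _ => φ f) h1
    simp only [RingHom.comp_apply] at h2
    rw [h2, map_eq_zero_iff ψ hψ, Ideal.Quotient.eq_zero_iff_mem]
  choose z hz using hpt
  have hinj : Set.InjOn z Ps := by
    intro p hp q hq hpq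
    rw [← hz p hp, ← hz q hq, hpq]
  rw [← Finset.card_image_of_injOn hinj]
  have hspan : ∀ p ∈ Ps, Φ ⊆ p := fun p hp => Ideal.span_le.mp (hPs p hp).1.2
  refine isolated_multi (spec I θ '' Φ) (fun j => d j) (fun j => hd j) ?_ _ ?_ ?_
  · rintro _ ⟨f, hf, rfl⟩ j
    exact (degreeOf_spec_le I θ f j).trans (hΦ f hf j)
  · intro P hP
    rintro _ ⟨f, hf, rfl⟩
    obtain ⟨p, hp, rfl⟩ := Finset.mem_image.mp hP
    have h1 : f ∈ p := hspan p hp hf
    rw [← hz p hp, Ideal.mem_comap, Bez.mem_mid] at h1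
    exact h1
  · intro P hP q hq hFq hqP
    obtain ⟨p, hp, rfl⟩ := Finset.mem_image.mp hP
    have hprime : p.IsPrime := (hPs p hp).1.1
    have hprime' : (q.comap (spec I θ)).IsPrime := Ideal.comap_isPrime _ _
    have h1 : q.comap (spec I θ) ≤ p := by
      conv_rhs => rw [← hz p hp]
      exact Ideal.comap_mono hqP
    have h2 : Ideal.span Φ ≤ q.comap (spec I θ) := by
      rw [Ideal.span_le]
      intro f hf
      exact hFq ⟨f, hf, rfl⟩
    have h3 : p = q.comap (spec I θ) := le_antisymm ((hPs p hp).2 ⟨hprime', h2⟩ h1) h1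
    refine le_antisymm hqP (mid_le_of_linear fun j => ?_)
    obtain ⟨g, hg0, hg⟩ := exists_rel (hI p hp) (Ideal.Quotient.mk p (X (j : σ)))
    -- the relation as a polynomial
    obtain ⟨G, hG⟩ : ∃ G : MvPolynomial σ k, G =
        g.eval₂ (rename (R := k) (fun i : I => (i : σ))).toRingHom (X (j : σ)) := ⟨_, rfl⟩
    have h4 : G ∈ p := by
      rw [← Ideal.Quotient.eq_zero_iff_mem, hG, Polynomial.hom_eval₂]
      have h5 : (Ideal.Quotient.mk p).comp (rename (R := k) (fun i : I => (i : σ))).toRingHom =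
          ((aeval (fun i : I => (Ideal.Quotient.mk p (X (i : σ)) : MvPolynomial σ k ⧸ p)) :
            MvPolynomial I k →ₐ[k] _) : MvPolynomial I k →+* _) := by
        apply MvPolynomial.ringHom_ext
        · intro r
          simp only [RingHom.comp_apply, AlgHom.toRingHom_eq_coe, RingHom.coe_coe, rename_C,
            aeval_C]
          rfl
        · intro i
          simp
      rw [h5]
      exact hg
    rw [h3, Ideal.mem_comap, hG, Polynomial.hom_eval₂] at h4
    have h6 : (spec I θ).comp (rename (R := k) (fun i : I => (i : σ))).toRingHom =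
        C.comp θ := by
      apply MvPolynomial.ringHom_ext
      · intro r
        simp [spec_C]
      · intro i
        simp only [RingHom.comp_apply, AlgHom.toRingHom_eq_coe, RingHom.coe_coe, rename_X]
        exact spec_X_mem θ i.2
    rw [h6, spec_X_notMem θ j.2, ← Polynomial.eval₂_map] at h4
    have h7 : (g.map θ).eval₂ (C : _ →+* MvPolynomial {j // j ∉ I} _) (X ⟨(j : σ), j.2⟩) =
        Polynomial.aeval (X j : MvPolynomial {j // j ∉ I} _) (g.map θ) := rfl
    rw [h7] at h4
    have h8 : g.map θ ≠ 0 := by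
      rwa [Ne, Polynomial.map_eq_zero_iff hθ]
    obtain ⟨α, -, hα⟩ := exists_linear_mem hq h8 h4
    have h9 := Bez.mem_mid.mp (hqP hα)
    simp only [map_sub, eval_X, eval_C] at h9
    rw [sub_eq_zero.mp h9]
    exact hα

end ZE
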