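import Mathlib
import Pool.Agent.Lib.MP_3550b5_nt.ZE.Count

/-!
The number of minimal primes: conclusion.
-/

open MvPolynomial

namespace ZE

variable {k : Type*} [Field k] {σ : Type*}

/-- A transcendence basis among the given coordinates. -/
theorem exists_basis [Finite σ] [DecidableEq σ] (p : Ideal (MvPolynomial σ k)) [hp : p.IsPrime]
    (J : Set σ)
    (hJ : Algebra.IsAlgebraic (Algebra.adjoin k
      ((fun i => (Ideal.Quotient.mk p (X i) : MvPolynomial σ k ⧸ p)) '' J)) (MvPolynomial σ k ⧸ p)) :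
    ∃ I : Finset σ, (I : Set σ) ⊆ J ∧ IsTranscendenceBasis k
      (fun i : I => (Ideal.Quotient.mk p (X (i : σ)) : MvPolynomial σ k ⧸ p)) := by
  classical
  have := Fintype.ofFinite σ
  have hf : @FaithfulSMul k (MvPolynomial σ k ⧸ p) Algebra.toSMul :=
    (faithfulSMul_iff_algebraMap_injective k _).mpr (algebraMap k _).injective
  obtain ⟨t, hts, ht⟩ := exists_isTranscendenceBasis_subset (R := k)
    ((fun i => (Ideal.Quotient.mk p (X i) : MvPolynomial σ k ⧸ p)) '' J)
  choose f hfJ hf2 using fun y : t => hts y.2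
  have hfinj : Function.Injective f := by
    intro y y' h
    apply Subtype.ext
    rw [← hf2 y, ← hf2 y', h]
  have htfin : Finite t := Finite.of_injective f hfinj
  have := Fintype.ofFinite t
  obtain ⟨I, hI⟩ : ∃ I : Finset σ, I = Finset.univ.image f := ⟨_, rfl⟩
  have hmem : ∀ y, f y ∈ I := fun y => by
    rw [hI]; exact Finset.mem_image_of_mem _ (Finset.mem_univ _)
  refine ⟨I, ?_, ?_⟩
  · intro i hi
    rw [Finset.mem_coe, hI] at hi
    obtain ⟨y, -, rfl⟩ := Finset.mem_image.mp hi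
    exact hfJ y
  · let e : t ≃ I := Equiv.ofBijective (fun y => ⟨f y, hmem y⟩) ⟨by
      intro y y' h
      exact hfinj (congrArg Subtype.val h), by
      rintro ⟨i, hi⟩
      rw [hI] at hi
      obtain ⟨y, -, rfl⟩ := Finset.mem_image.mp hi
      exact ⟨y, rfl⟩⟩
    rw [← isTranscendenceBasis_equiv e]
    have h1 : (fun i : I => (Ideal.Quotient.mk p (X (i : σ)) : MvPolynomial σ k ⧸ p)) ∘ e =
        fun y : t => (y : MvPolynomial σ k ⧸ p) := by
      funext y
      exact hf2 y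
    rw [h1]
    exact ht

theorem algebraic_univ (p : Ideal (MvPolynomial σ k)) [hp : p.IsPrime] :
    Algebra.IsAlgebraic (Algebra.adjoin k
      ((fun i => (Ideal.Quotient.mk p (X i) : MvPolynomial σ k ⧸ p)) '' Set.univ))
      (MvPolynomial σ k ⧸ p) := by
  constructor
  intro a
  have h1 : a ∈ Algebra.adjoin k
      ((fun i => (Ideal.Quotient.mk p (X i) : MvPolynomial σ k ⧸ p)) '' Set.univ) := by
    obtain ⟨f, rfl⟩ := Ideal.Quotient.mk_surjective a
    have h2 : Ideal.Quotient.mk p f = aeval (fun i => (Ideal.Quotient.mk p (X i) :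
        MvPolynomial σ k ⧸ p)) f := by
      have h3 : (Ideal.Quotient.mkₐ k p) = aeval (fun i => (Ideal.Quotient.mk p (X i) :
        MvPolynomial σ k ⧸ p)) := by
        ext i
        simp
      exact congrArg (fun φ : MvPolynomial σ k →ₐ[k] _ => φ f) h3
    rw [h2, Set.image_univ]
    have h4 : aeval (fun i => (Ideal.Quotient.mk p (X i) : MvPolynomial σ k ⧸ p)) f ∈
        (aeval (R := k) (fun i => (Ideal.Quotient.mk p (X i) : MvPolynomial σ k ⧸ p))).range :=
      ⟨f, rfl⟩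
    rwa [← Algebra.adjoin_range_eq_range_aeval] at h4
  exact isAlgebraic_algebraMap (⟨a, h1⟩ : Algebra.adjoin k
      ((fun i => (Ideal.Quotient.mk p (X i) : MvPolynomial σ k ⧸ p)) '' Set.univ))

/-- The number of minimal primes. -/
theorem card_minimalPrimes_le' [Fintype σ] [DecidableEq σ] [CharZero k]
    (Φ : Set (MvPolynomial σ k)) (d : σ → ℕ)
    (hd : ∀ i, 1 ≤ d i) (hΦ : ∀ f ∈ Φ, ∀ i, f.degreeOf i ≤ d i)
    (Ps : Finset (Ideal (MvPolynomial σ k)))
    (hPs : ∀ p ∈ Ps, p ∈ (Ideal.span Φ).minimalPrimes) (B : ℕ)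
    (hB : ∀ p ∈ Ps, ∃ I : Finset σ, IsTranscendenceBasis k
      (fun i : I => (Ideal.Quotient.mk p (X (i : σ)) : MvPolynomial σ k ⧸ p)) ∧
        ∏ j : {j // j ∉ I}, d j ≤ B) :
    Ps.card ≤ 2 ^ Fintype.card σ * Fintype.card σ ^ Fintype.card σ * B := by
  classical
  obtain ⟨s, hs⟩ : ∃ s, s = Fintype.card σ := ⟨_, rfl⟩
  rw [← hs]
  obtain ⟨Q, hQ⟩ : ∃ Q : Finset σ → Finset (Ideal (MvPolynomial σ k)), Q = fun I : Finset σ =>
      Ps.filter fun p => IsTranscendenceBasis k
        (fun i : I => (Ideal.Quotient.mk p (X (i : σ)) : MvPolynomial σ k ⧸ p)) ∧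
        ∏ j : {j // j ∉ I}, d j ≤ B := ⟨_, rfl⟩
  have h1 : Ps ⊆ (Finset.univ : Finset (Finset σ)).biUnion Q := by
    intro p hp
    obtain ⟨I, hI⟩ := hB p hp
    rw [Finset.mem_biUnion]
    refine ⟨I, Finset.mem_univ _, ?_⟩
    rw [hQ]
    exact Finset.mem_filter.mpr ⟨hp, hI⟩
  have h2 : ∀ I, (Q I).card ≤ s ^ s * B := by
    intro I
    rcases (Q I).eq_empty_or_nonempty with h0 | ⟨p₀, hp₀⟩
    · rw [h0, Finset.card_empty]
      exact Nat.zero_le _
    have hq : ∀ p ∈ Q I, p ∈ Ps ∧ IsTranscendenceBasis k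
        (fun i : I => (Ideal.Quotient.mk p (X (i : σ)) : MvPolynomial σ k ⧸ p)) ∧
        ∏ j : {j // j ∉ I}, d j ≤ B := by
      intro p hp
      rw [hQ] at hp
      exact Finset.mem_filter.mp hp
    refine (card_le_of_basis Φ d hd hΦ I (Q I) (fun p hp => hPs p (hq p hp).1)
      (fun p hp => (hq p hp).2.1)).trans ?_
    apply Nat.mul_le_mul _ (hq p₀ hp₀).2.2
    have h3 : Fintype.card {j // j ∉ I} ≤ s := by
      rw [hs]
      exact Fintype.card_subtype_le _
    rcases Nat.eq_zero_or_pos (Fintype.card {j // j ∉ I}) with h4 | h4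
    · rw [h4, pow_zero]
      rcases Nat.eq_zero_or_pos s with h5 | h5
      · rw [h5, pow_zero]
      · exact Nat.one_le_pow _ _ h5
    · exact (Nat.pow_le_pow_left h3 _).trans (Nat.pow_le_pow_right (h4.trans_le h3) h3)
  calc Ps.card ≤ ((Finset.univ : Finset (Finset σ)).biUnion Q).card := Finset.card_le_card h1
    _ ≤ ∑ I, (Q I).card := Finset.card_biUnion_le
    _ ≤ ∑ _I : Finset σ, s ^ s * B := Finset.sum_le_sum fun I _ => h2 I
    _ = _ := by
      rw [Finset.sum_const, Finset.card_univ, Fintype.card_finset, smul_eq_mul, ← hs, mul_assoc]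

/-- The number of minimal primes of an ideal generated by polynomials with bounded degrees. -/
theorem card_minimalPrimes_le [Fintype σ] [CharZero k]
    (Φ : Set (MvPolynomial σ k)) (d : σ → ℕ)
    (hd : ∀ i, 1 ≤ d i) (hΦ : ∀ f ∈ Φ, ∀ i, f.degreeOf i ≤ d i)
    (Ps : Finset (Ideal (MvPolynomial σ k)))
    (hPs : ∀ p ∈ Ps, p ∈ (Ideal.span Φ).minimalPrimes) :
    Ps.card ≤ 2 ^ Fintype.card σ * Fintype.card σ ^ Fintype.card σ * ∏ i, d i := by
  classical
  refine card_minimalPrimes_le' Φ d hd hΦ Ps hPs _ fun p hp => ?_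
  have : p.IsPrime := (hPs p hp).1.1
  obtain ⟨I, -, hI⟩ := exists_basis p Set.univ (algebraic_univ p)
  refine ⟨I, hI, ?_⟩
  calc ∏ j : {j // j ∉ I}, d j ≤ (∏ j : {j // j ∉ I}, d j) * ∏ j : {j // ¬ j ∉ I}, d j :=
        Nat.le_mul_of_pos_right _ (Finset.prod_pos fun j _ => hd j)
    _ = ∏ i, d i := Fintype.prod_subtype_mul_prod_subtype (fun j => j ∉ I) d

end ZE
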