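import Mathlib
import Pool.Agent.Lib.MP_3550b5_nt.ZE.Count2

/-!
The number of minimal primes in a quotient of a polynomial ring.
-/

open MvPolynomial

namespace ZE

variable {k : Type*} [Field k] {σ : Type*} {A : Type*} [CommRing A]

/-- The number of minimal primes in a quotient of a polynomial ring, refined form. -/
theorem card_minimalPrimes_quot' [Fintype σ] [DecidableEq σ] [CharZero k]
    (π : MvPolynomial σ k →+* A) (hπ : Function.Surjective π) (E : Set (MvPolynomial σ k))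
    (hE : RingHom.ker π = Ideal.span E) (d : σ → ℕ) (hd : ∀ i, 1 ≤ d i)
    (hEd : ∀ f ∈ E, ∀ i, f.degreeOf i ≤ d i) (Φ : Set A)
    (hΦ : ∀ f ∈ Φ, ∃ g, π g = f ∧ ∀ i, g.degreeOf i ≤ d i) (Ps : Finset (Ideal A))
    (hPs : ∀ p ∈ Ps, p ∈ (Ideal.span Φ).minimalPrimes) (B : ℕ)
    (hB : ∀ p ∈ Ps, ∃ I : Finset σ, IsTranscendenceBasis k
      (fun i : I => (Ideal.Quotient.mk (p.comap π) (X (i : σ)) : MvPolynomial σ k ⧸ p.comap π)) ∧
        ∏ j : {j // j ∉ I}, d j ≤ B) :
    Ps.card ≤ 2 ^ Fintype.card σ * Fintype.card σ ^ Fintype.card σ * B := by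
  classical
  obtain ⟨Φ', hΦ'⟩ : ∃ Φ' : Set (MvPolynomial σ k), Φ' =
      {g | π g ∈ Φ ∧ ∀ i, g.degreeOf i ≤ d i} ∪ E := ⟨_, rfl⟩
  have hspan : Ideal.span Φ' = (Ideal.span Φ).comap π := by
    apply le_antisymm
    · rw [Ideal.span_le, hΦ']
      rintro g (hg | hg)
      · exact Ideal.subset_span hg.1
      · have h1 : g ∈ RingHom.ker π := by
          rw [hE]; exact Ideal.subset_span hg
        rw [SetLike.mem_coe, Ideal.mem_comap, RingHom.mem_ker.mp h1]
        exact Ideal.zero_mem _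
    · intro f hf
      rw [Ideal.mem_comap] at hf
      have h1 : Ideal.span Φ ≤ (Ideal.span Φ').map π := by
        rw [Ideal.span_le]
        intro y hy
        obtain ⟨g, hg1, hg2⟩ := hΦ y hy
        rw [← hg1]
        apply Ideal.mem_map_of_mem
        apply Ideal.subset_span
        rw [hΦ']
        exact Or.inl ⟨by rw [hg1]; exact hy, hg2⟩
      obtain ⟨g, hg, hgf⟩ := (Ideal.mem_map_iff_of_surjective π hπ).mp (h1 hf)
      have h2 : f - g ∈ Ideal.span Φ' := by
        have h3 : f - g ∈ RingHom.ker π := by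
          rw [RingHom.mem_ker, map_sub, hgf, sub_self]
        rw [hE] at h3
        refine Ideal.span_mono ?_ h3
        rw [hΦ']
        exact Set.subset_union_right
      have h4 := Ideal.add_mem _ h2 hg
      rwa [sub_add_cancel] at h4
  have hinj : Set.InjOn (Ideal.comap π) (Ps : Set (Ideal A)) :=
    fun p _ q _ h => Ideal.comap_injective_of_surjective π hπ h
  rw [← Finset.card_image_of_injOn hinj]
  refine card_minimalPrimes_le' Φ' d hd ?_ _ ?_ B ?_
  · rw [hΦ']
    rintro g (hg | hg)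
    · exact hg.2
    · exact hEd g hg
  · intro p hp
    obtain ⟨q, hq, rfl⟩ := Finset.mem_image.mp hp
    rw [hspan, Ideal.comap_minimalPrimes_eq_of_surjective hπ]
    exact ⟨q, hPs q hq, rfl⟩
  · intro p hp
    obtain ⟨q, hq, rfl⟩ := Finset.mem_image.mp hp
    exact hB q hq

/-- The number of minimal primes in a quotient of a polynomial ring. -/
theorem card_minimalPrimes_quot [Fintype σ] [CharZero k]
    (π : MvPolynomial σ k →+* A) (hπ : Function.Surjective π) (E : Set (MvPolynomial σ k))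
    (hE : RingHom.ker π = Ideal.span E) (d : σ → ℕ) (hd : ∀ i, 1 ≤ d i)
    (hEd : ∀ f ∈ E, ∀ i, f.degreeOf i ≤ d i) (Φ : Set A)
    (hΦ : ∀ f ∈ Φ, ∃ g, π g = f ∧ ∀ i, g.degreeOf i ≤ d i) (Ps : Finset (Ideal A))
    (hPs : ∀ p ∈ Ps, p ∈ (Ideal.span Φ).minimalPrimes) :
    Ps.card ≤ 2 ^ Fintype.card σ * Fintype.card σ ^ Fintype.card σ * ∏ i, d i := by
  classical
  refine card_minimalPrimes_quot' π hπ E hE d hd hEd Φ hΦ Ps hPs _ fun p hp => ?_
  have : p.IsPrime := (hPs p hp).1.1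
  have : (p.comap π).IsPrime := Ideal.comap_isPrime _ _
  obtain ⟨I, -, hI⟩ := exists_basis (p.comap π) Set.univ (algebraic_univ _)
  refine ⟨I, hI, ?_⟩
  calc ∏ j : {j // j ∉ I}, d j ≤ (∏ j : {j // j ∉ I}, d j) * ∏ j : {j // ¬ j ∉ I}, d j :=
        Nat.le_mul_of_pos_right _ (Finset.prod_pos fun j _ => hd j)
    _ = ∏ i, d i := Fintype.prod_subtype_mul_prod_subtype (fun j => j ∉ I) d

end ZE
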