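import Pool.Agent.Lib.MP_3550b5_nt.ZE.ZEst

/-! # Eigenfunctions from a stable prime ideal, abstract form -/

set_option linter.unusedSectionVars false

namespace MP3550b5.ZE

section minsupp

variable {L F ι Γ : Type*} [Field L] [Field F] [Algebra L F]

/-- A stable subspace without monomials contains a relation of two terms. -/
theorem min_support (e : ι → F) (M : Submodule L F)
    (hM : ∀ k, e k ∉ M) (x : F) (hx0 : x ≠ 0) (hx : x ∈ M)
    (hxs : x ∈ Submodule.span L (Set.range e)) (G : Set Γ) (τ : Γ → F →+* F)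
    (s : Γ → L →+* L) (hs : ∀ v ∈ G, ∀ a, τ v (algebraMap L F a) = algebraMap L F (s v a))
    (c : Γ → ι → L) (hc : ∀ v ∈ G, ∀ k, c v k ≠ 0)
    (hτ : ∀ v ∈ G, ∀ k, τ v (e k) = algebraMap L F (c v k) * e k)
    (hst : ∀ v ∈ G, ∀ y ∈ M, τ v y ∈ M) :
    ∃ k₀ k₁ : ι, k₀ ≠ k₁ ∧ ∃ P : L, P ≠ 0 ∧ ∀ v ∈ G, s v P * c v k₁ = P * c v k₀ := by
  classical
  set X : Set (ι →₀ L) := {g | g ≠ 0 ∧ Finsupp.linearCombination L e g ∈ M} with hX
  have hXne : X.Nonempty := by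
    rw [← Finsupp.range_linearCombination] at hxs
    obtain ⟨g, rfl⟩ := hxs
    refine ⟨g, ?_, hx⟩
    rintro rfl
    exact hx0 (map_zero _)
  obtain ⟨g, hgX, hgmin⟩ : ∃ g ∈ X, ∀ h ∈ X, g.support.card ≤ h.support.card := by
    obtain ⟨g, hg, hmin⟩ := WellFounded.has_min (measure fun g : ι →₀ L => g.support.card).wf
      X hXne
    exact ⟨g, hg, fun h hh => not_lt.1 (hmin h hh)⟩
  obtain ⟨hg0, hgM⟩ := hgX
  obtain ⟨k₀, hk₀⟩ := Finsupp.support_nonempty_iff.2 hg0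
  rw [Finsupp.mem_support_iff] at hk₀
  -- normalise
  obtain ⟨g, hg1, hgM, hgmin⟩ : ∃ g : ι →₀ L, g k₀ = 1 ∧ Finsupp.linearCombination L e g ∈ M ∧
      ∀ h ∈ X, g.support.card ≤ h.support.card := by
    refine ⟨(g k₀)⁻¹ • g, ?_, ?_, ?_⟩
    · rw [Finsupp.smul_apply, smul_eq_mul, inv_mul_cancel₀ hk₀]
    · rw [map_smul]
      exact M.smul_mem _ hgM
    · intro h hh
      refine le_trans (Finset.card_le_card Finsupp.support_smul) (hgmin h hh)
  have hk₀s : k₀ ∈ g.support := by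
    rw [Finsupp.mem_support_iff, hg1]
    exact one_ne_zero
  obtain ⟨k₁, hk₁, hne⟩ : ∃ k₁ ∈ g.support, k₁ ≠ k₀ := by
    by_contra hcon
    push Not at hcon
    apply hM k₀
    have h1 : g = Finsupp.single k₀ 1 := by
      ext k
      by_cases hk : k = k₀
      · rw [hk, hg1, Finsupp.single_eq_same]
      · rw [Finsupp.single_apply, if_neg (Ne.symm hk)]
        by_contra h2
        exact hk (hcon k (Finsupp.mem_support_iff.2 h2))
    rw [h1, Finsupp.linearCombination_single, one_smul] at hgM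
    exact hgM
  refine ⟨k₀, k₁, hne.symm, g k₁, Finsupp.mem_support_iff.1 hk₁, ?_⟩
  intro v hv
  -- the twist
  set t : ι →₀ L := Finsupp.onFinset g.support (fun k => s v (g k) * c v k) (by
    intro k hk
    rw [Finsupp.mem_support_iff]
    intro h0
    rw [h0, map_zero, zero_mul] at hk
    exact hk rfl) with ht
  have htv : ∀ k, t k = s v (g k) * c v k := fun k => rfl
  have htM : Finsupp.linearCombination L e t ∈ M := by
    have h1 : Finsupp.linearCombination L e t = τ v (Finsupp.linearCombination L e g) := by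
      rw [Finsupp.linearCombination_apply, Finsupp.linearCombination_apply,
        Finsupp.sum_of_support_subset t (s := g.support) (Finsupp.support_onFinset_subset)
          (fun i a => a • e i) (fun k _ => zero_smul L _)]
      rw [Finsupp.sum, map_sum]
      refine Finset.sum_congr rfl fun k _ => ?_
      rw [htv, Algebra.smul_def, Algebra.smul_def, map_mul, map_mul, hs v hv, hτ v hv, mul_assoc]
    rw [h1]
    exact hst v hv _ hgM
  set h : ι →₀ L := (c v k₀)⁻¹ • t - g with hh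
  have hh0 : h k₀ = 0 := by
    rw [hh, Finsupp.sub_apply, Finsupp.smul_apply, htv, hg1, map_one, one_mul, smul_eq_mul,
      inv_mul_cancel₀ (hc v hv k₀), sub_self]
  have hhM : Finsupp.linearCombination L e h ∈ M := by
    rw [hh, map_sub, map_smul]
    exact M.sub_mem (M.smul_mem _ htM) hgM
  have hhs : h.support ⊆ g.support.erase k₀ := by
    intro k hk
    rw [Finset.mem_erase]
    rw [Finsupp.mem_support_iff] at hk
    refine ⟨fun hkk => hk (hkk ▸ hh0), ?_⟩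
    rw [Finsupp.mem_support_iff]
    intro h0
    apply hk
    rw [hh, Finsupp.sub_apply, Finsupp.smul_apply, htv, h0, map_zero, zero_mul, smul_zero, sub_zero]
  have hh00 : h = 0 := by
    by_contra hne0
    have h1 := hgmin h ⟨hne0, hhM⟩
    have h2 := Finset.card_le_card hhs
    have h3 := Finset.card_erase_lt_of_mem hk₀s
    omega
  have h1 : h k₁ = 0 := by rw [hh00, Finsupp.zero_apply]
  rw [hh, Finsupp.sub_apply, Finsupp.smul_apply, htv, smul_eq_mul, sub_eq_zero] at h1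
  have h2 := hc v hv k₀
  field_simp at h1
  rw [h1, mul_comm]

end minsupp

section stable

variable {A F Γ : Type*} [CommRing A] [IsDomain A] [Field F] [Algebra A F] [IsFractionRing A F]
  [AddCommGroup Γ] {𝒟 : Dat A F Γ} {p : Ideal A} [hp : p.IsPrime]

theorem mem_MLoc_iff_inv {x : F} : x ∈ MLoc F p ↔ x ∈ Loc F p ∧ (x = 0 ∨ x⁻¹ ∉ Loc F p) := by
  constructor
  · intro h
    refine ⟨MLoc_sub_Loc p h, ?_⟩
    by_contra hcon
    push Not at hcon
    exact notMem_of_unit p hcon.1 hcon.2 h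
  · rintro ⟨h1, h2⟩
    by_contra hcon
    obtain ⟨h3, h4⟩ := unit_of_notMem p h1 hcon
    rcases h2 with h2 | h2
    · exact h3 h2
    · exact h2 h4

/-- The stabiliser preserves the maximal ideal. -/
theorem Stab_MLoc {u : Γ} (hu : u ∈ Stab 𝒟 p) (x : F) : 𝒟.τ u x ∈ MLoc F p ↔ x ∈ MLoc F p := by
  rw [mem_Stab] at hu
  rw [mem_MLoc_iff_inv, mem_MLoc_iff_inv, hu, ← map_inv₀, hu, map_eq_zero]

variable {A₀ L : Type*} [CommRing A₀] [IsDomain A₀] [Field L] [Algebra A₀ L] [IsFractionRing A₀ L]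
  [Algebra A₀ A] [Algebra L F] [Algebra A₀ F] [IsScalarTower A₀ A F] [IsScalarTower A₀ L F]

/-- If `p` meets `A₀` in zero, the field of fractions of `A₀` is in the local ring. -/
theorem L_sub_Loc (h0 : ∀ a : A₀, algebraMap A₀ A a ∈ p → a = 0) (a : L) :
    algebraMap L F a ∈ Loc F p := by
  obtain ⟨x, y, hy, rfl⟩ := IsFractionRing.div_surjective (A := A₀) a
  have hy0 : y ≠ 0 := nonZeroDivisors.ne_zero hy
  refine ⟨algebraMap A₀ A x, algebraMap A₀ A y, fun h => hy0 (h0 y h), ?_⟩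
  rw [← IsScalarTower.algebraMap_apply A₀ A F, ← IsScalarTower.algebraMap_apply A₀ A F, map_div₀,
    ← IsScalarTower.algebraMap_apply A₀ L F, ← IsScalarTower.algebraMap_apply A₀ L F]
  refine div_mul_cancel₀ _ ?_
  rw [IsScalarTower.algebraMap_apply A₀ L F]
  intro h
  rw [map_eq_zero] at h
  exact hy0 ((IsFractionRing.to_map_eq_zero_iff (K := L)).1 h)

/-- The maximal ideal as a vector space over the field of fractions of `A₀`. -/
def MLocSub (L : Type*) [Field L] [Algebra A₀ L] [IsFractionRing A₀ L] [Algebra L F]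
    [IsScalarTower A₀ L F] (p : Ideal A) [p.IsPrime]
    (h0 : ∀ a : A₀, algebraMap A₀ A a ∈ p → a = 0) : Submodule L F where
  carrier := MLoc F p
  zero_mem' := by
    have := (mem_MLoc_iff (F := F) p 0).2 p.zero_mem
    rwa [map_zero] at this
  add_mem' := fun h h' => MLoc_add p h h'
  smul_mem' := by
    intro a x hx
    rw [Algebra.smul_def, mul_comm]
    exact MLoc_mul p hx (L_sub_Loc h0 a)

/-- A prime ideal which meets `A₀` in zero: an invariant of the stabiliser of the form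
`P * e k₁ / e k₀`. -/
theorem exists_invariant {ι : Type*} {v₀ : Γ} (hpm : p ≤ 𝒟.m v₀)
    (h0 : ∀ a : A₀, algebraMap A₀ A a ∈ p → a = 0) {f : A} (hf : f ∈ p) (hf0 : f ≠ 0)
    (e : ι → A)
    (hspan : ∀ a : A, algebraMap A F a ∈ Submodule.span L (Set.range fun k => algebraMap A F (e k)))
    (hem : ∀ k, e k ∉ 𝒟.m v₀) (s : Γ → L →+* L)
    (hs : ∀ v a, 𝒟.τ v (algebraMap L F a) = algebraMap L F (s v a))
    (c : Γ → ι → L) (hc : ∀ v k, c v k ≠ 0)
    (hτ : ∀ v k, 𝒟.τ v (algebraMap A F (e k)) = algebraMap L F (c v k) * algebraMap A F (e k)) :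
    ∃ k₀ k₁ : ι, k₀ ≠ k₁ ∧ ∃ P : L, P ≠ 0 ∧
      ∀ v ∈ Stab 𝒟 p, s v P * c v k₁ = P * c v k₀ := by
  refine min_support (fun k => algebraMap A F (e k)) (MLocSub L p h0) ?_ (algebraMap A F f) ?_
    ?_ (hspan f) (Stab 𝒟 p : Set Γ) (fun v => (𝒟.τ v).toRingHom) s (fun v _ a => hs v a) c
    (fun v _ k => hc v k) (fun v _ k => hτ v k) ?_
  · intro k hk
    exact hem k (hpm ((mem_MLoc_iff (F := F) p (e k)).1 hk))
  · intro h
    exact hf0 ((IsFractionRing.to_map_eq_zero_iff (K := F)).1 h)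
  · exact (mem_MLoc_iff (F := F) p f).2 hf
  · intro v hv y hy
    exact (Stab_MLoc hv y).2 hy

omit hp in
/-- An invariant of the stabiliser is an eigenfunction of all translations. -/
theorem eigen {ι : Type*} {G : AddSubgroup Γ} (s : Γ → L →+* L)
    (e : ι → A) (he0 : ∀ k, e k ≠ 0)
    (hs : ∀ v a, 𝒟.τ v (algebraMap L F a) = algebraMap L F (s v a))
    (c : Γ → ι → L) (hc : ∀ v k, c v k ≠ 0)
    (hτ : ∀ v k, 𝒟.τ v (algebraMap A F (e k)) = algebraMap L F (c v k) * algebraMap A F (e k))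
    (K₀ : Set L) (hfix : ∀ a : L, (∀ v ∈ G, s v a = a) → a ∈ K₀) {k₀ k₁ : ι} {P : L} (hP : P ≠ 0)
    (h : ∀ v ∈ G, s v P * c v k₁ = P * c v k₀) (δ : Γ) :
    s δ P * c δ k₁ / (P * c δ k₀) ∈ K₀ := by
  apply hfix
  intro v hv
  -- the cocycle relation
  have hcc : ∀ u u' k, c (u + u') k = s u (c u' k) * c u k := by
    intro u u' k
    have h1 := hτ (u + u') k
    rw [𝒟.τ_add, hτ, map_mul, hs, hτ, ← mul_assoc, ← map_mul] at h1
    have h2 : algebraMap A F (e k) ≠ 0 := by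
      intro h
      exact he0 k ((IsFractionRing.to_map_eq_zero_iff (K := F)).1 h)
    exact ((algebraMap L F).injective (mul_right_cancel₀ h2 h1)).symm
  have hss : ∀ u u' a, s (u + u') a = s u (s u' a) := by
    intro u u' a
    apply (algebraMap L F).injective
    rw [← hs, 𝒟.τ_add, hs, hs]
  have hcomm : ∀ u u' a, s u (s u' a) = s u' (s u a) := by
    intro u u' a
    rw [← hss, add_comm, hss]
  have hcc' : ∀ u u' k, s u (c u' k) * c u k = s u' (c u k) * c u' k := by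
    intro u u' k
    rw [← hcc, add_comm, hcc]
  have hsi : ∀ u, Function.Injective (s u) := fun u => (s u).injective
  have hs0 : ∀ u {a}, a ≠ 0 → s u a ≠ 0 := by
    intro u a ha h'
    exact ha ((map_eq_zero (s u)).1 h')
  rw [map_div₀, map_mul, map_mul, div_eq_div_iff (mul_ne_zero (hs0 v hP) (hs0 v (hc δ k₀)))
    (mul_ne_zero hP (hc δ k₀))]
  -- apply `s δ` to the invariance
  have h1 : s δ (s v P) * s δ (c v k₁) = s δ P * s δ (c v k₀) := by
    rw [← map_mul, h v hv, map_mul]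
  have h2 := h v hv
  have h3 := hcc' v δ k₀
  have h4 := hcc' v δ k₁
  rw [hcomm v δ P]
  -- multiply by c v k₀ * c v k₁
  have h5 : c v k₀ * c v k₁ ≠ 0 := mul_ne_zero (hc v k₀) (hc v k₁)
  apply mul_right_cancel₀ h5
  calc s δ (s v P) * s v (c δ k₁) * (P * c δ k₀) * (c v k₀ * c v k₁)
      = s δ (s v P) * (s v (c δ k₁) * c v k₁) * (P * c v k₀) * c δ k₀ := by ring
    _ = s δ (s v P) * (s δ (c v k₁) * c δ k₁) * (s v P * c v k₁) * c δ k₀ := by rw [h4, h2]
    _ = (s δ (s v P) * s δ (c v k₁)) * c δ k₁ * (s v P * c v k₁) * c δ k₀ := by ring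
    _ = (s δ P * s δ (c v k₀)) * c δ k₁ * (s v P * c v k₁) * c δ k₀ := by rw [h1]
    _ = (s δ P * c δ k₁) * s v P * (s δ (c v k₀) * c δ k₀) * c v k₁ := by ring
    _ = (s δ P * c δ k₁) * s v P * (s v (c δ k₀) * c v k₀) * c v k₁ := by rw [h3]
    _ = s δ P * c δ k₁ * (s v P * s v (c δ k₀)) * (c v k₀ * c v k₁) := by ring

end stable

section curve

open Polynomial

variable {k A₀ A F Γ L : Type*} [Field k] [CommRing A₀] [IsDomain A₀] [Algebra k A₀]
  [CommRing A] [IsDomain A] [Algebra A₀ A] [Algebra k A] [IsScalarTower k A₀ A]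
  [Field F] [Algebra A F] [IsFractionRing A F] [AddCommGroup Γ]

/-- The base of dimension one. -/
structure Curve (k A₀ : Type*) {A F Γ : Type*} [Field k] [CommRing A₀] [Algebra k A₀]
    [CommRing A] [Algebra A₀ A] [Algebra k A] [Field F] [Algebra A F] [AddCommGroup Γ]
    (𝒟 : Dat A F Γ) where
  /-- the coordinate -/
  x : A₀
  nrm : ∀ a : A₀, a ≠ 0 → ∃ g : k[X], g ≠ 0 ∧ ∃ b, a * b = aeval x g
  /-- the good points -/
  S : Set Γ
  prime : ∀ v ∈ S, (𝒟.m v).IsPrime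
  mem : ∀ v u, 𝒟.G v u → v ∈ S
  /-- the value of the coordinate -/
  ξ : Γ → k
  hξ : ∀ v ∈ S, algebraMap A₀ A (x - algebraMap k A₀ (ξ v)) ∈ 𝒟.m v
  fin : ∀ t, {v | v ∈ S ∧ ξ v = t}.Finite
  cofin : (Sᶜ).Finite
  good : ∀ v ∈ S, {u | ¬ 𝒟.G v u}.Finite
  res : ∀ v ∈ S, ∀ a : A₀, ∃ t : k, algebraMap A₀ A (a - algebraMap k A₀ t) ∈ 𝒟.m v
  const : ∀ u t, 𝒟.τ u (algebraMap A F (algebraMap k A t)) = algebraMap A F (algebraMap k A t)

variable {𝒟 : Dat A F Γ} (𝒞 : Curve k A₀ 𝒟)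

include 𝒞

omit [IsDomain A₀] [IsDomain A] [IsFractionRing A F] in
theorem const_mem {v : Γ} (hv : v ∈ 𝒞.S) {t : k} (h : algebraMap k A t ∈ 𝒟.m v) : t = 0 := by
  by_contra ht
  have := 𝒞.prime v hv
  apply this.ne_top
  rw [Ideal.eq_top_iff_one]
  have h1 := (𝒟.m v).mul_mem_left (algebraMap k A t⁻¹) h
  rwa [← map_mul, inv_mul_cancel₀ ht, map_one] at h1

theorem eval_mem {v : Γ} (hv : v ∈ 𝒞.S) (g : k[X]) (h : algebraMap A₀ A (aeval 𝒞.x g) ∈ 𝒟.m v) :
    g.eval (𝒞.ξ v) = 0 := by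
  apply const_mem 𝒞 hv
  have h1 : X - C (𝒞.ξ v) ∣ g - C (g.eval (𝒞.ξ v)) := by
    rw [dvd_iff_isRoot, IsRoot.def, eval_sub, eval_C, sub_self]
  obtain ⟨q, hq⟩ := h1
  have h2 : algebraMap A₀ A (aeval 𝒞.x (g - C (g.eval (𝒞.ξ v)))) ∈ 𝒟.m v := by
    rw [hq, map_mul, map_mul]
    refine Ideal.mul_mem_right _ _ ?_
    rw [map_sub, aeval_X, aeval_C]
    exact 𝒞.hξ v hv
  have h3 := (𝒟.m v).sub_mem h h2
  rwa [← map_sub, ← map_sub, sub_sub_cancel, aeval_C, ← IsScalarTower.algebraMap_apply k A₀ A]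
    at h3

theorem x_mem_of_poly {v : Γ} (hv : v ∈ 𝒞.S) {p : Ideal A} [hp : p.IsPrime] (hpv : p ≤ 𝒟.m v) :
    ∀ (n : ℕ) (g : k[X]), g.natDegree ≤ n → g ≠ 0 → algebraMap A₀ A (aeval 𝒞.x g) ∈ p →
      algebraMap A₀ A (𝒞.x - algebraMap k A₀ (𝒞.ξ v)) ∈ p := by
  intro n
  induction n with
  | zero =>
    intro g hg hg0 hgp
    exfalso
    have h1 := eval_mem 𝒞 hv g (hpv hgp)
    rw [natDegree_le_iff_degree_le] at hg
    have h2 := eq_C_of_degree_le_zero hg
    rw [h2, eval_C] at h1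
    rw [h1, map_zero] at h2
    exact hg0 h2
  | succ n ih =>
    intro g hg hg0 hgp
    have h1 := eval_mem 𝒞 hv g (hpv hgp)
    obtain ⟨q, hq⟩ := dvd_iff_isRoot.2 h1
    have hq0 : q ≠ 0 := by
      rintro rfl
      rw [mul_zero] at hq
      exact hg0 hq
    rw [hq, map_mul, map_mul] at hgp
    rcases hp.mem_or_mem hgp with h2 | h2
    · rwa [map_sub, aeval_X, aeval_C] at h2
    · refine ih q ?_ hq0 h2
      rw [hq, natDegree_mul (X_sub_C_ne_zero _) hq0, natDegree_X_sub_C] at hg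
      omega

theorem x_mem {v : Γ} (hv : v ∈ 𝒞.S) {p : Ideal A} [hp : p.IsPrime] (hpv : p ≤ 𝒟.m v) {a : A₀}
    (ha : a ≠ 0) (hap : algebraMap A₀ A a ∈ p) :
    algebraMap A₀ A (𝒞.x - algebraMap k A₀ (𝒞.ξ v)) ∈ p := by
  obtain ⟨g, hg0, b, hb⟩ := 𝒞.nrm a ha
  refine x_mem_of_poly 𝒞 hv hpv g.natDegree g le_rfl hg0 ?_
  rw [← hb, map_mul]
  exact p.mul_mem_right _ hap

theorem ξ_eq_of_mem {v u : Γ} (hG : 𝒟.G v u) {p : Ideal A} [hp : p.IsPrime]
    (hpv : p ≤ 𝒟.m v) {a : A₀} (ha : a ≠ 0) (hap : algebraMap A₀ A a ∈ p) (hu : u ∈ Stab 𝒟 p) :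
    𝒞.ξ (v + u) = 𝒞.ξ v := by
  have h1 := x_mem 𝒞 (𝒞.mem v u hG) hpv ha hap
  have h2 := (mem_MLoc_iff (F := F) p _).2 h1
  have h3 := (Stab_MLoc hu _).2 h2
  have := 𝒟.prime v u hG
  have h4 := (𝒟.ev v u hG _).1 (MLoc_up hG hpv (𝒟.reg v u hG _) h3)
  have hvu : v + u ∈ 𝒞.S := 𝒞.mem _ _ (𝒟.symm v u hG)
  have h5 := (𝒟.m (v + u)).sub_mem h4 (𝒞.hξ (v + u) hvu)
  rw [← map_sub, sub_sub_sub_cancel_left, ← map_sub, ← IsScalarTower.algebraMap_apply k A₀ A] at h5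
  exact sub_eq_zero.1 (const_mem 𝒞 hvu h5)

/-- An infinite set of translations meets the good ones infinitely often. -/
theorem inf_good {G : Set Γ} (hG : G.Infinite) {v : Γ} (hv : v ∈ 𝒞.S) :
    {u | u ∈ G ∧ 𝒟.G v u}.Infinite := by
  have h2 := hG.sdiff (𝒞.good v hv)
  refine h2.mono ?_
  rintro u ⟨hu, hu'⟩
  refine ⟨hu, ?_⟩
  by_contra hcon
  exact hu' hcon

theorem comap_zero {v : Γ} (hv : v ∈ 𝒞.S) {p : Ideal A} [hp : p.IsPrime]
    (hpv : p ≤ 𝒟.m v) (hinf : (Stab 𝒟 p : Set Γ).Infinite) (a : A₀)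
    (hap : algebraMap A₀ A a ∈ p) : a = 0 := by
  by_contra ha
  have h1 := inf_good 𝒞 hinf hv
  have h2 : {u | u ∈ (Stab 𝒟 p : Set Γ) ∧ 𝒟.G v u} ⊆
      (fun u => v + u) ⁻¹' {w | w ∈ 𝒞.S ∧ 𝒞.ξ w = 𝒞.ξ v} := by
    rintro u ⟨hu, hu'⟩
    exact ⟨𝒞.mem _ _ (𝒟.symm v u hu'), ξ_eq_of_mem 𝒞 hu' hpv ha hap hu⟩
  exact h1 (((𝒞.fin (𝒞.ξ v)).preimage (fun a _ b _ h => add_left_cancel h)).subset h2)

/-- A nonzero element of the base vanishes at finitely many points. -/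
theorem finite_zeros {a : A₀} (ha : a ≠ 0) : {v | v ∈ 𝒞.S ∧ algebraMap A₀ A a ∈ 𝒟.m v}.Finite := by
  classical
  obtain ⟨g, hg0, b, hb⟩ := 𝒞.nrm a ha
  have h1 : {v | v ∈ 𝒞.S ∧ algebraMap A₀ A a ∈ 𝒟.m v} ⊆
      ⋃ t ∈ g.roots.toFinset, {v | v ∈ 𝒞.S ∧ 𝒞.ξ v = t} := by
    rintro v ⟨hv, hav⟩
    rw [Set.mem_iUnion₂]
    refine ⟨𝒞.ξ v, ?_, hv, rfl⟩
    rw [Multiset.mem_toFinset, mem_roots hg0]
    apply eval_mem 𝒞 hv
    rw [← hb, map_mul]
    exact (𝒟.m v).mul_mem_right _ hav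
  exact (Set.Finite.biUnion (Finset.finite_toSet _) fun t _ => 𝒞.fin t).subset h1

variable [Field L] [Algebra A₀ L] [IsFractionRing A₀ L]
  [Algebra L F] [Algebra A₀ F] [IsScalarTower A₀ A F] [IsScalarTower A₀ L F]

/-- An element of the field of fractions of the base which is invariant under infinitely many
translations is constant. -/
theorem const_of_invariant {G : Set Γ} (hG : G.Infinite) (a : L)
    (ha : ∀ u ∈ G, 𝒟.τ u (algebraMap L F a) = algebraMap L F a) :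
    ∃ t : k, a = algebraMap A₀ L (algebraMap k A₀ t) := by
  obtain ⟨b, c, hc, rfl⟩ := IsFractionRing.div_surjective (A := A₀) a
  have hc0 : c ≠ 0 := nonZeroDivisors.ne_zero hc
  have hcL : algebraMap A₀ L c ≠ 0 := by
    intro h
    exact hc0 ((IsFractionRing.to_map_eq_zero_iff (K := L)).1 h)
  -- a good base point
  obtain ⟨v, hvS, hvc⟩ : ∃ v ∈ 𝒞.S, algebraMap A₀ A c ∉ 𝒟.m v := by
    have h2 := hG.sdiff (𝒞.cofin.union (finite_zeros 𝒞 hc0))
    obtain ⟨u, hu, hu'⟩ := h2.nonempty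
    have hu1 : u ∈ 𝒞.S := by
      by_contra hcon
      exact hu' (Or.inl hcon)
    exact ⟨u, hu1, fun h => hu' (Or.inr ⟨hu1, h⟩)⟩
  have := 𝒞.prime v hvS
  obtain ⟨β, hβ⟩ := 𝒞.res v hvS b
  obtain ⟨γ, hγ⟩ := 𝒞.res v hvS c
  have hγ0 : γ ≠ 0 := by
    rintro rfl
    rw [map_zero, sub_zero] at hγ
    exact hvc hγ
  -- the value
  set t : k := β / γ with ht
  have hmem : algebraMap A₀ A (b - algebraMap k A₀ t * c) ∈ 𝒟.m v := by
    have h1 : b - algebraMap k A₀ t * c =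
        (b - algebraMap k A₀ β) - algebraMap k A₀ t * (c - algebraMap k A₀ γ) := by
      have : algebraMap k A₀ β = algebraMap k A₀ t * algebraMap k A₀ γ := by
        rw [← map_mul, ht, div_mul_cancel₀ _ hγ0]
      rw [this]
      ring
    rw [h1, map_sub, map_mul]
    exact (𝒟.m v).sub_mem hβ ((𝒟.m v).mul_mem_left _ hγ)
  have hzero : b - algebraMap k A₀ t * c = 0 := by
    by_contra hne
    have h1 := inf_good 𝒞 hG hvS
    have h2 : {u | u ∈ G ∧ 𝒟.G v u} ⊆ (fun u => v + u) ⁻¹'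
        {w | w ∈ 𝒞.S ∧ algebraMap A₀ A (b - algebraMap k A₀ t * c) ∈ 𝒟.m w} := by
      rintro u ⟨hu, hu'⟩
      refine ⟨𝒞.mem _ _ (𝒟.symm v u hu'), ?_⟩
      rw [← 𝒟.ev v u hu']
      -- b - t c = c (a - t)
      set a : L := algebraMap A₀ L b / algebraMap A₀ L c with hadef
      have h3 : algebraMap A F (algebraMap A₀ A (b - algebraMap k A₀ t * c)) =
          algebraMap A F (algebraMap A₀ A c) * (algebraMap L F a -
            algebraMap A F (algebraMap k A t)) := by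
        have h4 : algebraMap A F (algebraMap A₀ A c) * algebraMap L F a =
            algebraMap A F (algebraMap A₀ A b) := by
          rw [← IsScalarTower.algebraMap_apply A₀ A F, ← IsScalarTower.algebraMap_apply A₀ A F,
            IsScalarTower.algebraMap_apply A₀ L F, IsScalarTower.algebraMap_apply A₀ L F,
            ← map_mul, hadef, mul_div_cancel₀ _ hcL]
        rw [mul_sub, h4, IsScalarTower.algebraMap_apply k A₀ A, map_sub, map_sub, map_mul, map_mul]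
        ring
      have h5 : algebraMap L F a - algebraMap A F (algebraMap k A t) ∈ MLoc F (𝒟.m v) := by
        refine ⟨algebraMap A₀ A (b - algebraMap k A₀ t * c), algebraMap A₀ A c, hmem, hvc, ?_⟩
        rw [h3]
        ring
      rw [h3, map_mul, map_sub, ha u hu, 𝒞.const, mul_comm]
      exact MLoc_mul _ h5 (𝒟.reg v u hu' _)
    exact h1 (((finite_zeros 𝒞 hne).preimage (fun a _ b _ h => add_left_cancel h)).subset h2)
  refine ⟨t, ?_⟩
  rw [div_eq_iff hcL, ← map_mul]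
  rw [sub_eq_zero.1 hzero]

/-- The conclusion for a base of dimension one: an infinite stabiliser gives an eigenfunction
of all translations. -/
theorem eigen_of_infinite {ι : Type*} {v₀ : Γ} (hv₀ : v₀ ∈ 𝒞.S) {p : Ideal A} [hp : p.IsPrime]
    (hpm : p ≤ 𝒟.m v₀) (hinf : (Stab 𝒟 p : Set Γ).Infinite) {f : A} (hf : f ∈ p) (hf0 : f ≠ 0)
    (e : ι → A)
    (hspan : ∀ a : A, algebraMap A F a ∈ Submodule.span L (Set.range fun k => algebraMap A F (e k)))
    (hem : ∀ k, e k ∉ 𝒟.m v₀) (s : Γ → L →+* L)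
    (hs : ∀ v a, 𝒟.τ v (algebraMap L F a) = algebraMap L F (s v a))
    (c : Γ → ι → L) (hc : ∀ v k, c v k ≠ 0)
    (hτ : ∀ v k, 𝒟.τ v (algebraMap A F (e k)) = algebraMap L F (c v k) * algebraMap A F (e k)) :
    ∃ k₀ k₁ : ι, k₀ ≠ k₁ ∧ ∃ P : L, P ≠ 0 ∧ ∃ χ : Γ → k,
      ∀ δ, s δ P * c δ k₁ = algebraMap A₀ L (algebraMap k A₀ (χ δ)) * (P * c δ k₀) := by
  obtain ⟨k₀, k₁, hne, P, hP, h⟩ := exists_invariant (A₀ := A₀) (L := L) hpm
    (comap_zero 𝒞 hv₀ hpm hinf) hf hf0 e hspan hem s hs c hc hτ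
  have he0 : ∀ k, e k ≠ 0 := by
    intro k hk
    exact hem k (hk ▸ (𝒟.m v₀).zero_mem)
  have h1 : ∀ δ, ∃ t : k, s δ P * c δ k₁ / (P * c δ k₀) = algebraMap A₀ L (algebraMap k A₀ t) := by
    intro δ
    refine eigen (G := Stab 𝒟 p) s e he0 hs c hc hτ
      {a | ∃ t : k, a = algebraMap A₀ L (algebraMap k A₀ t)} ?_ hP h δ
    intro a ha
    refine const_of_invariant 𝒞 hinf a ?_
    intro u hu
    rw [hs, ha u hu]
  choose χ hχ using h1
  refine ⟨k₀, k₁, hne, P, hP, χ, fun δ => ?_⟩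
  rw [← hχ δ, div_mul_cancel₀ _ (mul_ne_zero hP (hc δ k₀))]

end curve

end MP3550b5.ZE
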