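import Mathlib
import Pool.Agent.Lib.MP_3550b5_nt.ZE.Three

/-!
The denominators of the sum and the difference of two points.
-/

namespace Pool.Agent.Lib.MP_3550b5_nt

open WeierstrassCurve.Affine

/-- Three integers without common prime divisor, proportional to three integers without common
prime divisor. -/
lemma unit_factor {u v w F₀ F₁ F₂ : ℤ} (hu : u ≠ 0) (h1 : v * F₀ = F₁ * u)
    (h2 : w * F₀ = F₂ * u) (hprim : ∀ l : ℤ, Prime l → l ∣ u → l ∣ v → l ∣ w → False)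
    (hF : ∀ l : ℤ, Prime l → l ∣ F₀ → l ∣ F₁ → l ∣ F₂ → False) : |F₀| = |u| := by
  have hcop : IsCoprime u (Int.gcd v w : ℤ) := by
    apply isCoprime_of_prime_dvd
    · rintro ⟨h, -⟩
      exact hu h
    · intro l hl g1 g2
      exact hprim l hl g1 (g2.trans (Int.gcd_dvd_left ..)) (g2.trans (Int.gcd_dvd_right ..))
  obtain ⟨α, β, hαβ⟩ := hcop
  have hb := Int.gcd_eq_gcd_ab v w
  obtain ⟨g, hg⟩ : ∃ g, F₀ = u * g := by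
    refine ⟨α * F₀ + β * (Int.gcdA v w * F₁ + Int.gcdB v w * F₂), ?_⟩
    have e : F₀ = (α * u + β * (v * Int.gcdA v w + w * Int.gcdB v w)) * F₀ := by
      rw [← hb, hαβ, one_mul]
    linear_combination e + β * Int.gcdA v w * h1 + β * Int.gcdB v w * h2
  have hg1 : F₁ = v * g := by
    apply mul_right_cancel₀ hu
    rw [← h1, hg]; ring
  have hg2 : F₂ = w * g := by
    apply mul_right_cancel₀ hu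
    rw [← h2, hg]; ring
  have hgu : IsUnit g := by
    by_contra hne
    have hg0 : g ≠ 0 := by
      rintro rfl
      exact hF 2 Int.prime_two (by rw [hg, mul_zero]; exact dvd_zero _)
        (by rw [hg1, mul_zero]; exact dvd_zero _) (by rw [hg2, mul_zero]; exact dvd_zero _)
    obtain ⟨l, hl, hlg⟩ := WfDvdMonoid.exists_irreducible_factor hne hg0
    have hlp : Prime l := hl.prime
    exact hF l hlp (by rw [hg]; exact Dvd.dvd.mul_left hlg _)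
      (by rw [hg1]; exact Dvd.dvd.mul_left hlg _) (by rw [hg2]; exact Dvd.dvd.mul_left hlg _)
  rw [hg, abs_mul]
  rcases Int.isUnit_iff.mp hgu with h | h <;> rw [h] <;> simp

/-- The forms of the addition law have no common factor at a point which is nonsingular modulo
all primes. -/
lemma forms_coprime {a b A₁ B₁ D₁ A₂ D₂ : ℤ} (e₁ : B₁ ^ 2 = A₁ ^ 3 + a * A₁ * D₁ ^ 4 + b * D₁ ^ 6)
    (c₁ : IsCoprime A₁ D₁) (c₂ : IsCoprime A₂ D₂)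
    (hn : IsCoprime (2 * B₁) (3 * A₁ ^ 2 + a * D₁ ^ 4)) (l : ℤ) (hl : Prime l)
    (h0 : l ∣ (A₁ * D₂ ^ 2 - A₂ * D₁ ^ 2) ^ 2)
    (h1 : l ∣ 2 * ((A₁ * A₂ + a * D₁ ^ 2 * D₂ ^ 2) * (A₁ * D₂ ^ 2 + A₂ * D₁ ^ 2) +
      2 * b * D₁ ^ 4 * D₂ ^ 4))
    (h2 : l ∣ (A₁ * A₂ - a * D₁ ^ 2 * D₂ ^ 2) ^ 2 - 4 * b * D₁ ^ 2 * D₂ ^ 2 *
      (A₁ * D₂ ^ 2 + A₂ * D₁ ^ 2)) : False := by
  have h0' : l ∣ A₁ * D₂ ^ 2 - A₂ * D₁ ^ 2 := hl.dvd_of_dvd_pow h0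
  have nu : ¬ IsUnit l := hl.not_isUnit
  by_cases hD1 : l ∣ D₁
  · -- then `l ∣ D₂`
    have g1 : l ∣ A₁ * D₂ ^ 2 := by
      have : A₁ * D₂ ^ 2 = (A₁ * D₂ ^ 2 - A₂ * D₁ ^ 2) + A₂ * D₁ * D₁ := by ring
      rw [this]
      exact dvd_add h0' (Dvd.dvd.mul_left hD1 _)
    have nA1 : ¬ l ∣ A₁ := fun h => nu (c₁.isUnit_of_dvd' h hD1)
    have hD2 : l ∣ D₂ := hl.dvd_of_dvd_pow ((hl.dvd_or_dvd g1).resolve_left nA1)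
    have nA2 : ¬ l ∣ A₂ := fun h => nu (c₂.isUnit_of_dvd' h hD2)
    have g2 : l ∣ A₁ ^ 2 * A₂ ^ 2 := by
      have : A₁ ^ 2 * A₂ ^ 2 = ((A₁ * A₂ - a * D₁ ^ 2 * D₂ ^ 2) ^ 2 - 4 * b * D₁ ^ 2 * D₂ ^ 2 *
          (A₁ * D₂ ^ 2 + A₂ * D₁ ^ 2)) + (2 * A₁ * A₂ * a * D₁ * D₂ ^ 2 -
            a ^ 2 * D₁ ^ 3 * D₂ ^ 4 + 4 * b * D₁ * D₂ ^ 2 * (A₁ * D₂ ^ 2 + A₂ * D₁ ^ 2)) * D₁ := by
        ring
      rw [this]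
      exact dvd_add h2 (Dvd.dvd.mul_left hD1 _)
    rcases hl.dvd_or_dvd g2 with h | h
    · exact nA1 (hl.dvd_of_dvd_pow h)
    · exact nA2 (hl.dvd_of_dvd_pow h)
  · have hD2 : ¬ l ∣ D₂ := by
      intro hD2
      have g1 : l ∣ A₂ * D₁ ^ 2 := by
        have : A₂ * D₁ ^ 2 = A₁ * D₂ * D₂ - (A₁ * D₂ ^ 2 - A₂ * D₁ ^ 2) := by ring
        rw [this]
        exact dvd_sub (Dvd.dvd.mul_left hD2 _) h0'
      rcases hl.dvd_or_dvd g1 with h | h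
      · exact nu (c₂.isUnit_of_dvd' h hD2)
      · exact hD1 (hl.dvd_of_dvd_pow h)
    -- `2 B₁`
    have hB : l ∣ 2 * B₁ := by
      have g1 : l ∣ D₂ ^ 4 * (2 * B₁) ^ 2 := by
        obtain ⟨t, ht⟩ := h0'
        have h1' := Dvd.dvd.mul_right h1 (D₁ ^ 2)
        have : D₂ ^ 4 * (2 * B₁) ^ 2 = 2 * ((A₁ * A₂ + a * D₁ ^ 2 * D₂ ^ 2) *
            (A₁ * D₂ ^ 2 + A₂ * D₁ ^ 2) + 2 * b * D₁ ^ 4 * D₂ ^ 4) * D₁ ^ 2 +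
            l * (t * (2 * (A₁ * (A₁ * D₂ ^ 2 + A₂ * D₁ ^ 2) +
              (A₁ ^ 2 * D₂ ^ 2 + a * D₁ ^ 4 * D₂ ^ 2)))) := by
          rw [mul_pow, e₁]
          linear_combination (2 * (A₁ * (A₁ * D₂ ^ 2 + A₂ * D₁ ^ 2) +
              (A₁ ^ 2 * D₂ ^ 2 + a * D₁ ^ 4 * D₂ ^ 2))) * ht
        rw [this]
        exact dvd_add h1' (Dvd.intro _ rfl)
      rcases hl.dvd_or_dvd g1 with h | h
      · exact absurd (hl.dvd_of_dvd_pow h) hD2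
      · exact hl.dvd_of_dvd_pow h
    have hA : l ∣ 3 * A₁ ^ 2 + a * D₁ ^ 4 := by
      have g1 : l ∣ D₂ ^ 4 * (3 * A₁ ^ 2 + a * D₁ ^ 4) ^ 2 := by
        obtain ⟨t, ht⟩ := h0'
        obtain ⟨r, hr⟩ := hB
        have h2' := Dvd.dvd.mul_right h2 (D₁ ^ 4)
        have key : ∃ z : ℤ, D₂ ^ 4 * (3 * A₁ ^ 2 + a * D₁ ^ 4) ^ 2 =
            ((A₁ * A₂ - a * D₁ ^ 2 * D₂ ^ 2) ^ 2 - 4 * b * D₁ ^ 2 * D₂ ^ 2 *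
              (A₁ * D₂ ^ 2 + A₂ * D₁ ^ 2)) * D₁ ^ 4 + l * z := by
          refine ⟨t * (A₁ * (A₁ ^ 2 * D₂ ^ 2 + A₁ * A₂ * D₁ ^ 2 - 2 * a * D₁ ^ 4 * D₂ ^ 2) -
            4 * b * D₁ ^ 6 * D₂ ^ 2) + 2 * A₁ * D₂ ^ 4 * r * (2 * B₁), ?_⟩
          have hbD : b * D₁ ^ 6 = B₁ ^ 2 - A₁ ^ 3 - a * A₁ * D₁ ^ 4 := by linarith
          linear_combination (A₁ * (A₁ ^ 2 * D₂ ^ 2 + A₁ * A₂ * D₁ ^ 2 -
            2 * a * D₁ ^ 4 * D₂ ^ 2) - 4 * b * D₁ ^ 6 * D₂ ^ 2) * ht +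
            2 * A₁ * D₂ ^ 4 * (2 * B₁) * hr + (8 * A₁ * D₂ ^ 4) * hbD
        obtain ⟨z, hz⟩ := key
        rw [hz]
        exact dvd_add h2' (Dvd.intro _ rfl)
      rcases hl.dvd_or_dvd g1 with h | h
      · exact absurd (hl.dvd_of_dvd_pow h) hD2
      · exact hl.dvd_of_dvd_pow h
    exact nu (hn.isUnit_of_dvd' hB hA)

variable {p : ℕ} [hp : Fact p.Prime] {a b : ℤ}

/-- The denominators of the sum and the difference of two points. -/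
theorem twoTerm : TwoTerm p a b := by
  intro P gP Q gQ hP hQ
  obtain ⟨A₁, B₁, D₁, r₁, d₁, c₁, -, n₁⟩ := good_rep gP hP
  obtain ⟨A₂, B₂, D₂, r₂, d₂, c₂, -, n₂⟩ := good_rep gQ hQ
  have q₁ := dn_of_rep r₁ d₁ c₁
  have q₂ := dn_of_rep r₂ d₂ c₂
  have s₁ : (dn P : ℚ) = D₁ := by exact_mod_cast q₁
  have s₂ : (dn Q : ℚ) = D₂ := by exact_mod_cast q₂
  by_cases hX : ptX P = ptX Q
  · obtain ⟨k1, e1⟩ := exists_eq_some P hP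
    obtain ⟨k2, e2⟩ := exists_eq_some Q hQ
    have h := (Point.X_eq_iff (h₁ := k1) (h₂ := k2)).mp hX
    rw [← e1, ← e2] at h
    rw [hX, sub_self, abs_zero, mul_zero]
    rcases h with h | h
    · rw [h, sub_self, dn_zero, Nat.cast_zero, mul_zero]
    · rw [h, neg_add_cancel, dn_zero, Nat.cast_zero, zero_mul]
  have hX' : ptX P - ptX Q ≠ 0 := sub_ne_zero.mpr hX
  -- the sum and the difference
  obtain ⟨h3, x3⟩ := ptX_add hP hQ hX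
  obtain ⟨h4, x4⟩ := ptX_add hP (neg_ne_zero.mpr hQ) (by rw [ptX_neg]; exact hX)
  rw [ptX_neg, ptY_neg] at x4
  rw [← sub_eq_add_neg] at h4 x4
  obtain ⟨A₃, B₃, D₃, r₃, d₃, c₃⟩ := exists_rep h3
  obtain ⟨A₄, B₄, D₄, r₄, d₄, c₄⟩ := exists_rep h4
  have s₃ : (dn (P + Q) : ℚ) = D₃ := by exact_mod_cast dn_of_rep r₃ d₃ c₃
  have s₄ : (dn (P - Q) : ℚ) = D₄ := by exact_mod_cast dn_of_rep r₄ d₄ c₄
  obtain ⟨k1, -⟩ := exists_eq_some P hP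
  obtain ⟨k2, -⟩ := exists_eq_some Q hQ
  have E₁ := curve_eq k1
  have E₂ := curve_eq k2
  obtain ⟨x₁, hx₁⟩ : ∃ x, x = ptX P := ⟨_, rfl⟩
  obtain ⟨y₁, hy₁⟩ : ∃ x, x = ptY P := ⟨_, rfl⟩
  obtain ⟨x₂, hx₂⟩ : ∃ x, x = ptX Q := ⟨_, rfl⟩
  obtain ⟨y₂, hy₂⟩ : ∃ x, x = ptY Q := ⟨_, rfl⟩
  have i₁ : x₁ = A₁ / (D₁ : ℚ) ^ 2 := by rw [hx₁]; exact r₁.ptX_eq
  have i₂ : x₂ = A₂ / (D₂ : ℚ) ^ 2 := by rw [hx₂]; exact r₂.ptX_eq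
  rw [r₃.ptX_eq] at x3
  rw [r₄.ptX_eq] at x4
  rw [← hx₁, ← hx₂, ← hy₁, ← hy₂] at x3
  rw [← hx₁, ← hx₂, ← hy₁, ← hy₂] at x4
  rw [← hx₁, ← hy₁] at E₁
  rw [← hx₂, ← hy₂] at E₂
  rw [← hx₁, ← hx₂] at hX hX' ⊢
  have D₁0 : (D₁ : ℚ) ≠ 0 := by exact_mod_cast r₁.1
  have D₂0 : (D₂ : ℚ) ≠ 0 := by exact_mod_cast r₂.1
  have D₃0 : (D₃ : ℚ) ≠ 0 := by exact_mod_cast r₃.1
  have D₄0 : (D₄ : ℚ) ≠ 0 := by exact_mod_cast r₄.1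
  rw [chord_x E₁ E₂ hX] at x3
  have x4' : (A₄ : ℚ) / (D₄ : ℚ) ^ 2 =
      ((x₁ * x₂ + a) * (x₁ + x₂) + 2 * b + 2 * y₁ * y₂) / (x₁ - x₂) ^ 2 := by
    rw [x4, chord_x E₁ (by rw [neg_pow_two]; exact E₂) hX]
    congr 1
    ring
  have hsum : (A₃ : ℚ) / (D₃ : ℚ) ^ 2 + (A₄ : ℚ) / (D₄ : ℚ) ^ 2 =
      2 * ((x₁ * x₂ + a) * (x₁ + x₂) + 2 * b) / (x₁ - x₂) ^ 2 := by
    rw [x3, x4', ← add_div]
    congr 1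
    ring
  have hprod : (A₃ : ℚ) / (D₃ : ℚ) ^ 2 * ((A₄ : ℚ) / (D₄ : ℚ) ^ 2) =
      ((x₁ * x₂ - a) ^ 2 - 4 * b * (x₁ + x₂)) / (x₁ - x₂) ^ 2 := by
    rw [x3, x4', div_mul_div_comm, div_eq_div_iff (by positivity) (by positivity)]
    have hy : y₁ ^ 2 * y₂ ^ 2 = (x₁ ^ 3 + a * x₁ + b) * (x₂ ^ 3 + a * x₂ + b) := by
      rw [E₁, E₂]
    linear_combination (-4 * (x₁ - x₂) ^ 2) * hy
  obtain ⟨F₀, hF₀⟩ : ∃ F : ℤ, F = (A₁ * D₂ ^ 2 - A₂ * D₁ ^ 2) ^ 2 := ⟨_, rfl⟩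
  obtain ⟨F₁, hF₁⟩ : ∃ F : ℤ, F = 2 * ((A₁ * A₂ + a * D₁ ^ 2 * D₂ ^ 2) *
      (A₁ * D₂ ^ 2 + A₂ * D₁ ^ 2) + 2 * b * D₁ ^ 4 * D₂ ^ 4) := ⟨_, rfl⟩
  obtain ⟨F₂, hF₂⟩ : ∃ F : ℤ, F = (A₁ * A₂ - a * D₁ ^ 2 * D₂ ^ 2) ^ 2 -
      4 * b * D₁ ^ 2 * D₂ ^ 2 * (A₁ * D₂ ^ 2 + A₂ * D₁ ^ 2) := ⟨_, rfl⟩
  have g₀ : (F₀ : ℚ) = (x₁ - x₂) ^ 2 * ((D₁ : ℚ) ^ 4 * (D₂ : ℚ) ^ 4) := by
    rw [hF₀, i₁, i₂]
    push_cast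
    field_simp
  have g₁ : (F₁ : ℚ) = 2 * ((x₁ * x₂ + a) * (x₁ + x₂) + 2 * b) *
      ((D₁ : ℚ) ^ 4 * (D₂ : ℚ) ^ 4) := by
    rw [hF₁, i₁, i₂]
    push_cast
    field_simp
  have g₂ : (F₂ : ℚ) = ((x₁ * x₂ - a) ^ 2 - 4 * b * (x₁ + x₂)) *
      ((D₁ : ℚ) ^ 4 * (D₂ : ℚ) ^ 4) := by
    rw [hF₂, i₁, i₂]
    push_cast
    field_simp
  have hu : D₃ ^ 2 * D₄ ^ 2 ≠ 0 := mul_ne_zero (pow_ne_zero 2 r₃.1) (pow_ne_zero 2 r₄.1)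
  have key := unit_factor (u := D₃ ^ 2 * D₄ ^ 2) (v := A₃ * D₄ ^ 2 + A₄ * D₃ ^ 2) (w := A₃ * A₄)
    (F₀ := F₀) (F₁ := F₁) (F₂ := F₂) hu ?_ ?_ ?_ ?_
  · -- conclusion
    have h5 : (|F₀| : ℚ) = |(D₃ : ℚ) ^ 2 * (D₄ : ℚ) ^ 2| := by exact_mod_cast key
    have h6 : ((D₃ : ℚ) * D₄) ^ 2 = ((D₁ : ℚ) ^ 2 * (D₂ : ℚ) ^ 2 * |x₁ - x₂|) ^ 2 := by
      rw [abs_of_nonneg (by positivity : (0 : ℚ) ≤ (D₃ : ℚ) ^ 2 * (D₄ : ℚ) ^ 2), g₀,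
        abs_of_nonneg (by positivity)] at h5
      rw [mul_pow ((D₁ : ℚ) ^ 2 * (D₂ : ℚ) ^ 2), sq_abs]
      linear_combination -h5
    rw [s₁, s₂, s₃, s₄]
    have p₁ : (0 : ℚ) < D₁ := by exact_mod_cast d₁
    have p₂ : (0 : ℚ) < D₂ := by exact_mod_cast d₂
    have p₃ : (0 : ℚ) < D₃ := by exact_mod_cast d₃
    have p₄ : (0 : ℚ) < D₄ := by exact_mod_cast d₄
    exact (pow_left_inj₀ (by positivity) (by positivity) (by norm_num)).mp h6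
  · have h5 : (((A₃ * D₄ ^ 2 + A₄ * D₃ ^ 2) * F₀ : ℤ) : ℚ) = ((F₁ * (D₃ ^ 2 * D₄ ^ 2) : ℤ) : ℚ) := by
      push_cast
      rw [g₀, g₁]
      have h6 : (A₃ : ℚ) * (D₄ : ℚ) ^ 2 + A₄ * (D₃ : ℚ) ^ 2 =
          ((A₃ : ℚ) / (D₃ : ℚ) ^ 2 + (A₄ : ℚ) / (D₄ : ℚ) ^ 2) * ((D₃ : ℚ) ^ 2 * (D₄ : ℚ) ^ 2) := by
        field_simp
      rw [h6, hsum]
      field_simp
    exact_mod_cast h5
  · have h5 : (((A₃ * A₄) * F₀ : ℤ) : ℚ) = ((F₂ * (D₃ ^ 2 * D₄ ^ 2) : ℤ) : ℚ) := by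
      push_cast
      rw [g₀, g₂]
      have h6 : (A₃ : ℚ) * A₄ =
          ((A₃ : ℚ) / (D₃ : ℚ) ^ 2 * ((A₄ : ℚ) / (D₄ : ℚ) ^ 2)) * ((D₃ : ℚ) ^ 2 * (D₄ : ℚ) ^ 2) := by
        field_simp
      rw [h6, hprod]
      field_simp
    exact_mod_cast h5
  · intro l hl g1 g2 g3
    have nu : ¬ IsUnit l := hl.not_isUnit
    have n3 : l ∣ A₃ → ¬ l ∣ D₃ := fun h h' => nu (c₃.isUnit_of_dvd' h h')
    have n4 : l ∣ A₄ → ¬ l ∣ D₄ := fun h h' => nu (c₄.isUnit_of_dvd' h h')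
    rcases hl.dvd_or_dvd g3 with h | h
    · have h5 : l ∣ D₄ := by
        rcases hl.dvd_or_dvd g1 with h' | h'
        · exact absurd (hl.dvd_of_dvd_pow h') (n3 h)
        · exact hl.dvd_of_dvd_pow h'
      have h6 : l ∣ A₄ * D₃ ^ 2 := by
        have : A₄ * D₃ ^ 2 = (A₃ * D₄ ^ 2 + A₄ * D₃ ^ 2) - A₃ * D₄ ^ 2 := by ring
        rw [this]
        exact dvd_sub g2 (Dvd.dvd.mul_right h _)
      rcases hl.dvd_or_dvd h6 with h' | h'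
      · exact n4 h' h5
      · exact n3 h (hl.dvd_of_dvd_pow h')
    · have h5 : l ∣ D₃ := by
        rcases hl.dvd_or_dvd g1 with h' | h'
        · exact hl.dvd_of_dvd_pow h'
        · exact absurd (hl.dvd_of_dvd_pow h') (n4 h)
      have h6 : l ∣ A₃ * D₄ ^ 2 := by
        have : A₃ * D₄ ^ 2 = (A₃ * D₄ ^ 2 + A₄ * D₃ ^ 2) - A₄ * D₃ ^ 2 := by ring
        rw [this]
        exact dvd_sub g2 (Dvd.dvd.mul_right h _)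
      rcases hl.dvd_or_dvd h6 with h' | h'
      · exact n3 h' h5
      · exact n4 h (hl.dvd_of_dvd_pow h')
  · intro l hl g1 g2 g3
    rw [hF₀] at g1
    rw [hF₁] at g2
    rw [hF₂] at g3
    exact forms_coprime r₁.eqn c₁ c₂ n₁ l hl g1 g2 g3

end Pool.Agent.Lib.MP_3550b5_nt
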