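import Pool.Agent.Lib.MP_3550b5_nt.ZE.Eig

/-! # The zero estimate with classes of translates -/

set_option linter.unusedSectionVars false

open scoped Pointwise

namespace MP3550b5.ZE

variable {A F Γ : Type*} [CommRing A] [IsDomain A] [Field F] [Algebra A F] [IsFractionRing A F]
  [AddCommGroup Γ]

/-- Translates have the same stabiliser. -/
theorem Stab_tr {𝒟 : Dat A F Γ} {v w : Γ} (hG : 𝒟.G v w) {q : Ideal A} [q.IsPrime]
    (hq : q ≤ 𝒟.m v) : Stab 𝒟 (tr hG q hq) = Stab 𝒟 q := by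
  ext x
  rw [mem_Stab, mem_Stab]
  constructor
  · intro h y
    have h1 := h (𝒟.τ (-w) y)
    rw [← τ_Loc_iff hG hq, ← τ_Loc_iff hG hq, τ_neg', ← 𝒟.τ_add, ← 𝒟.τ_add,
      show w + x + -w = x by abel] at h1
    exact h1
  · intro h y
    rw [← τ_Loc_iff hG hq, ← τ_Loc_iff hG hq, ← 𝒟.τ_add, add_comm w x, 𝒟.τ_add]
    exact h _

/-- The zero estimate with classes of translates. -/
theorem zero_classes [IsNoetherianRing A] (𝒟 : Dat A F Γ) (d : ℕ) (V : Finset Γ) (hV0 : 0 ∈ V)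
    (S : ℕ → Set Γ) (hSV : ∀ r, ∀ v ∈ S (r + 1), ∀ w ∈ V, v + w ∈ S r ∧ 𝒟.G v w)
    (hne : (S d).Nonempty) (f : A) (hf0 : f ≠ 0) (hf : ∀ v ∈ S 0, f ∈ 𝒟.m v)
    (hht : ∀ v ∈ S d, (𝒟.m v).height ≤ d)
    (U : ℕ → Set Γ) (hU0 : U 0 = {0}) (hU : ∀ r, U (r + 1) = U r + (V : Set Γ))
    (hSU : ∀ r, ∀ v ∈ S r, ∀ u ∈ U r, 𝒟.G v u)
    (num den : Γ → A)
    (hnum : ∀ u, 𝒟.τ u (algebraMap A F f) * algebraMap A F (den u) = algebraMap A F (num u))
    (hden : ∀ r, ∀ v ∈ S r, ∀ u ∈ U r, den u ∉ 𝒟.m v) :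
    ∃ r < d, ∃ v ∈ S (r + 1), ∃ q : Ideal A, q.IsPrime ∧ q ≤ 𝒟.m v ∧ f ∈ q ∧
      ∀ M : ℕ, (∀ P : Finset (Ideal A), (∀ q' ∈ P, q' ∈ (Ideal.span (num '' U r)).minimalPrimes ∧
        Stab 𝒟 q' = Stab 𝒟 q ∧ ∃ w ∈ V, 𝒟.G v w ∧ q' ≤ 𝒟.m (v + w)) → P.card ≤ M) →
      ∃ w ∈ V, ∃ W ⊆ V, (∀ w' ∈ W, w' - w ∈ Stab 𝒟 q) ∧ V.card ≤ M * W.card := by
  classical
  obtain ⟨r, hr, v, hv, p, hp, hpv, hfp, hUp, hV, hmin⟩ :=
    zero_estimate 𝒟 d (V : Set Γ) (Finset.mem_coe.2 hV0) S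
      (fun r v hv w hw => hSV r v hv w (Finset.mem_coe.1 hw)) hne f hf0 hf hht U hU0 hU hSU
      num den hnum hden
  refine ⟨r, hr, v, hv, p, hp, hpv, hfp, fun M hM => ?_⟩
  -- the class map
  set g : {w // w ∈ V} → Ideal A := fun w => tr (hV w.1 (Finset.mem_coe.2 w.2)) p hpv with hg
  set P : Finset (Ideal A) := V.attach.image g with hP
  have hPc : P.card ≤ M := by
    refine hM P ?_
    intro q hq
    rw [hP, Finset.mem_image] at hq
    obtain ⟨w, -, rfl⟩ := hq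
    exact ⟨hmin w.1 (Finset.mem_coe.2 w.2), Stab_tr _ hpv, w.1, w.2,
      hV w.1 (Finset.mem_coe.2 w.2), tr_le _ hpv⟩
  have hmaps : ∀ w ∈ V.attach, g w ∈ P := fun w hw => Finset.mem_image_of_mem g hw
  have hPne : P.Nonempty := ⟨g ⟨0, hV0⟩, hmaps _ (Finset.mem_attach _ _)⟩
  obtain ⟨q, hq, hqmax⟩ := P.exists_max_image
    (fun q => (V.attach.filter (fun w => g w = q)).card) hPne
  have hsum : V.card ≤ M * (V.attach.filter (fun w => g w = q)).card := by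
    calc V.card = V.attach.card := V.card_attach.symm
      _ = ∑ q' ∈ P, (V.attach.filter (fun w => g w = q')).card :=
          Finset.card_eq_sum_card_fiberwise hmaps
      _ ≤ ∑ q' ∈ P, (V.attach.filter (fun w => g w = q)).card :=
          Finset.sum_le_sum fun q' hq' => hqmax q' hq'
      _ = P.card * (V.attach.filter (fun w => g w = q)).card := by
          rw [Finset.sum_const, smul_eq_mul]
      _ ≤ M * (V.attach.filter (fun w => g w = q)).card := Nat.mul_le_mul_right _ hPc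
  rw [hP, Finset.mem_image] at hq
  obtain ⟨w, -, hw⟩ := hq
  refine ⟨w.1, w.2, (V.attach.filter (fun w => g w = q)).image Subtype.val, ?_, ?_, ?_⟩
  · intro x hx
    rw [Finset.mem_image] at hx
    obtain ⟨y, -, rfl⟩ := hx
    exact y.2
  · intro x hx
    rw [Finset.mem_image] at hx
    obtain ⟨y, hy, rfl⟩ := hx
    rw [Finset.mem_filter] at hy
    refine sub_mem_Stab (hV w.1 (Finset.mem_coe.2 w.2)) (hV y.1 (Finset.mem_coe.2 y.2)) hpv ?_
    exact hw.trans hy.2.symm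
  · rwa [Finset.card_image_of_injective _ Subtype.val_injective]

/-- An element of a prime ideal vanishes at the translates of a point by the stabiliser. -/
theorem mem_of_Stab {𝒟 : Dat A F Γ} {v u : Γ} (hG : 𝒟.G v u) {q : Ideal A} [q.IsPrime]
    (hq : q ≤ 𝒟.m v) {f : A} (hf : f ∈ q) (hu : u ∈ Stab 𝒟 q) : f ∈ 𝒟.m (v + u) := by
  have := 𝒟.prime v u hG
  have h1 := (Stab_MLoc hu _).2 ((mem_MLoc_iff (F := F) q f).2 hf)
  exact (𝒟.ev v u hG _).1 (MLoc_up hG hq (𝒟.reg v u hG _) h1)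

end MP3550b5.ZE
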