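import Mathlib

/-! # An upper bound for the number of minimal primes of an ideal generated in bounded degree -/

namespace MP3550b5.ZE

open Module

/-- An exhaustive filtration by finite-dimensional subspaces. -/
structure Filt (k A : Type*) [Field k] [CommRing A] [Algebra k A] where
  /-- the subspaces -/
  V : ℕ → Submodule k A
  mono : Monotone V
  fin : ∀ t, FiniteDimensional k (V t)
  mul : ∀ s t x y, x ∈ V s → y ∈ V t → x * y ∈ V (s + t)
  exh : ∀ a, ∃ t, a ∈ V t

variable {k A : Type*} [Field k] [CommRing A] [Algebra k A]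

/-- The quotient map as a linear map. -/
noncomputable def mkL (k : Type*) {A : Type*} [Field k] [CommRing A] [Algebra k A]
    (J : Ideal A) : A →ₗ[k] A ⧸ J := (Ideal.Quotient.mkₐ k J).toLinearMap

theorem mkL_apply (J : Ideal A) (a : A) : mkL k J a = Ideal.Quotient.mk J a := rfl

theorem mkL_eq_zero {J : Ideal A} {a : A} : mkL k J a = 0 ↔ a ∈ J :=
  Ideal.Quotient.eq_zero_iff_mem

theorem mkL_mul (J : Ideal A) (a b : A) : mkL k J (a * b) = mkL k J a * mkL k J b :=
  map_mul (Ideal.Quotient.mk J) a b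

/-- The dimension of the image of `V t` in `A ⧸ J`. -/
noncomputable def HH (W : Filt k A) (J : Ideal A) (t : ℕ) : ℕ :=
  finrank k ((W.V t).map (mkL k J))

theorem finite_img (W : Filt k A) (J : Ideal A) (t : ℕ) :
    FiniteDimensional k ((W.V t).map (mkL k J)) := by
  have := W.fin t
  infer_instance

theorem HH_mono (W : Filt k A) (J : Ideal A) {t u : ℕ} (h : t ≤ u) : HH W J t ≤ HH W J u := by
  have := finite_img W J u
  exact Submodule.finrank_mono (Submodule.map_mono (W.mono h))

theorem HH_le (W : Filt k A) (J : Ideal A) (t : ℕ) : HH W J t ≤ finrank k (W.V t) := by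
  have := W.fin t
  exact Submodule.finrank_map_le _ _

/-- The map between the quotients. -/
noncomputable def facL (k : Type*) {A : Type*} [Field k] [CommRing A] [Algebra k A]
    {J J' : Ideal A} (h : J ≤ J') : (A ⧸ J) →ₗ[k] (A ⧸ J') :=
  (Ideal.Quotient.factorₐ k h).toLinearMap

theorem facL_mkL {J J' : Ideal A} (h : J ≤ J') (a : A) : facL k h (mkL k J a) = mkL k J' a := rfl

theorem HH_anti (W : Filt k A) {J J' : Ideal A} (h : J ≤ J') (t : ℕ) :
    HH W J' t ≤ HH W J t := by
  have := finite_img W J t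
  have h1 : (W.V t).map (mkL k J') = ((W.V t).map (mkL k J)).map (facL k h) := by
    rw [← Submodule.map_comp]
    rfl
  unfold HH
  rw [h1]
  exact Submodule.finrank_map_le _ _

/-- The step of the estimate. -/
theorem HH_step (W : Filt k A) {J J' : Ideal A} (h : J ≤ J') {f : A} (hf : f ∈ W.V 1)
    (hfJ' : f ∈ J') (hnz : ∀ x, f * x ∈ J → x ∈ J) (t : ℕ) :
    HH W J' (t + 1) + HH W J t ≤ HH W J (t + 1) := by
  have hfin := finite_img W J (t + 1)
  have hfin0 := finite_img W J t
  obtain ⟨ψ, hψ⟩ : ∃ ψ : ((W.V (t + 1)).map (mkL k J)) →ₗ[k] (A ⧸ J'),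
      ψ = (facL k h).domRestrict ((W.V (t + 1)).map (mkL k J)) := ⟨_, rfl⟩
  have h1 := LinearMap.finrank_range_add_finrank_ker ψ
  have h2 : HH W J' (t + 1) ≤ finrank k (LinearMap.range ψ) := by
    refine Submodule.finrank_mono ?_
    rintro _ ⟨v, hv, rfl⟩
    refine ⟨⟨mkL k J v, v, hv, rfl⟩, ?_⟩
    rw [hψ]
    rfl
  have h3 : HH W J t ≤ finrank k (LinearMap.ker ψ) := by
    have hmem : ∀ x : (W.V t).map (mkL k J),
        mkL k J f * (x : A ⧸ J) ∈ (W.V (t + 1)).map (mkL k J) := by
      rintro ⟨_, v, hv, rfl⟩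
      refine ⟨f * v, ?_, mkL_mul J f v⟩
      rw [add_comm t 1]
      exact W.mul 1 t f v hf hv
    let g : ((W.V t).map (mkL k J)) →ₗ[k] ((W.V (t + 1)).map (mkL k J)) :=
      { toFun := fun x => ⟨mkL k J f * (x : A ⧸ J), hmem x⟩
        map_add' := fun x y => Subtype.ext (by simp [mul_add])
        map_smul' := fun c x => Subtype.ext (by simp) }
    have hg : ∀ x, g x ∈ LinearMap.ker ψ := by
      rintro ⟨_, v, hv, rfl⟩
      rw [LinearMap.mem_ker, hψ]
      show facL k h (mkL k J f * mkL k J v) = 0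
      rw [← mkL_mul, facL_mkL, mkL_eq_zero]
      exact Ideal.mul_mem_right _ _ hfJ'
    refine LinearMap.finrank_le_finrank_of_injective
      (f := g.codRestrict (LinearMap.ker ψ) hg) ?_
    refine (injective_iff_map_eq_zero _).2 ?_
    rintro ⟨_, v, hv, rfl⟩ hx
    have h4 : mkL k J f * mkL k J v = 0 :=
      congrArg (fun y : LinearMap.ker ψ => (((y : (W.V (t + 1)).map (mkL k J)) : A ⧸ J))) hx
    rw [← mkL_mul, mkL_eq_zero] at h4
    apply Subtype.ext
    show mkL k J v = 0
    rw [mkL_eq_zero]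
    exact hnz v h4
  have h5 : HH W J (t + 1) = finrank k ((W.V (t + 1)).map (mkL k J)) := rfl
  omega

/-- Summation of the steps. -/
theorem sum_steps (a b : ℕ → ℕ) (hb : ∀ {t u}, t ≤ u → b t ≤ b u)
    (h : ∀ t, b (t + 1) + a t ≤ a (t + 1)) (t : ℕ) : t * b t ≤ a (2 * t) := by
  have key : ∀ j, j * b t + a t ≤ a (t + j) := by
    intro j
    induction j with
    | zero => simp
    | succ j ih =>
      have h1 := h (t + j)
      have h2 : b t ≤ b (t + j + 1) := hb (by omega)
      have h3 : (j + 1) * b t = j * b t + b t := by ring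
      rw [h3]
      have h4 : t + (j + 1) = t + j + 1 := by omega
      rw [h4]
      omega
  have h5 := key t
  have h6 : 2 * t = t + t := by ring
  rw [h6]
  omega

section chain

variable [IsNoetherianRing A] [Infinite k]

/-- The minimal primes over `S` below some `p j`. -/
def QQ {M : ℕ} (p : Fin M → Ideal A) (S : Set A) : Set (Ideal A) :=
  {q | q ∈ (Ideal.span S).minimalPrimes ∧ ∃ j, q ≤ p j}

/-- A generic element of the span of `G` is outside the primes of small height. -/
theorem exists_generic {M : ℕ} (p : Fin M → Ideal A) (G : Set A)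
    (hp : ∀ j, p j ∈ (Ideal.span G).minimalPrimes) (S : Finset A)
    (hS : ∀ j, (S.card : ℕ∞) < (p j).height) :
    ∃ f ∈ Submodule.span k G, ∀ q ∈ QQ p (S : Set A), f ∉ q := by
  classical
  have hfin : (QQ p (S : Set A)).Finite :=
    (Ideal.finite_minimalPrimes_of_isNoetherianRing A (Ideal.span (S : Set A))).subset
      fun q hq => hq.1
  by_contra hcon
  push Not at hcon
  have := hfin.to_subtype
  obtain ⟨q, hq⟩ := Subspace.exists_eq_top_of_iUnion_eq_univ (k := k)
    (E := Submodule.span k G)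
    (p := fun q : QQ p (S : Set A) =>
      ((q : Ideal A).restrictScalars k).comap (Submodule.span k G).subtype) (by
    rw [Set.eq_univ_iff_forall]
    intro f
    obtain ⟨q, hq, hfq⟩ := hcon f f.2
    exact Set.mem_iUnion.2 ⟨⟨q, hq⟩, hfq⟩)
  obtain ⟨hq1, j, hqj⟩ := q.2
  have h1 : Ideal.span G ≤ (q : Ideal A) := by
    rw [Ideal.span_le]
    intro g hg
    have h2 : (⟨g, Submodule.subset_span hg⟩ : Submodule.span k G) ∈
        ((q : Ideal A).restrictScalars k).comap (Submodule.span k G).subtype := by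
      rw [hq]
      trivial
    exact h2
  have h3 : p j ≤ (q : Ideal A) := (hp j).2 ⟨hq1.1.1, h1⟩ hqj
  have h4 : (q : Ideal A).height ≤ S.card :=
    Ideal.height_le_card_of_mem_minimalPrimes_span_finset hq1
  have h5 : (p j).height ≤ (q : Ideal A).height := Ideal.height_mono h3
  exact absurd (h5.trans h4) (not_le.2 (hS j))

/-- The chain of ideals. -/
theorem exists_chain (W : Filt k A) {M : ℕ} (p : Fin M → Ideal A) (G : Set A)
    (hG : G ⊆ W.V 1) (hp : ∀ j, p j ∈ (Ideal.span G).minimalPrimes) (i : ℕ)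
    (hi : ∀ j, (i : ℕ∞) ≤ (p j).height) :
    ∃ S : Finset A, S.card ≤ i ∧ (S : Set A) ⊆ Submodule.span k G ∧
      ∀ t, t ^ i * HH W (sInf (QQ p (S : Set A))) t ≤ finrank k (W.V (2 ^ i * t)) := by
  classical
  induction i with
  | zero =>
    refine ⟨∅, by simp, by simp, fun t => ?_⟩
    rw [pow_zero, one_mul, pow_zero, one_mul]
    exact HH_le W _ t
  | succ i ih =>
    obtain ⟨S, hS1, hS2, hS3⟩ := ih fun j => le_trans (by exact_mod_cast Nat.le_succ i) (hi j)
    obtain ⟨f, hf1, hf2⟩ := exists_generic (k := k) p G hp S fun j =>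
      lt_of_lt_of_le (by exact_mod_cast Nat.lt_succ_of_le hS1) (hi j)
    have hfV : f ∈ W.V 1 := (Submodule.span_le.2 hG) hf1
    refine ⟨insert f S, (Finset.card_insert_le _ _).trans (by omega), ?_, fun t => ?_⟩
    · intro x hx
      rw [Finset.coe_insert] at hx
      rcases hx with rfl | hx
      · exact hf1
      · exact hS2 hx
    · have hle : sInf (QQ p (S : Set A)) ≤ sInf (QQ p ((insert f S : Finset A) : Set A)) := by
        refine le_sInf fun q hq => ?_
        obtain ⟨hq1, j, hqj⟩ := hq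
        have h1 : Ideal.span (S : Set A) ≤ q := by
          refine le_trans (Ideal.span_mono ?_) hq1.1.2
          rw [Finset.coe_insert]
          exact Set.subset_insert _ _
        have := hq1.1.1
        obtain ⟨q', hq', hq'q⟩ := Ideal.exists_minimalPrimes_le h1
        have h2 : q' ∈ QQ p (S : Set A) := ⟨hq', j, hq'q.trans hqj⟩
        exact (sInf_le h2).trans hq'q
      have hfin : f ∈ sInf (QQ p ((insert f S : Finset A) : Set A)) := by
        rw [Submodule.mem_sInf]
        intro q hq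
        refine hq.1.1.2 (Ideal.subset_span ?_)
        rw [Finset.coe_insert]
        exact Set.mem_insert _ _
      have hnz : ∀ x, f * x ∈ sInf (QQ p (S : Set A)) → x ∈ sInf (QQ p (S : Set A)) := by
        intro x hx
        rw [Submodule.mem_sInf] at hx ⊢
        intro q hq
        have h1 := hx q hq
        have h2 : Ideal.IsPrime q := hq.1.1.1
        exact (h2.mem_or_mem h1).resolve_left (hf2 q hq)
      have h1 := sum_steps (fun t => HH W (sInf (QQ p (S : Set A))) t)
        (fun t => HH W (sInf (QQ p ((insert f S : Finset A) : Set A))) t)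
        (fun h => HH_mono W _ h) (fun t => HH_step W hle hfV hfin hnz t) t
      have h2 := hS3 (2 * t)
      have h3 : 2 ^ i * (2 * t) = 2 ^ (i + 1) * t := by ring
      rw [h3] at h2
      calc t ^ (i + 1) * HH W (sInf (QQ p ((insert f S : Finset A) : Set A))) t
          = t ^ i * (t * HH W (sInf (QQ p ((insert f S : Finset A) : Set A))) t) := by ring
        _ ≤ (2 * t) ^ i * HH W (sInf (QQ p (S : Set A))) (2 * t) :=
          Nat.mul_le_mul (Nat.pow_le_pow_left (by omega) i) h1
        _ ≤ _ := h2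

omit [IsNoetherianRing A] [Infinite k] in
/-- The primes count separately. -/
theorem sum_HH_le (W : Filt k A) {M : ℕ} (p : Fin M → Ideal A) (hprime : ∀ j, (p j).IsPrime)
    (hinc : ∀ i j, i ≠ j → ¬ p i ≤ p j) :
    ∃ c, ∀ t, ∑ j, HH W (p j) t ≤ HH W (⨅ j, p j) (t + c) := by
  classical
  have hex : ∀ j, ∃ a, (∀ i, i ≠ j → a ∈ p i) ∧ a ∉ p j := by
    intro j
    by_contra hcon
    push Not at hcon
    have h1 : (Finset.univ.erase j).inf p ≤ p j := by
      intro a ha
      refine hcon a fun i hi => ?_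
      exact (Finset.inf_le (Finset.mem_erase.2 ⟨hi, Finset.mem_univ i⟩) :
        (Finset.univ.erase j).inf p ≤ p i) ha
    obtain ⟨i, hi, hij⟩ := ((hprime j).inf_le').1 h1
    exact hinc i j (Finset.ne_of_mem_erase hi) hij
  choose a ha1 ha2 using hex
  choose c0 hc0 using fun j => W.exh (a j)
  refine ⟨Finset.univ.sup c0, fun t => ?_⟩
  obtain ⟨c, hc⟩ : ∃ c, c = Finset.univ.sup c0 := ⟨_, rfl⟩
  rw [← hc]
  have hac : ∀ j, a j ∈ W.V c := by
    intro j
    refine W.mono ?_ (hc0 j)
    rw [hc]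
    exact Finset.le_sup (Finset.mem_univ j)
  have hfin := finite_img W (⨅ j, p j) (t + c)
  have hfinj : ∀ j, FiniteDimensional k ((W.V t).map (mkL k (p j))) := fun j =>
    finite_img W (p j) t
  -- the projections
  obtain ⟨Θ, hΘ⟩ : ∃ Θ : ((W.V (t + c)).map (mkL k (⨅ j, p j))) →ₗ[k] (∀ j, A ⧸ p j),
      Θ = (LinearMap.pi fun j => facL k (iInf_le p j)).domRestrict _ := ⟨_, rfl⟩
  have h1 : finrank k (LinearMap.range Θ) ≤ HH W (⨅ j, p j) (t + c) :=
    LinearMap.finrank_range_le Θ
  refine le_trans ?_ h1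
  have h2 : ∑ j, HH W (p j) t = finrank k (∀ j, ((W.V t).map (mkL k (p j)))) := by
    rw [Module.finrank_pi_fintype]
    rfl
  rw [h2]
  let g : (∀ j, ((W.V t).map (mkL k (p j)))) →ₗ[k] (∀ j, A ⧸ p j) :=
    { toFun := fun x j => mkL k (p j) (a j) * (x j : A ⧸ p j)
      map_add' := fun x y => by
        funext j
        simp [mul_add]
      map_smul' := fun r x => by
        funext j
        simp }
  have hg : ∀ x, g x ∈ LinearMap.range Θ := by
    intro x
    have hx : ∀ j, ∃ v ∈ W.V t, mkL k (p j) v = x j := fun j => (x j).2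
    choose v hv hvx using hx
    have hmem : ∑ i, a i * v i ∈ W.V (t + c) := by
      refine Submodule.sum_mem _ fun i _ => ?_
      rw [add_comm t c]
      exact W.mul c t _ _ (hac i) (hv i)
    refine ⟨⟨mkL k (⨅ j, p j) (∑ i, a i * v i), _, hmem, rfl⟩, ?_⟩
    rw [hΘ]
    funext j
    show facL k (iInf_le p j) (mkL k (⨅ j, p j) (∑ i, a i * v i)) =
      mkL k (p j) (a j) * (x j : A ⧸ p j)
    rw [facL_mkL, map_sum, Finset.sum_eq_single j]
    · rw [mkL_mul, hvx]
    · intro i _ hij
      rw [mkL_eq_zero]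
      exact Ideal.mul_mem_right _ _ (ha1 i j (Ne.symm hij))
    · intro h
      exact absurd (Finset.mem_univ j) h
  refine LinearMap.finrank_le_finrank_of_injective
    (f := g.codRestrict (LinearMap.range Θ) hg) ?_
  refine (injective_iff_map_eq_zero _).2 ?_
  intro x hx
  have h3 : ∀ j, mkL k (p j) (a j) * (x j : A ⧸ p j) = 0 := fun j =>
    congrFun (congrArg Subtype.val hx) j
  funext j
  apply Subtype.ext
  have := hprime j
  rcases mul_eq_zero.1 (h3 j) with h4 | h4
  · exact absurd (mkL_eq_zero.1 h4) (ha2 j)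
  · exact h4

/-- The number of minimal primes of dimension at most `e` of an ideal generated in degree one. -/
theorem card_minimalPrimes_le (W : Filt k A) (C d e : ℕ)
    (hC : ∀ t, finrank k (W.V t) ≤ C * (t + 1) ^ d) (G : Set A) (hG : G ⊆ W.V 1) {M : ℕ}
    (p : Fin M → Ideal A) (hinj : Function.Injective p)
    (hp : ∀ j, p j ∈ (Ideal.span G).minimalPrimes) (hd : ∀ j, (d : ℕ∞) ≤ (p j).height + e)
    (hlow : ∀ j t, t ^ e ≤ e.factorial * HH W (p j) t) :
    M ≤ e.factorial * 2 ^ ((d + 2) * d) * C := by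
  classical
  have hprime : ∀ j, (p j).IsPrime := fun j => (hp j).1.1
  have hinc : ∀ i j, i ≠ j → ¬ p i ≤ p j := by
    intro i j hij hle
    have h1 : p j ≤ p i := (hp j).2 (hp i).1 hle
    exact hij (hinj (le_antisymm hle h1))
  have hh : ∀ j, ((d - e : ℕ) : ℕ∞) ≤ (p j).height := by
    intro j
    have h1 := hd j
    rcases eq_or_ne (p j).height ⊤ with h2 | h2
    · rw [h2]
      exact le_top
    · obtain ⟨n, hn⟩ := ENat.ne_top_iff_exists.1 h2
      rw [← hn] at h1 ⊢
      have h3 : d ≤ n + e := by exact_mod_cast h1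
      have h4 : d - e ≤ n := by omega
      exact_mod_cast h4
  obtain ⟨S, -, hSG', hS⟩ := exists_chain W p G hG hp (d - e) hh
  obtain ⟨c, hc⟩ := sum_HH_le W p hprime hinc
  have hSG : ∀ j, Ideal.span (S : Set A) ≤ p j := by
    intro j
    rw [Ideal.span_le]
    intro x hx
    exact (hp j).1.2 (Submodule.span_subset_span k A G (hSG' hx))
  · have hJ : sInf (QQ p (S : Set A)) ≤ ⨅ j, p j := by
      refine le_iInf fun j => ?_
      have := hprime j
      obtain ⟨q, hq, hqj⟩ := Ideal.exists_minimalPrimes_le (hSG j)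
      have h2 : q ∈ QQ p (S : Set A) := ⟨hq, j, hqj⟩
      exact (sInf_le h2).trans hqj
    obtain ⟨t, ht⟩ : ∃ t, t = c + 1 := ⟨_, rfl⟩
    have htpos : 0 < t := by omega
    have h1 : M * t ^ e ≤ e.factorial * HH W (sInf (QQ p (S : Set A))) (t + c) := by
      calc M * t ^ e = ∑ _j : Fin M, t ^ e := by simp
        _ ≤ ∑ j : Fin M, e.factorial * HH W (p j) t := Finset.sum_le_sum fun j _ => hlow j t
        _ = e.factorial * ∑ j, HH W (p j) t := by rw [Finset.mul_sum]
        _ ≤ e.factorial * HH W (⨅ j, p j) (t + c) := Nat.mul_le_mul_left _ (hc t)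
        _ ≤ _ := Nat.mul_le_mul_left _ (HH_anti W hJ _)
    have h2 := hS (t + c)
    have h3 := hC (2 ^ (d - e) * (t + c))
    have h4 : 2 ^ (d - e) * (t + c) + 1 ≤ 2 ^ (d + 2) * t := by
      have h5 : 2 ^ (d - e) ≤ 2 ^ d := Nat.pow_le_pow_right (by norm_num) (by omega)
      have h6 : 1 ≤ 2 ^ d := Nat.one_le_two_pow
      have h7 : 2 ^ (d + 2) * t = 4 * (2 ^ d * t) := by ring
      have h8 : 2 ^ (d - e) * (t + c) ≤ 2 ^ d * (2 * t) := Nat.mul_le_mul h5 (by omega)
      have h9 : 2 ^ d * (2 * t) = 2 * (2 ^ d * t) := by ring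
      have h10 : 1 ≤ 2 ^ d * t := Nat.mul_pos (by positivity) htpos
      omega
    have h11 : M * t ^ d ≤ e.factorial * (C * (2 ^ (d + 2) * t) ^ d) := by
      calc M * t ^ d ≤ M * (t ^ e * (t + c) ^ (d - e)) := by
            refine Nat.mul_le_mul_left _ ?_
            calc t ^ d ≤ t ^ (e + (d - e)) := Nat.pow_le_pow_right (by omega) (by omega)
              _ = t ^ e * t ^ (d - e) := pow_add _ _ _
              _ ≤ t ^ e * (t + c) ^ (d - e) :=
                Nat.mul_le_mul_left _ (Nat.pow_le_pow_left (by omega) _)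
        _ = (M * t ^ e) * (t + c) ^ (d - e) := by ring
        _ ≤ (e.factorial * HH W (sInf (QQ p (S : Set A))) (t + c)) * (t + c) ^ (d - e) :=
            Nat.mul_le_mul_right _ h1
        _ = e.factorial * ((t + c) ^ (d - e) * HH W (sInf (QQ p (S : Set A))) (t + c)) := by ring
        _ ≤ e.factorial * (C * (2 ^ (d - e) * (t + c) + 1) ^ d) :=
            Nat.mul_le_mul_left _ (h2.trans h3)
        _ ≤ _ := Nat.mul_le_mul_left _ (Nat.mul_le_mul_left _ (Nat.pow_le_pow_left h4 d))
    have h12 : e.factorial * (C * (2 ^ (d + 2) * t) ^ d) =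
        (e.factorial * 2 ^ ((d + 2) * d) * C) * t ^ d := by
      rw [mul_pow, ← pow_mul]
      ring
    rw [h12] at h11
    exact Nat.le_of_mul_le_mul_right h11 (Nat.pow_pos htpos)

end chain

end MP3550b5.ZE
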