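import Mathlib
import Pool.Agent.Lib.MP_3550b5_nt.NGrow

/-!
The growth of eigenfunctions along multiples of a point.
-/

namespace Pool.Agent.Lib.MP_3550b5_nt

open WeierstrassCurve.Affine

variable {a b : ℤ}

/-- Bounds away from the origin and near it. -/
def NearBdd (f : (curve a b).Point → ℝ) : Prop :=
  ∃ X₀ : ℚ, ∀ X₁ : ℚ, ∃ c C : ℝ, 0 < c ∧ ∀ T : (curve a b).Point, T ≠ 0 → X₀ ≤ |ptX T| →
    |ptX T| ≤ X₁ → c ≤ f T ∧ f T ≤ C

/-- The growth of an eigenfunction. -/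
theorem grow_eig (hΔ : 4 * a ^ 3 + 27 * b ^ 2 ≠ 0) {q : (curve a b).Point → ℝ} {C : ℝ}
    (hq : ∀ P Q, q (P + Q) + q (P - Q) = 2 * q P + 2 * q Q)
    (hup : ∀ Q, (dn Q : ℝ) ≤ Real.exp (q Q + C))
    (hlow : ∀ X : ℚ, 1 ≤ X → ∃ C' : ℝ, ∀ Q : (curve a b).Point, Q ≠ 0 → |ptX Q| ≤ X →
      Real.exp (q Q - C') ≤ (dn Q : ℝ))
    {δ : (curve a b).Point} (hδ : ¬ IsOfFinAddOrder δ) {s : ℕ}
    {X : Fin s → (curve a b).Point} (hX : ∀ k, X k ≠ 0) (μ : Fin s → ℤ) (m : ℕ)
    {f : (curve a b).Point → ℝ} (hf : NearBdd f) {χ K : ℝ} (hχ : 0 < χ) (hK : 0 < K) (J : ℕ)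
    (h : ∀ j, J ≤ j → f (j • δ) *
      ∏ k, ((dn (j • δ + X k) : ℝ) / dn (j • δ)) ^ ((m : ℤ) * μ k) = K * χ ^ j) :
    Real.log χ = m * ∑ k, μ k * bp q δ (X k) := by
  classical
  obtain ⟨Xf, hXf⟩ := hf
  choose R hR1 hR2 using fun k => exists_bounded (hX k)
  obtain ⟨X₀, hX₀⟩ : ∃ X₀ : ℚ, X₀ = |Xf| + 1 + ∑ k, R k := ⟨_, rfl⟩
  have hRsum : ∀ k, R k ≤ ∑ k, R k := fun k =>
    Finset.single_le_sum (f := R) (fun k _ => zero_le_one.trans (hR1 k)) (Finset.mem_univ k)
  have hRs0 : 0 ≤ ∑ k, R k := Finset.sum_nonneg fun k _ => zero_le_one.trans (hR1 k)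
  obtain ⟨X₁, hX₁⟩ := exists_near hΔ hδ X₀
  have hX₁1 : 1 ≤ X₁ := by
    obtain ⟨j, -, h1, h2⟩ := hX₁ 0
    have := abs_nonneg Xf
    linarith
  obtain ⟨c, Cf, hc, hcf⟩ := hXf X₁
  obtain ⟨C₁, hC₁⟩ := hlow X₁ hX₁1
  choose Ck hCk using fun k => hlow (R k) (hR1 k)
  obtain ⟨L, hL⟩ : ∃ L : ℝ, L = |Real.log c| + |Real.log Cf| := ⟨_, rfl⟩
  obtain ⟨M, hM⟩ : ∃ M : Fin s → ℝ, M = fun k => |C| + |C₁| + |Ck k| := ⟨_, rfl⟩
  obtain ⟨B, hB⟩ : ∃ B : ℝ, B = |Real.log K| + L + m * ∑ k, |(μ k : ℝ)| * (M k + |q (X k)|) :=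
    ⟨_, rfl⟩
  obtain ⟨D, hD⟩ : ∃ D : ℝ, D = Real.log χ - m * ∑ k, μ k * bp q δ (X k) := ⟨_, rfl⟩
  -- the main estimate
  have key : ∀ N : ℕ, ∃ j : ℕ, N ≤ j ∧ |(j : ℝ) * D| ≤ B := by
    intro N
    obtain ⟨j, hjJ, hx1, hx2⟩ := hX₁ (max N J)
    refine ⟨j, (le_max_left _ _).trans hjJ, ?_⟩
    obtain ⟨T, hT⟩ : ∃ T, T = j • δ := ⟨_, rfl⟩
    have hWj := h j ((le_max_right _ _).trans hjJ)
    rw [← hT] at hx1 hx2 hWj
    have hX₀1 : 1 ≤ X₀ := by
      have := abs_nonneg Xf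
      linarith
    have hT0 : T ≠ 0 := by
      intro h0
      rw [h0] at hx1
      have : ptX (0 : (curve a b).Point) = 0 := rfl
      rw [this, abs_zero] at hx1
      linarith
    have hfT := hcf T hT0 (by
      have := le_abs_self Xf
      linarith) hx2
    have hfpos : 0 < f T := hc.trans_le hfT.1
    have hlogf : |Real.log (f T)| ≤ L := by
      have h1 : Real.log c ≤ Real.log (f T) := Real.log_le_log hc hfT.1
      have h2 : Real.log (f T) ≤ Real.log Cf := Real.log_le_log hfpos hfT.2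
      have a1 := neg_abs_le (Real.log c)
      have a2 := le_abs_self (Real.log Cf)
      have a3 := abs_nonneg (Real.log c)
      have a4 := abs_nonneg (Real.log Cf)
      rw [hL, abs_le]
      constructor <;> linarith
    have hdT : 0 < (dn T : ℝ) := lt_of_lt_of_le (Real.exp_pos _) (hC₁ T hT0 hx2)
    have hlogT1 : q T - C₁ ≤ Real.log (dn T) := by
      rw [Real.le_log_iff_exp_le hdT]; exact hC₁ T hT0 hx2
    have hlogT2 : Real.log (dn T) ≤ q T + C := by
      rw [Real.log_le_iff_le_exp hdT]; exact hup T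
    have hTk : ∀ k, T + X k ≠ 0 ∧ |ptX (T + X k)| ≤ R k := by
      intro k
      rcases hR2 k T with h1 | h1
      · exfalso
        have h2 := hRsum k
        have h3 := abs_nonneg Xf
        linarith [h1.2]
      · exact h1
    have hdk : ∀ k, 0 < (dn (T + X k) : ℝ) := fun k =>
      lt_of_lt_of_le (Real.exp_pos _) (hCk k _ (hTk k).1 (hTk k).2)
    have hlogk : ∀ k, |Real.log ((dn (T + X k) : ℝ) / dn T) - j * bp q δ (X k)| ≤
        M k + |q (X k)| := by
      intro k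
      have h1 : q (T + X k) - C₁ * 0 - Ck k ≤ Real.log (dn (T + X k)) := by
        rw [mul_zero, sub_zero, Real.le_log_iff_exp_le (hdk k)]
        exact hCk k _ (hTk k).1 (hTk k).2
      have h2 : Real.log (dn (T + X k)) ≤ q (T + X k) + C := by
        rw [Real.log_le_iff_le_exp (hdk k)]; exact hup _
      have h3 : q (T + X k) = q T + q (X k) + j * bp q δ (X k) := by
        have : bp q T (X k) = j * bp q δ (X k) := by rw [hT, bp_nsmul_left hq]
        rw [← this]; unfold bp; ring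
      rw [Real.log_div (hdk k).ne' hdT.ne', hM]
      have a1 := neg_abs_le C
      have a2 := le_abs_self C
      have a3 := neg_abs_le C₁
      have a4 := le_abs_self C₁
      have a5 := neg_abs_le (Ck k)
      have a6 := le_abs_self (Ck k)
      have a7 := neg_abs_le (q (X k))
      have a8 := le_abs_self (q (X k))
      have a9 := abs_nonneg (Ck k)
      have a10 := abs_nonneg C₁
      rw [abs_le]
      constructor <;> linarith
    -- logarithm of the identity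
    have hlog := congrArg Real.log hWj
    have hzp : ∀ k, 0 < ((dn (T + X k) : ℝ) / dn T) ^ ((m : ℤ) * μ k) := fun k =>
      zpow_pos (div_pos (hdk k) hdT) _
    rw [Real.log_mul hfpos.ne' (Finset.prod_pos fun k _ => hzp k).ne',
      Real.log_prod (fun k _ => (hzp k).ne'), Real.log_mul hK.ne' (pow_pos hχ j).ne',
      Real.log_pow] at hlog
    have h4 : (j : ℝ) * D = Real.log (f T) - Real.log K +
        m * ∑ k, (μ k : ℝ) * (Real.log ((dn (T + X k) : ℝ) / dn T) - j * bp q δ (X k)) := by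
      have h5 : ∑ k, Real.log (((dn (T + X k) : ℝ) / dn T) ^ ((m : ℤ) * μ k)) =
          m * ∑ k, (μ k : ℝ) * Real.log ((dn (T + X k) : ℝ) / dn T) := by
        rw [Finset.mul_sum]
        refine Finset.sum_congr rfl fun k _ => ?_
        rw [Real.log_zpow]
        push_cast
        ring
      rw [h5] at hlog
      have h6 : ∑ k, (μ k : ℝ) * (Real.log ((dn (T + X k) : ℝ) / dn T) - j * bp q δ (X k)) =
          ∑ k, (μ k : ℝ) * Real.log ((dn (T + X k) : ℝ) / dn T) -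
            j * ∑ k, μ k * bp q δ (X k) := by
        rw [Finset.mul_sum, ← Finset.sum_sub_distrib]
        refine Finset.sum_congr rfl fun k _ => ?_
        ring
      rw [h6, hD]
      linear_combination -hlog
    rw [h4, hB]
    have h7 : |∑ k, (μ k : ℝ) * (Real.log ((dn (T + X k) : ℝ) / dn T) - j * bp q δ (X k))| ≤
        ∑ k, |(μ k : ℝ)| * (M k + |q (X k)|) := by
      refine (Finset.abs_sum_le_sum_abs _ _).trans (Finset.sum_le_sum fun k _ => ?_)
      rw [abs_mul]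
      exact mul_le_mul_of_nonneg_left (hlogk k) (abs_nonneg _)
    calc |Real.log (f T) - Real.log K + m * ∑ k, (μ k : ℝ) *
          (Real.log ((dn (T + X k) : ℝ) / dn T) - j * bp q δ (X k))|
        ≤ |Real.log (f T) - Real.log K| + |m * ∑ k, (μ k : ℝ) *
          (Real.log ((dn (T + X k) : ℝ) / dn T) - j * bp q δ (X k))| := abs_add_le _ _
      _ ≤ (|Real.log (f T)| + |Real.log K|) + m * ∑ k, |(μ k : ℝ)| * (M k + |q (X k)|) := by
          refine add_le_add (abs_sub _ _) ?_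
          rw [abs_mul, abs_of_nonneg (Nat.cast_nonneg m : (0 : ℝ) ≤ m)]
          exact mul_le_mul_of_nonneg_left h7 (Nat.cast_nonneg m)
      _ ≤ _ := by linarith
  have hD0 : D = 0 := by
    by_contra hne
    have hpos : 0 < |D| := abs_pos.mpr hne
    obtain ⟨N, hN⟩ := exists_nat_gt (B / |D|)
    obtain ⟨j, hj, hjB⟩ := key N
    rw [div_lt_iff₀ hpos] at hN
    rw [abs_mul, abs_of_nonneg (Nat.cast_nonneg j : (0 : ℝ) ≤ j)] at hjB
    have h1 : (N : ℝ) ≤ j := by exact_mod_cast hj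
    have := mul_le_mul_of_nonneg_right h1 hpos.le
    linarith
  rw [hD] at hD0
  linarith

end Pool.Agent.Lib.MP_3550b5_nt
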