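import Mathlib
import Pool.Agent.Lib.MP_3550b5_nt.ZE.NPoly
import Pool.Agent.Lib.MP_3550b5_nt.ZE.Grow

/-!
Functions on the curve are bounded from above and from below near the origin.
-/

namespace Pool.Agent.Lib.MP_3550b5_nt

open WeierstrassCurve.Affine Polynomial

variable {a b : ℤ}

/-- The norm of a function. -/
noncomputable def pnorm (a b : ℤ) (N : ℚ[X] × ℚ[X]) : ℚ[X] := N.1 ^ 2 - N.2 ^ 2 * cub a b

lemma cub_natDegree : (cub a b).natDegree = 3 := by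
  unfold cub
  compute_degree!

lemma cub_ne_zero : cub a b ≠ 0 := by
  intro h
  have := cub_natDegree (a := a) (b := b)
  rw [h, natDegree_zero] at this
  omega

lemma pnorm_ne_zero {N : ℚ[X] × ℚ[X]} (hN : N ≠ 0) : pnorm a b N ≠ 0 := by
  intro h
  have h1 : N.1 ^ 2 = N.2 ^ 2 * cub a b := sub_eq_zero.mp h
  by_cases hB : N.2 = 0
  · apply hN
    rw [hB] at h1
    have h2 : N.1 = 0 := by
      have : N.1 ^ 2 = 0 := by rw [h1]; ring
      exact pow_eq_zero_iff (two_ne_zero) |>.mp this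
    exact Prod.ext h2 hB
  · have h2 := congrArg natDegree h1
    rw [natDegree_pow, natDegree_mul (pow_ne_zero 2 hB) cub_ne_zero, natDegree_pow,
      cub_natDegree] at h2
    omega

lemma pv_mul_neg {N : ℚ[X] × ℚ[X]} {T : (curve a b).Point} (hT : T ≠ 0) :
    pv N T * pv N (-T) = (pnorm a b N).eval (ptX T) := by
  obtain ⟨k, -⟩ := exists_eq_some T hT
  have E := curve_eq k
  unfold pv pnorm
  rw [ptX_neg, ptY_neg, eval_sub, eval_mul, eval_pow, eval_pow, cub_eval, ← E]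
  ring

/-- Polynomials are bounded on bounded sets. -/
lemma poly_bdd (P : ℚ[X]) (X₁ : ℚ) : ∃ C : ℝ, 0 ≤ C ∧ ∀ x : ℚ, |x| ≤ X₁ →
    |((P.eval x : ℚ) : ℝ)| ≤ C := by
  refine ⟨∑ i ∈ P.support, |(P.coeff i : ℝ)| * (max (X₁ : ℝ) 0) ^ i, by positivity,
    fun x hx => ?_⟩
  rw [eval_eq_sum, Polynomial.sum]
  push_cast
  refine (Finset.abs_sum_le_sum_abs _ _).trans (Finset.sum_le_sum fun i _ => ?_)
  rw [abs_mul, abs_pow]
  have hx' : |(x : ℝ)| ≤ max (X₁ : ℝ) 0 := by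
    have : ((|x| : ℚ) : ℝ) ≤ (X₁ : ℝ) := by exact_mod_cast hx
    rw [Rat.cast_abs] at this
    exact this.trans (le_max_left _ _)
  gcongr

/-- Polynomials are bounded from below far from their roots. -/
lemma poly_lower' {P : ℚ[X]} (hP : P ≠ 0) : ∃ X₀ : ℚ, ∀ X₁ : ℚ, ∃ c : ℝ, 0 < c ∧
    ∀ x : ℚ, X₀ ≤ |x| → |x| ≤ X₁ → c ≤ |((P.eval x : ℚ) : ℝ)| := by
  obtain ⟨Pr, hPr⟩ : ∃ Pr : ℝ[X], Pr = P.map (algebraMap ℚ ℝ) := ⟨_, rfl⟩
  have hPr0 : Pr ≠ 0 := by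
    rw [hPr]
    exact (Polynomial.map_ne_zero_iff (algebraMap ℚ ℝ).injective).mpr hP
  have hev : ∀ x : ℚ, Pr.eval (x : ℝ) = ((P.eval x : ℚ) : ℝ) := by
    intro x
    rw [hPr]
    exact Polynomial.eval_map_apply (algebraMap ℚ ℝ) x
  obtain ⟨X₀, hX₀⟩ := exists_nat_gt (∑ r ∈ Pr.roots.toFinset, |r|)
  refine ⟨X₀, fun X₁ => ?_⟩
  have hcomp : IsCompact {x : ℝ | (X₀ : ℝ) ≤ |x| ∧ |x| ≤ (X₁ : ℝ)} := by
    apply Metric.isCompact_of_isClosed_isBounded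
    · exact (isClosed_le continuous_const continuous_abs).inter
        (isClosed_le continuous_abs continuous_const)
    · refine (Metric.isBounded_closedBall (x := (0 : ℝ)) (r := X₁)).subset ?_
      intro x hx
      rw [mem_closedBall_zero_iff, Real.norm_eq_abs]
      exact hx.2
  have hne : ∀ x ∈ {x : ℝ | (X₀ : ℝ) ≤ |x| ∧ |x| ≤ (X₁ : ℝ)}, 0 < |Pr.eval x| := by
    intro x hx
    rw [abs_pos]
    intro h0
    have h1 : x ∈ Pr.roots.toFinset := by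
      rw [Multiset.mem_toFinset, mem_roots hPr0]
      exact h0
    have h2 := Finset.single_le_sum (f := fun r : ℝ => |r|) (fun r _ => abs_nonneg r) h1
    have h3 : (X₀ : ℝ) ≤ |x| := hx.1
    have h4 : |x| ≤ ∑ r ∈ Pr.roots.toFinset, |r| := h2
    linarith
  rcases Set.eq_empty_or_nonempty {x : ℝ | (X₀ : ℝ) ≤ |x| ∧ |x| ≤ (X₁ : ℝ)} with he | hne'
  · refine ⟨1, one_pos, fun x h1 h2 => ?_⟩
    exfalso
    have : (x : ℝ) ∈ {x : ℝ | (X₀ : ℝ) ≤ |x| ∧ |x| ≤ (X₁ : ℝ)} := by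
      constructor
      · have : ((X₀ : ℚ) : ℝ) ≤ ((|x| : ℚ) : ℝ) := by exact_mod_cast h1
        rw [Rat.cast_abs] at this
        exact_mod_cast this
      · have : ((|x| : ℚ) : ℝ) ≤ (X₁ : ℝ) := by exact_mod_cast h2
        rwa [Rat.cast_abs] at this
    rw [he] at this
    exact this
  · obtain ⟨x₀, hx₀, hmin⟩ := hcomp.exists_isMinOn hne'
      ((Pr.continuous.abs).continuousOn (s := {x : ℝ | (X₀ : ℝ) ≤ |x| ∧ |x| ≤ (X₁ : ℝ)}))
    refine ⟨|Pr.eval x₀|, hne x₀ hx₀, fun x h1 h2 => ?_⟩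
    rw [← hev]
    apply hmin
    constructor
    · have : ((X₀ : ℚ) : ℝ) ≤ ((|x| : ℚ) : ℝ) := by exact_mod_cast h1
      rw [Rat.cast_abs] at this
      exact_mod_cast this
    · have : ((|x| : ℚ) : ℝ) ≤ (X₁ : ℝ) := by exact_mod_cast h2
      rwa [Rat.cast_abs] at this

lemma pv_bdd (N : ℚ[X] × ℚ[X]) (X₁ : ℚ) : ∃ C : ℝ, 0 ≤ C ∧ ∀ T : (curve a b).Point, T ≠ 0 →
    |ptX T| ≤ X₁ → |((pv N T : ℚ) : ℝ)| ≤ C := by
  obtain ⟨C1, h1, h1'⟩ := poly_bdd N.1 X₁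
  obtain ⟨C2, h2, h2'⟩ := poly_bdd N.2 X₁
  obtain ⟨C3, h3, h3'⟩ := poly_bdd (cub a b) X₁
  refine ⟨C1 + C2 * (1 + C3), by positivity, fun T hT hx => ?_⟩
  obtain ⟨k, -⟩ := exists_eq_some T hT
  have E := curve_eq k
  have e3 := h3' _ hx
  rw [cub_eval, ← E] at e3
  have hy : |((ptY T : ℚ) : ℝ)| ≤ 1 + C3 := by
    have h4 : ((ptY T : ℚ) : ℝ) ^ 2 ≤ C3 := by
      have := le_abs_self (((ptY T ^ 2 : ℚ)) : ℝ)
      push_cast at this e3 ⊢
      linarith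
    rw [← sq_abs] at h4
    nlinarith [abs_nonneg ((ptY T : ℚ) : ℝ)]
  unfold pv
  push_cast
  refine (abs_add_le _ _).trans (add_le_add (h1' _ hx) ?_)
  rw [abs_mul]
  exact mul_le_mul (h2' _ hx) hy (abs_nonneg _) h2

theorem nearBdd_pv {N : ℚ[X] × ℚ[X]} (hN : N ≠ 0) :
    NearBdd (fun T : (curve a b).Point => |((pv N T : ℚ) : ℝ)|) := by
  obtain ⟨X₀, hX₀⟩ := poly_lower' (pnorm_ne_zero (a := a) (b := b) hN)
  refine ⟨X₀, fun X₁ => ?_⟩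
  obtain ⟨c, hc, hc'⟩ := hX₀ X₁
  obtain ⟨C, hC, hC'⟩ := pv_bdd (a := a) (b := b) N X₁
  refine ⟨c / (C + 1), C, by positivity, fun T hT h1 h2 => ⟨?_, hC' T hT h2⟩⟩
  have h3 := hC' (-T) (neg_ne_zero.mpr hT) (by rw [ptX_neg]; exact h2)
  have h4 := hc' _ h1 h2
  rw [← pv_mul_neg hT] at h4
  push_cast at h4
  rw [abs_mul] at h4
  rw [div_le_iff₀ (by positivity)]
  calc c ≤ |((pv N T : ℚ) : ℝ)| * |((pv N (-T) : ℚ) : ℝ)| := h4
    _ ≤ |((pv N T : ℚ) : ℝ)| * (C + 1) := by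
      apply mul_le_mul_of_nonneg_left _ (abs_nonneg _)
      linarith

theorem NearBdd.div {f g : (curve a b).Point → ℝ} (hf : NearBdd f) (hg : NearBdd g) :
    NearBdd fun T => f T / g T := by
  obtain ⟨X, hX⟩ := hf
  obtain ⟨Y, hY⟩ := hg
  refine ⟨max X Y, fun X₁ => ?_⟩
  obtain ⟨c, C, hc, h1⟩ := hX X₁
  obtain ⟨d, D, hd, h2⟩ := hY X₁
  refine ⟨c / (|D| + 1), |C| / d, by positivity, fun T hT hx hx' => ?_⟩
  obtain ⟨f1, f2⟩ := h1 T hT ((le_max_left _ _).trans hx) hx'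
  obtain ⟨g1, g2⟩ := h2 T hT ((le_max_right _ _).trans hx) hx'
  have gpos : 0 < g T := hd.trans_le g1
  constructor
  · apply div_le_div₀ (hc.le.trans f1) f1 gpos
    have := le_abs_self D
    linarith
  · apply div_le_div₀ (abs_nonneg _) (f2.trans (le_abs_self _)) hd g1

end Pool.Agent.Lib.MP_3550b5_nt
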